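import Pool.Agent.J6H67.BW.Reg

/-!
# The tile lemma

Almost all vertices of a large graph can be covered by tiles: systems of `q` disjoint sets of
linear size, all pairs of which are typical pairs of the same colour.
-/

set_option autoImplicit false

open Finset

namespace Pool.Agent.J6H67.BW

section

open Classical

/-- **Tile lemma.** -/
theorem tile_lemma (q : ℕ) (hq : 0 < q) (ε2 η2 : ℝ) (hε2 : 0 < ε2) (hη2 : 0 < η2)
    (hη21 : η2 ≤ 1) :
    ∃ (M₀ Bd : ℕ), 0 < Bd ∧ ∀ (V : Type) [Fintype V] (G : SimpleGraph V),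
      M₀ ≤ Fintype.card V →
      ∃ (r m : ℕ) (U : Fin r → Fin q → Finset V) (col : Fin r → Bool),
        Fintype.card V ≤ Bd * m ∧ r * q ≤ Bd ∧ (∀ i a, m ≤ #(U i a)) ∧
        (∀ i a j a', (i, a) ≠ (j, a') → Disjoint (U i a) (U j a')) ∧
        (∀ i a a', a ≠ a' → Typ (Gc G (col i)) ε2 (1 / 4) (U i a) (U i a')) ∧
        (1 - η2) * (Fintype.card V : ℝ) ≤ (r : ℝ) * q * m := by
  set p2 : ℝ := 2 ^ (2 * q + 1) with hp2
  have hp2pos : 0 < p2 := by positivity
  have hp21 : 1 ≤ p2 := one_le_pow₀ (by norm_num)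
  set ζ : ℝ := η2 / (8 * p2) with hζ
  have hζpos : 0 < ζ := by positivity
  have hζp : ζ * p2 = η2 / 8 := by rw [hζ]; field_simp
  have hζle : ζ ≤ η2 / 8 := by
    have : ζ * 1 ≤ ζ * p2 := mul_le_mul_of_nonneg_left hp21 hζpos.le
    linarith
  set ε3 : ℝ := min (ζ ^ 2) (min ε2 (1 / 8)) with hε3
  have hε3pos : 0 < ε3 := lt_min (by positivity) (lt_min hε2 (by norm_num))
  have hε3a : ε3 ≤ ζ ^ 2 := min_le_left _ _
  have hε3b : ε3 ≤ ε2 := (min_le_right _ _).trans (min_le_left _ _)
  have hε3c : ε3 ≤ 1 / 8 := (min_le_right _ _).trans (min_le_right _ _)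
  set l : ℕ := ⌈8 * p2 / η2⌉₊ + 1 with hl
  have hlp : 8 * p2 / η2 ≤ (l : ℝ) := by
    rw [hl]; push_cast
    have := Nat.le_ceil (8 * p2 / η2)
    linarith
  set Bd0 : ℕ := SzemerediRegularity.bound ε3 l with hBd0
  refine ⟨max l (⌈2 * (Bd0 : ℝ) / η2⌉₊), 2 * Bd0, ?_, ?_⟩
  · have := SzemerediRegularity.bound_pos (ε := ε3) (l := l)
    omega
  intro V _ G hV
  have hV1 : l ≤ Fintype.card V := (le_max_left _ _).trans hV
  have hV2 : 2 * (Bd0 : ℝ) / η2 ≤ (Fintype.card V : ℝ) := by
    have h1 : ⌈2 * (Bd0 : ℝ) / η2⌉₊ ≤ Fintype.card V := (le_max_right _ _).trans hV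
    exact (Nat.le_ceil _).trans (by exact_mod_cast h1)
  obtain ⟨P, hP1, hP2, hP3, hP4⟩ := szemeredi_regularity G hε3pos hV1
  set k : ℕ := #P.parts with hk
  have hkpos : 0 < k := by omega
  have hkR : (0 : ℝ) < (k : ℝ) := by exact_mod_cast hkpos
  have hkl : 8 * p2 / η2 ≤ (k : ℝ) := hlp.trans (by exact_mod_cast hP2)
  set m : ℕ := Fintype.card V / k with hm
  have hmle : ∀ t ∈ P.parts, m ≤ #t := by
    intro t ht
    have := hP1.average_le_card_part ht
    rwa [card_univ] at this
  have hkV : k ≤ Fintype.card V := by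
    have h1 : (k : ℝ) ≤ (Fintype.card V : ℝ) := by
      have h2 : (k : ℝ) ≤ Bd0 := by exact_mod_cast hP3
      have h3 : (Bd0 : ℝ) ≤ 2 * (Bd0 : ℝ) / η2 := by
        rw [le_div_iff₀ hη2]
        have : (0 : ℝ) ≤ Bd0 := Nat.cast_nonneg _
        nlinarith
      linarith
    exact_mod_cast h1
  have hm1 : 1 ≤ m := (Nat.one_le_div_iff hkpos).mpr hkV
  have hdm : Fintype.card V < k * (m + 1) := by
    have h1 : k * m + Fintype.card V % k = Fintype.card V := Nat.div_add_mod _ _
    have h2 := Nat.mod_lt (Fintype.card V) hkpos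
    rw [Nat.mul_add, Nat.mul_one]
    omega
  -- relations between the parts
  set irr : Finset V → Finset V → Prop := fun A B => A ≠ B ∧ ¬ G.IsUniform ε3 A B with hirr
  set red : Finset V → Finset V → Prop := fun A B => (1 : ℝ) / 2 ≤ (G.edgeDensity A B : ℝ)
    with hred
  have hirrs : ∀ x y, irr x y → irr y x := fun x y h => ⟨h.1.symm, fun h' => h.2 h'.symm⟩
  have hreds : ∀ x y, red x y → red y x := by
    intro x y h
    simp only [hred] at h ⊢
    rwa [SimpleGraph.edgeDensity_comm]
  set D : ℕ := ⌊ζ * k⌋₊ with hD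
  have hDle : (D : ℝ) ≤ ζ * k := Nat.floor_le (by positivity)
  have hDlt : ζ * k < (D : ℝ) + 1 := Nat.lt_floor_add_one _
  set good : Finset (Finset V) := P.parts.filter (fun z => #(P.parts.filter (fun y => irr z y)) ≤ D)
    with hgood
  set bad : Finset (Finset V) := P.parts.filter
    (fun z => ¬ #(P.parts.filter (fun y => irr z y)) ≤ D) with hbad
  have hgb : #(good) + #(bad) = k := card_filter_add_card_filter_not _
  have hbadle : (#(bad) : ℝ) ≤ ζ * k := by
    have h1 : #(bad) * (D + 1) ≤ #(P.nonUniforms G ε3) := by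
      have h2 : #(bad.sigma (fun z => P.parts.filter (fun y => irr z y))) ≤
          #(P.nonUniforms G ε3) := by
        apply card_le_card_of_injOn (fun x => (x.1, x.2))
        · rintro ⟨z, y⟩ hx
          have hx' : (⟨z, y⟩ : (_ : Finset V) × Finset V) ∈
              bad.sigma (fun z => P.parts.filter (fun y => irr z y)) := by exact_mod_cast hx
          rw [mem_sigma] at hx'
          simp only [hbad, mem_filter] at hx'
          have : (z, y) ∈ P.nonUniforms G ε3 := by
            rw [Finpartition.mk_mem_nonUniforms]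
            exact ⟨hx'.1.1, hx'.2.1, hx'.2.2.1, hx'.2.2.2⟩
          exact_mod_cast this
        · rintro ⟨z, y⟩ _ ⟨z', y'⟩ _ h
          simp only [Prod.mk.injEq] at h
          rw [h.1, h.2]
      rw [card_sigma] at h2
      refine le_trans ?_ h2
      rw [← smul_eq_mul, ← sum_const]
      refine sum_le_sum fun z hz => ?_
      simp only [hbad, mem_filter] at hz
      omega
    have h3 : (#(P.nonUniforms G ε3) : ℝ) ≤ k * k * ε3 := by
      refine hP4.trans ?_
      have : ((#P.parts * (#P.parts - 1) : ℕ) : ℝ) ≤ (k : ℝ) * k := by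
        rw [← hk]
        have : k * (k - 1) ≤ k * k := Nat.mul_le_mul_left _ (Nat.sub_le _ _)
        exact_mod_cast this
      exact mul_le_mul_of_nonneg_right this hε3pos.le
    have h4 : (#(bad) : ℝ) * (ζ * k) ≤ (ζ * k) * (ζ * k) := by
      calc (#(bad) : ℝ) * (ζ * k) ≤ (#(bad) : ℝ) * (D + 1) :=
            mul_le_mul_of_nonneg_left hDlt.le (Nat.cast_nonneg _)
        _ ≤ k * k * ε3 := le_trans (by exact_mod_cast h1) h3
        _ ≤ k * k * ζ ^ 2 := mul_le_mul_of_nonneg_left hε3a (by positivity)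
        _ = (ζ * k) * (ζ * k) := by ring
    exact le_of_mul_le_mul_right h4 (by positivity)
  set T : ℕ := (D + 1) * (2 ^ (2 * q + 1) - 1) with hT
  have hTle : (T : ℝ) ≤ (ζ * k + 1) * p2 := by
    have h1 : (T : ℝ) ≤ ((D : ℝ) + 1) * p2 := by
      have : T ≤ (D + 1) * 2 ^ (2 * q + 1) := Nat.mul_le_mul_left _ (Nat.sub_le _ _)
      have h2 : (T : ℝ) ≤ (((D + 1) * 2 ^ (2 * q + 1) : ℕ) : ℝ) := by exact_mod_cast this
      refine h2.trans (le_of_eq ?_)
      push_cast
      rfl
    exact h1.trans (mul_le_mul_of_nonneg_right (by linarith) hp2pos.le)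
  obtain ⟨r, F, hF1, hF2, hF3, hF4, hF5⟩ := greedy_family
    (fun C : Finset (Finset V) => ∃ b : Bool, ∀ x ∈ C, ∀ y ∈ C, x ≠ y → ¬ irr x y ∧
      (if b then red x y else ¬ red x y)) q hq T (#(good)) good rfl (by
    intro Y hY hTY
    have hdeg : ∀ z ∈ Y, #(Y.filter (fun y => irr z y)) ≤ D := by
      intro z hz
      have h1 := hY hz
      simp only [hgood, mem_filter] at h1
      refine (card_le_card (filter_subset_filter _ ?_)).trans h1.2
      exact hY.trans (filter_subset _ _)
    rcases ramsey_sparse irr red hreds hirrs D (2 * q) q q (by omega) Y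
      (fun z hz => by convert hdeg z hz) hTY with
      ⟨C, h1, h2, h3⟩ | ⟨C, h1, h2, h3⟩
    · exact ⟨C, h1, h2, true, fun x hx y hy hxy => by simpa using h3 x hx y hy hxy⟩
    · exact ⟨C, h1, h2, false, fun x hx y hy hxy => by simpa using h3 x hx y hy hxy⟩)
  choose col hcol using hF3
  set e : ∀ i : Fin r, {x // x ∈ F i} ≃ Fin q := fun i => (F i).equivFinOfCardEq (hF2 i) with he
  set U : Fin r → Fin q → Finset V := fun i a => ((e i).symm a : Finset V) with hU
  have hUF : ∀ i a, U i a ∈ F i := fun i a => ((e i).symm a).2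
  have hUP : ∀ i a, U i a ∈ P.parts := fun i a => (filter_subset _ _) (hF1 i (hUF i a))
  have hUne : ∀ i a j a', (i, a) ≠ (j, a') → U i a ≠ U j a' := by
    intro i a j a' hne h
    by_cases hij : i = j
    · subst hij
      apply hne
      have := (e i).symm.injective (Subtype.ext h)
      rw [this]
    · have h1 := hUF i a
      rw [h] at h1
      exact (Finset.disjoint_left.mp (hF4 i j hij) h1) (hUF j a')
  have hUdisj : ∀ i a j a', (i, a) ≠ (j, a') → Disjoint (U i a) (U j a') := by
    intro i a j a' hne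
    exact P.disjoint (hUP i a) (hUP j a') (hUne i a j a' hne)
  refine ⟨r, m, U, col, ?_, ?_, fun i a => hmle _ (hUP i a), hUdisj, ?_, ?_⟩
  · have h1 : k * (m + 1) ≤ Bd0 * (2 * m) := Nat.mul_le_mul hP3 (by omega)
    calc Fintype.card V ≤ Bd0 * (2 * m) := hdm.le.trans h1
      _ = 2 * Bd0 * m := by ring
  · -- r * q ≤ k
    have h1 : #((univ : Finset (Fin r)).biUnion F) = r * q := by
      rw [card_biUnion (fun i _ j _ hij => hF4 i j hij), sum_congr rfl fun i _ => hF2 i,
        sum_const, card_univ, Fintype.card_fin, smul_eq_mul]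
    have h2 : (univ : Finset (Fin r)).biUnion F ⊆ P.parts := by
      intro x hx
      rw [mem_biUnion] at hx
      obtain ⟨i, _, hx⟩ := hx
      exact (filter_subset _ _) (hF1 i hx)
    have h3 := card_le_card h2
    rw [h1] at h3
    omega
  · intro i a a' haa
    have hne : U i a ≠ U i a' := hUne i a i a' (fun h => haa (by simpa using h))
    obtain ⟨h1, h2⟩ := hcol i _ (hUF i a) _ (hUF i a') hne
    have hu : G.IsUniform ε3 (U i a) (U i a') := by
      by_contra h
      exact h1 ⟨hne, h⟩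
    have hne0 : ∀ a, (U i a).Nonempty := fun a => P.nonempty_of_mem_parts (hUP i a)
    apply typ_of_uniform G (col i) (U i a) (U i a') (U i a) (U i a') ε3 ε2 hε3pos hε3c hu
      (hUdisj i a i a' (fun h => haa (by simpa using h))) _ (Subset.refl _) (Subset.refl _)
      (hne0 a) (hne0 a')
    · rw [mul_comm]
      exact mul_le_mul_of_nonneg_right hε3b (Nat.cast_nonneg _)
    · rw [mul_comm]
      exact mul_le_mul_of_nonneg_right hε3b (Nat.cast_nonneg _)
    · cases hc : col i with
      | true =>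
        rw [hc] at h2
        simpa [hred] using h2
      | false =>
        rw [hc] at h2
        simp only [hred, Bool.false_eq_true, if_false, not_le] at h2 ⊢
        exact h2.le
  · -- coverage
    have h1 : (#(good) : ℝ) ≤ (r : ℝ) * q + T := by exact_mod_cast hF5
    have h2 : (#(good) : ℝ) + (#(bad) : ℝ) = k := by exact_mod_cast hgb
    have h3 : (k : ℝ) * (1 - η2 / 2) ≤ (r : ℝ) * q := by
      have h4 : p2 ≤ η2 / 8 * k := by
        rw [div_le_iff₀ hη2] at hkl
        linarith
      have h5 : (ζ * k + 1) * p2 = (ζ * p2) * k + p2 := by ring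
      rw [h5, hζp] at hTle
      have h6 : ζ * k ≤ η2 / 8 * k := mul_le_mul_of_nonneg_right hζle hkR.le
      nlinarith
    have h7 : (Fintype.card V : ℝ) - k ≤ (k : ℝ) * m := by
      have : (Fintype.card V : ℝ) ≤ (k : ℝ) * (m + 1) := by exact_mod_cast hdm.le
      linarith
    have h8 : (k : ℝ) ≤ η2 / 2 * (Fintype.card V : ℝ) := by
      have h9 : (k : ℝ) ≤ Bd0 := by exact_mod_cast hP3
      rw [div_le_iff₀ hη2] at hV2
      linarith
    have h10 : (0 : ℝ) ≤ m := Nat.cast_nonneg _
    calc (1 - η2) * (Fintype.card V : ℝ)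
        ≤ (1 - η2 / 2) * ((Fintype.card V : ℝ) - k) := by
          have h11 : (0 : ℝ) ≤ (Fintype.card V : ℝ) := Nat.cast_nonneg _
          have h12 : (1 - η2 / 2) * k ≤ 1 * (η2 / 2 * (Fintype.card V : ℝ)) := by
            apply mul_le_mul (by linarith) h8 hkR.le (by norm_num)
          nlinarith
      _ ≤ (1 - η2 / 2) * ((k : ℝ) * m) :=
          mul_le_mul_of_nonneg_left h7 (by linarith)
      _ = ((k : ℝ) * (1 - η2 / 2)) * m := by ring
      _ ≤ (r : ℝ) * q * m := mul_le_mul_of_nonneg_right h3 h10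

end

end Pool.Agent.J6H67.BW
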