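import Pool.Agent.J6H67.BW.Core
import Pool.Agent.J6H67.BW.Tiles

/-!
# From tile systems to embeddings
-/

set_option autoImplicit false

open Finset

namespace Pool.Agent.J6H67.BW

section

open Classical

/-- a certificate gives an embedding -/
theorem embed_of_cert {V : Type*} {𝒯 : Type} [Fintype 𝒯] {χ n : ℕ} (G : SimpleGraph V)
    (D : TileSys 𝒯) {η : ℝ} (hD : D.Good η) (b0 : Bool) (hcert : Cert D b0 χ)
    (U : 𝒯 → Fin (χ + 1) → Finset V)
    (hUdisj : ∀ τ a τ' a', (τ, a) ≠ (τ', a') → Disjoint (U τ a) (U τ' a'))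
    (mm : 𝒯 → ℕ) (hmm : ∀ τ a, mm τ ≤ #(U τ a)) (σ : ℝ) (hσ0 : 0 < σ) (hσ1 : σ ≤ 1)
    (hw : ∀ τ, (n : ℝ) * D.w τ ≤ (1 - σ) * ((χ + 1) * (mm τ : ℝ)))
    (ε2 : ℝ) (hε2 : 0 ≤ ε2)
    (htyp : ∀ s s' : 𝒯 × Fin (χ + 1), Radj D b0 χ s s' →
      Typ (Gc G b0) ε2 (1 / 4) (U s.1 s.2) (U s'.1 s'.2))
    (b Δ K K' L : ℕ) (hL : Fintype.card (𝒯 × Fin (χ + 1)) ^ χ ≤ L) (hK' : L < K')
    (hn : n ≤ K * (K' * (b + 1)))
    (hnum : ∀ τ, Real.sqrt K * (K' * (b + 1)) + K * L * (b + 1) ≤ σ / 2 * (mm τ : ℝ))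
    (hεΔ : ε2 ≤ (1 / 4) ^ Δ * (σ / 2))
    (hsize : ∀ τ a, (b : ℝ) + Δ * (ε2 * (#(U τ a) : ℝ)) < (1 / 4) ^ Δ * (σ / 2) * (#(U τ a) : ℝ))
    (H : SimpleGraph (Fin n)) (hb : ∀ x y : Fin n, H.Adj x y → (y : ℕ) ≤ (x : ℕ) + b)
    (hΔ : ∀ x, #((univ : Finset (Fin n)).filter (fun y => H.Adj x y)) ≤ Δ)
    (col : Fin n → Fin χ) (hcol : ∀ x y, H.Adj x y → col x ≠ col y) :
    ∃ f : Fin n → V, Function.Injective f ∧ ∀ x y, H.Adj x y → (Gc G b0).Adj (f x) (f y) := by
  obtain ⟨I, _, T, v, hv0, hv1, hcl, hre, hus⟩ := hcert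
  have hq : (0 : ℝ) < (χ : ℝ) + 1 := by positivity
  -- the cliques of clusters
  set I' := {i : I // v i ≠ 0} × Fin (χ + 1) with hI'
  set κ : I' → Fin (χ + 1) → 𝒯 × Fin (χ + 1) := fun i a => (T i.1 a, a + i.2) with hκ
  set u : I' → ℝ := fun i => v i.1 / (χ + 1) with hu
  have hsub : ∀ f : I → ℝ, (∀ i, v i = 0 → f i = 0) →
      ∑ i : {i : I // v i ≠ 0}, f i = ∑ i, f i := by
    intro f hf
    rw [← Finset.sum_subtype (univ.filter (fun i => v i ≠ 0)) (by simp) f]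
    exact sum_filter_of_ne (fun i _ hi hv => hi (hf i hv))
  have hu0 : ∀ i, 0 ≤ u i := fun i => div_nonneg (hv0 _) hq.le
  have hu1 : ∑ i, u i = 1 := by
    rw [Fintype.sum_prod_type]
    simp only [hu, sum_const, card_univ, Fintype.card_fin, nsmul_eq_mul]
    rw [← mul_sum, ← sum_div, hsub v (fun i h => h), hv1]
    push_cast
    field_simp
  have hclq : ∀ i : I', ∀ a a', a ≠ a' → Radj D b0 χ (κ i a) (κ i a') := by
    intro i a a' haa
    rcases hcl i.1 i.1.2 a a' haa with h | h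
    · exact Or.inl ⟨h.1, h.2, fun h' => haa (add_right_cancel h')⟩
    · exact Or.inr h
  have hreach : ∀ i j : I', (stG (Radj D b0 χ) χ).Reachable (fun c : Fin χ => κ i c.castSucc)
      (fun c : Fin χ => κ j c.castSucc) := fun i j => hre i.1 j.1 i.1.2 j.1.2 i.2 j.2
  obtain ⟨φ, hφ1, hφ2⟩ := hom_exists (Radj D b0 χ) (Radj_symm' D hD.rel_symm b0) n b H hb col hcol
    K K' L hL hK' hn κ u hu0 hu1 hclq hreach
  have husage : ∀ s : 𝒯 × Fin (χ + 1),
      ∑ i, u i * ((#((univ : Finset (Fin (χ + 1))).filter (fun a => κ i a = s)) : ℕ) : ℝ) ≤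
        D.w s.1 := by
    intro s
    rw [Fintype.sum_prod_type]
    have h1 : ∀ i : {i : I // v i ≠ 0}, ∑ ρ : Fin (χ + 1), u (i, ρ) *
        ((#((univ : Finset (Fin (χ + 1))).filter (fun a => κ (i, ρ) a = s)) : ℕ) : ℝ) =
        v i / (χ + 1) * ((#((univ : Finset (Fin (χ + 1))).filter
          (fun a => T i a = s.1)) : ℕ) : ℝ) := by
      intro i
      simp only [hu]
      rw [← mul_sum]
      congr 1
      simp_rw [card_filter]
      push_cast
      rw [sum_comm]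
      refine sum_congr rfl fun a _ => ?_
      by_cases h : T i a = s.1
      · rw [if_pos h]
        rw [sum_eq_single (s.2 - a)]
        · rw [if_pos]
          simp only [hκ]
          apply Prod.ext
          · exact h
          · simp
        · intro ρ _ hρ
          rw [if_neg]
          intro h'
          apply hρ
          have := congrArg Prod.snd h'
          simp only [hκ] at this
          rw [← this]; simp
        · intro h'; exact absurd (mem_univ _) h'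
      · rw [if_neg h]
        refine sum_eq_zero fun ρ _ => ?_
        rw [if_neg]
        intro h'
        exact h (congrArg Prod.fst h')
    rw [sum_congr rfl fun i _ => h1 i]
    rw [hsub (fun i => v i / (χ + 1) * ((#((univ : Finset (Fin (χ + 1))).filter
          (fun a => T i a = s.1)) : ℕ) : ℝ)) (fun i h => by rw [h]; simp)]
    have h2 := hus s.1
    have h3 : ∑ i, v i / (χ + 1) * ((#((univ : Finset (Fin (χ + 1))).filter
          (fun a => T i a = s.1)) : ℕ) : ℝ) = (∑ i, v i * ((#((univ : Finset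
          (Fin (χ + 1))).filter (fun a => T i a = s.1)) : ℕ) : ℝ)) / (χ + 1) := by
      rw [sum_div]
      refine sum_congr rfl fun i _ => ?_
      ring
    rw [h3, div_le_iff₀ hq]
    linarith
  have hload : ∀ s : 𝒯 × Fin (χ + 1),
      ((#((univ : Finset (Fin n)).filter (fun x : Fin n => φ x = s)) : ℕ) : ℝ)
      ≤ (1 - σ / 2) * (#(U s.1 s.2) : ℝ) := by
    intro s
    refine (hφ2 s).trans ?_
    have h1 : (n : ℝ) * ((∑ i, u i * ((#((univ : Finset (Fin (χ + 1))).filter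
        (fun a => κ i a = s)) : ℕ) : ℝ)) / (χ + 1)) ≤ (1 - σ) * (mm s.1 : ℝ) := by
      rw [mul_div_assoc', div_le_iff₀ hq]
      have h2 : (n : ℝ) * (∑ i, u i * ((#((univ : Finset (Fin (χ + 1))).filter
        (fun a => κ i a = s)) : ℕ) : ℝ)) ≤ n * D.w s.1 :=
        mul_le_mul_of_nonneg_left (husage s) (Nat.cast_nonneg _)
      have h3 := hw s.1
      linarith
    have h2 := hnum s.1
    have h3 : ((1 - σ) + σ / 2) * (mm s.1 : ℝ) ≤ (1 - σ / 2) * (#(U s.1 s.2) : ℝ) := by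
      have h4 : (mm s.1 : ℝ) ≤ (#(U s.1 s.2) : ℝ) := by exact_mod_cast hmm s.1 s.2
      have : (1 - σ) + σ / 2 = 1 - σ / 2 := by ring
      rw [this]
      exact mul_le_mul_of_nonneg_left h4 (by linarith)
    linarith
  apply greedy_embed (Gc G b0) H b Δ hb hΔ (fun s : 𝒯 × Fin (χ + 1) => U s.1 s.2) _ φ (1 / 4) ε2
    (σ / 2) (by norm_num) (by norm_num) (by linarith) hε2 hεΔ _ (fun s => by convert hload s)
  · intro x
    exact hsize _ _
  · intro s s' hss
    exact hUdisj _ _ _ _ hss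
  · intro x y hxy
    exact htyp _ _ (hφ1 x y hxy)

end

end Pool.Agent.J6H67.BW
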