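import Pool.Agent.J6H67.BW.CertB

/-!
# The main inequality for a large component
-/

set_option autoImplicit false

open Finset

namespace Pool.Agent.J6H67.BW

section

open Classical

variable {𝒯 : Type} [Fintype 𝒯] {χ : ℕ}

/-- the positions at which a vertex of another component can be inserted -/
noncomputable def JJ (D : TileSys 𝒯) (b : Bool) (act : Finset (Fin (χ + 1))) (τ : 𝒯)
    (ω : Fin (χ + 1) → 𝒯) : Finset (Fin (χ + 1)) :=
  act.filter (fun j => D.rel b τ (ω j) ∧ ∀ i ∈ act, i ≠ j → ¬ D.bad (ω i) (ω j))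

/-- the pattern of tiles -/
noncomputable def TT (D : TileSys 𝒯) (b : Bool) (act : Finset (Fin (χ + 1))) (τ : 𝒯)
    (ω : Fin (χ + 1) → 𝒯) (a : Fin (χ + 1)) : 𝒯 :=
  if a ∈ JJ D b act τ ω then ω a else τ

theorem certA (D : TileSys 𝒯) {η : ℝ} (hD : D.Good η) (hη : 0 ≤ η) (b : Bool)
    (A : Finset 𝒯) (hAcol : ∀ τ ∈ A, D.col τ = b)
    (hAconn : ∀ τ ∈ A, ∀ τ' ∈ A, conn D b χ τ τ')
    (act : Finset (Fin (χ + 1))) (hact : #(act) ≤ χ) (B : Fin (χ + 1) → Finset 𝒯)
    (hBcol : ∀ j ∈ act, ∀ τ ∈ B j, D.col τ ≠ b)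
    (hBW : ∀ j ∈ act, 1 / ((χ : ℝ) + 1) ≤ D.wt (B j))
    (hBrel : ∀ i ∈ act, ∀ j ∈ act, i ≠ j → ∀ τ ∈ B i, ∀ τ' ∈ B j, ¬ D.bad τ τ' → D.rel b τ τ')
    (hBdisj : ∀ i ∈ act, ∀ j ∈ act, i ≠ j → Disjoint (B i) (B j))
    (hA : 0 < D.wt A) (hno : ¬ Cert D b χ) :
    (χ + 1) * D.wt A + (∑ τ ∈ A, D.w τ * ∑ j ∈ act,
      (∑ τ', D.p (B j) τ' * (if D.rel b τ τ' then 1 else 0) - (χ + 1) * (η * (χ + 1)))) / D.wt A
      ≤ χ + 1 := by
  have hq : (0 : ℝ) < (χ : ℝ) + 1 := by positivity
  have hWpos : ∀ j ∈ act, 0 < D.wt (B j) := fun j hj => lt_of_lt_of_le (by positivity) (hBW j hj)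
  obtain ⟨τ0, hτ0⟩ : A.Nonempty := by
    by_contra h
    rw [not_nonempty_iff_eq_empty] at h
    rw [h] at hA
    simp [TileSys.wt] at hA
  set p : Fin (χ + 1) → 𝒯 → ℝ := fun j τ => if j ∈ act then D.p (B j) τ else
    (if τ = τ0 then 1 else 0) with hp
  have hp0 : ∀ j τ, 0 ≤ p j τ := by
    intro j τ
    simp only [hp]
    split_ifs
    · exact D.p_nonneg hD.w_nonneg _ _
    · norm_num
    · exact le_rfl
  have hp1 : ∀ j, ∑ τ, p j τ = 1 := by
    intro j
    simp only [hp]
    by_cases hj : j ∈ act
    · simp only [if_pos hj]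
      exact D.p_sum _ (hWpos j hj)
    · simp only [if_neg hj]
      simp
  have hpr0 := pr_nonneg p hp0
  have hpr1 := pr_sum p hp1
  have hmem : ∀ ω, pr p ω ≠ 0 → ∀ j ∈ act, ω j ∈ B j := by
    intro ω h j hj
    by_contra hj'
    apply h
    unfold pr
    apply prod_eq_zero (mem_univ j)
    simp only [hp, if_pos hj, TileSys.p, if_neg hj']
  -- the expected number of insertions
  set R : 𝒯 → ℝ := fun τ => ∑ ω, pr p ω * (#(JJ D b act τ ω) : ℝ) with hR
  have hRle : ∀ τ, R τ ≤ χ := by
    intro τ
    calc R τ ≤ ∑ ω, pr p ω * (χ : ℝ) := by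
          refine sum_le_sum fun ω _ => mul_le_mul_of_nonneg_left ?_ (hpr0 ω)
          have : #(JJ D b act τ ω) ≤ χ := (card_le_card (filter_subset _ _)).trans hact
          exact_mod_cast this
      _ = χ := by rw [← sum_mul, hpr1, one_mul]
  have hqR : ∀ τ, 0 < (χ : ℝ) + 1 - R τ := fun τ => by have := hRle τ; linarith
  have hηW : ∀ j ∈ act, η / D.wt (B j) ≤ η * (χ + 1) := by
    intro j hj
    rw [div_le_iff₀ (hWpos j hj)]
    have := hBW j hj
    rw [div_le_iff₀ hq] at this
    nlinarith
  have hE2 : ∀ i ∈ act, ∀ j ∈ act, i ≠ j →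
      ∑ ω, pr p ω * (if D.bad (ω i) (ω j) then 1 else 0) ≤ η * (χ + 1) := by
    intro i _ j hj hij
    rw [pr_two p hp1 i j hij (fun x y => if D.bad x y then 1 else 0)]
    calc ∑ x, p i x * ∑ y, p j y * (if D.bad x y then 1 else 0)
        ≤ ∑ x, p i x * (η * (χ + 1)) := by
          refine sum_le_sum fun x _ => mul_le_mul_of_nonneg_left ?_ (hp0 i x)
          simp only [hp, if_pos hj]
          exact (D.p_bad hD (B j) (hWpos j hj) x).trans (hηW j hj)
      _ = η * (χ + 1) := by rw [← sum_mul, hp1, one_mul]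
  have hRge : ∀ τ, ∑ j ∈ act, (∑ τ', D.p (B j) τ' * (if D.rel b τ τ' then 1 else 0)
      - (χ + 1) * (η * (χ + 1))) ≤ R τ := by
    intro τ
    have h1 : ∀ ω, ∑ j ∈ act, ((if D.rel b τ (ω j) then (1 : ℝ) else 0) -
        ∑ i ∈ act.erase j, (if D.bad (ω i) (ω j) then (1 : ℝ) else 0)) ≤
        (#(JJ D b act τ ω) : ℝ) := by
      intro ω
      have h2 : (#(JJ D b act τ ω) : ℝ) = ∑ j ∈ act, if (D.rel b τ (ω j) ∧
          ∀ i ∈ act, i ≠ j → ¬ D.bad (ω i) (ω j)) then (1 : ℝ) else 0 := by
        unfold JJ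
        rw [card_filter]
        push_cast
        rfl
      rw [h2]
      refine sum_le_sum fun j _ => ?_
      have hs : 0 ≤ ∑ i ∈ act.erase j, (if D.bad (ω i) (ω j) then (1 : ℝ) else 0) :=
        sum_nonneg fun i _ => by split_ifs <;> norm_num
      by_cases h3 : D.rel b τ (ω j) ∧ ∀ i ∈ act, i ≠ j → ¬ D.bad (ω i) (ω j)
      · rw [if_pos h3, if_pos h3.1]
        linarith
      · rw [if_neg h3]
        by_cases h4 : D.rel b τ (ω j)
        · rw [if_pos h4]
          have h5 : ∃ i ∈ act, i ≠ j ∧ D.bad (ω i) (ω j) := by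
            by_contra hno'
            push Not at hno'
            exact h3 ⟨h4, hno'⟩
          obtain ⟨i, hi, hij, hbad⟩ := h5
          have h6 : (1 : ℝ) ≤ ∑ i ∈ act.erase j, (if D.bad (ω i) (ω j) then (1 : ℝ) else 0) := by
            calc (1 : ℝ) = if D.bad (ω i) (ω j) then (1 : ℝ) else 0 := by rw [if_pos hbad]
              _ ≤ _ := single_le_sum (f := fun i => if D.bad (ω i) (ω j) then (1 : ℝ) else 0)
                (fun i _ => by split_ifs <;> norm_num) (mem_erase.mpr ⟨hij, hi⟩)
          linarith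
        · rw [if_neg h4]
          linarith
    have h2 : ∑ ω, pr p ω * ∑ j ∈ act, ((if D.rel b τ (ω j) then (1 : ℝ) else 0) -
        ∑ i ∈ act.erase j, (if D.bad (ω i) (ω j) then (1 : ℝ) else 0)) ≤ R τ :=
      sum_le_sum fun ω _ => mul_le_mul_of_nonneg_left (h1 ω) (hpr0 ω)
    refine le_trans ?_ h2
    have h3 : ∑ ω, pr p ω * ∑ j ∈ act, ((if D.rel b τ (ω j) then (1 : ℝ) else 0) -
        ∑ i ∈ act.erase j, (if D.bad (ω i) (ω j) then (1 : ℝ) else 0)) =
        ∑ j ∈ act, (∑ ω, pr p ω * (if D.rel b τ (ω j) then (1 : ℝ) else 0) -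
        ∑ i ∈ act.erase j, ∑ ω, pr p ω * (if D.bad (ω i) (ω j) then (1 : ℝ) else 0)) := by
      simp only [mul_sum, mul_sub]
      rw [sum_comm]
      refine sum_congr rfl fun j _ => ?_
      rw [sum_sub_distrib]
      congr 1
      rw [sum_comm]
    rw [h3]
    refine sum_le_sum fun j hj => ?_
    rw [pr_one p hp1 j (fun x => if D.rel b τ x then 1 else 0)]
    simp only [hp, if_pos hj]
    apply sub_le_sub_left
    calc ∑ i ∈ act.erase j, ∑ ω, pr p ω * (if D.bad (ω i) (ω j) then (1 : ℝ) else 0)
        ≤ ∑ _i ∈ act.erase j, η * (χ + 1) := by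
          refine sum_le_sum fun i hi => ?_
          rw [mem_erase] at hi
          exact hE2 i hi.2 j hj hi.1
      _ = (#(act.erase j) : ℝ) * (η * (χ + 1)) := by rw [sum_const, nsmul_eq_mul]
      _ ≤ (χ + 1) * (η * (χ + 1)) := by
          apply mul_le_mul_of_nonneg_right _ (by positivity)
          have : #(act.erase j) ≤ χ + 1 := (card_le_card (erase_subset _ _)).trans (by omega)
          exact_mod_cast this
  -- the masses
  set x : 𝒯 → ℝ := fun τ => D.w τ / (χ + 1 - R τ) with hx
  have hx0 : ∀ τ, 0 ≤ x τ := fun τ => div_nonneg (hD.w_nonneg τ) (hqR τ).le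
  set X : ℝ := ∑ τ ∈ A, x τ with hX
  have hXlt : X ≤ 1 / (χ + 1) := by
    by_contra hcon
    push Not at hcon
    have hXpos : 0 < X := lt_trans (by positivity) hcon
    apply hno
    -- consequences of positive weight
    have hcliq : ∀ τ ∈ A, ∀ ω, pr p ω ≠ 0 → ∀ a a', a ≠ a' →
        (TT D b act τ ω a = TT D b act τ ω a' ∧ D.col (TT D b act τ ω a) = b) ∨
        (TT D b act τ ω a ≠ TT D b act τ ω a' ∧
          D.rel b (TT D b act τ ω a) (TT D b act τ ω a')) := by
      intro τ hτ ω hω a a' haa
      have hJ : ∀ j, j ∈ JJ D b act τ ω → j ∈ act ∧ D.rel b τ (ω j) ∧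
          ∀ i ∈ act, i ≠ j → ¬ D.bad (ω i) (ω j) := by
        intro j hj
        unfold JJ at hj
        rw [mem_filter] at hj
        exact ⟨hj.1, hj.2.1, hj.2.2⟩
      have hne : ∀ j, j ∈ JJ D b act τ ω → τ ≠ ω j := by
        intro j hj h
        have := hBcol j (hJ j hj).1 (ω j) (hmem ω hω j (hJ j hj).1)
        rw [← h] at this
        exact this (hAcol τ hτ)
      unfold TT
      by_cases h1 : a ∈ JJ D b act τ ω <;> by_cases h2 : a' ∈ JJ D b act τ ω
      · rw [if_pos h1, if_pos h2]
        right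
        have hnb := (hJ a' h2).2.2 a (hJ a h1).1 haa
        refine ⟨fun h => ?_, hBrel a (hJ a h1).1 a' (hJ a' h2).1 haa _
          (hmem ω hω a (hJ a h1).1) _ (hmem ω hω a' (hJ a' h2).1) hnb⟩
        rw [h] at hnb
        exact hnb (hD.bad_refl _)
      · rw [if_pos h1, if_neg h2]
        right
        exact ⟨(hne a h1).symm, hD.rel_symm _ _ _ (hJ a h1).2.1⟩
      · rw [if_neg h1, if_pos h2]
        right
        exact ⟨hne a' h2, (hJ a' h2).2.1⟩
      · rw [if_neg h1, if_neg h2]
        left
        exact ⟨rfl, hAcol τ hτ⟩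
    have hreach1 : ∀ τ ∈ A, ∀ ω, pr p ω ≠ 0 → ∀ ρ : Fin (χ + 1),
        (stG (Radj D b χ) χ).Reachable
          (fun c : Fin χ => (TT D b act τ ω c.castSucc, c.castSucc + ρ))
          (fun c : Fin χ => (τ, c.castSucc)) := by
      intro τ hτ ω hω ρ
      refine SimpleGraph.Reachable.trans ?_
        (reach_tile_rot D hD.rel_symm b τ (hAcol τ hτ) ρ).symm
      apply reach_of_lt _ (Radj_symm' D hD.rel_symm b)
      · intro i j hij
        have hij' : i.castSucc ≠ j.castSucc := fun h => hij (Fin.castSucc_injective _ h)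
        rcases hcliq τ hτ ω hω _ _ hij' with h | h
        · exact Or.inl ⟨h.1, h.2, fun h' => hij' (add_right_cancel h')⟩
        · exact Or.inr h
      · intro i j hij
        have hij' : i.castSucc ≠ j.castSucc := fun h => hij (Fin.castSucc_injective _ h)
        exact Or.inl ⟨rfl, hAcol τ hτ, fun h' => hij' (add_right_cancel h')⟩
      · intro c c' hcc
        have hij' : c.castSucc ≠ c'.castSucc := fun h => hcc.ne (Fin.castSucc_injective _ h)
        by_cases h1 : c.castSucc ∈ JJ D b act τ ω
        · right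
          have h1' := h1
          unfold JJ at h1'
          rw [mem_filter] at h1'
          have hT : TT D b act τ ω c.castSucc = ω c.castSucc := by
            unfold TT; rw [if_pos h1]
          dsimp only
          rw [hT]
          refine ⟨fun h => ?_, hD.rel_symm _ _ _ h1'.2.1⟩
          have := hBcol _ h1'.1 _ (hmem ω hω _ h1'.1)
          rw [h] at this
          exact this (hAcol τ hτ)
        · left
          have hT : TT D b act τ ω c.castSucc = τ := by
            unfold TT; rw [if_neg h1]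
          dsimp only
          rw [hT]
          exact ⟨rfl, hAcol τ hτ, fun h' => hij' (add_right_cancel h')⟩
    refine ⟨𝒯 × (Fin (χ + 1) → 𝒯), inferInstance, fun i => TT D b act i.1 i.2,
      fun i => if i.1 ∈ A then x i.1 * pr p i.2 / X else 0, ?_, ?_, ?_, ?_, ?_⟩
    · intro i
      dsimp only
      split_ifs
      · exact div_nonneg (mul_nonneg (hx0 _) (hpr0 _)) hXpos.le
      · exact le_rfl
    · rw [Fintype.sum_prod_type]
      have h1 : ∀ τ, ∑ ω : Fin (χ + 1) → 𝒯, (if τ ∈ A then x τ * pr p ω / X else 0) =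
          if τ ∈ A then x τ / X else 0 := by
        intro τ
        split_ifs
        · rw [← sum_div, ← mul_sum, hpr1, mul_one]
        · simp
      rw [sum_congr rfl fun τ _ => h1 τ, ← sum_filter]
      have : (univ : Finset 𝒯).filter (fun τ => τ ∈ A) = A := by ext; simp
      rw [this, ← sum_div]
      exact div_self hXpos.ne'
    · intro i hi a a' haa
      dsimp only at hi ⊢
      by_cases hA' : i.1 ∈ A
      · rw [if_pos hA'] at hi
        have hω : pr p i.2 ≠ 0 := fun h => hi (by rw [h]; simp)
        exact hcliq i.1 hA' i.2 hω a a' haa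
      · rw [if_neg hA'] at hi
        exact absurd rfl hi
    · intro i j hi hj ρ ρ'
      dsimp only at hi hj ⊢
      by_cases hA' : i.1 ∈ A
      · rw [if_pos hA'] at hi
        have hω : pr p i.2 ≠ 0 := fun h => hi (by rw [h]; simp)
        by_cases hA'' : j.1 ∈ A
        · rw [if_pos hA''] at hj
          have hω' : pr p j.2 ≠ 0 := fun h => hj (by rw [h]; simp)
          have r1 := hreach1 i.1 hA' i.2 hω ρ
          have r2 := hreach1 j.1 hA'' j.2 hω' ρ'
          exact r1.trans ((hAconn i.1 hA' j.1 hA'').trans r2.symm)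
        · rw [if_neg hA''] at hj
          exact absurd rfl hj
      · rw [if_neg hA'] at hi
        exact absurd rfl hi
    · intro τ'
      dsimp only
      -- bound of the number of occurrences
      have hocc : ∀ τ ω, ((#((univ : Finset (Fin (χ + 1))).filter
          (fun a => TT D b act τ ω a = τ')) : ℕ) : ℝ) ≤
          (if τ = τ' then (χ + 1 - (#(JJ D b act τ ω) : ℝ)) else 0) +
            ∑ a ∈ act, if ω a = τ' then (1 : ℝ) else 0 := by
        intro τ ω
        have h1 : (univ : Finset (Fin (χ + 1))).filter (fun a => TT D b act τ ω a = τ') ⊆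
            (if τ = τ' then univ \ JJ D b act τ ω else ∅) ∪ act.filter (fun a => ω a = τ') := by
          intro a ha
          rw [mem_filter] at ha
          rw [mem_union]
          by_cases h : a ∈ JJ D b act τ ω
          · right
            have h2 := ha.2
            unfold TT at h2
            rw [if_pos h] at h2
            rw [mem_filter]
            unfold JJ at h
            rw [mem_filter] at h
            exact ⟨h.1, h2⟩
          · left
            have h2 := ha.2
            unfold TT at h2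
            rw [if_neg h] at h2
            rw [if_pos h2, mem_sdiff]
            exact ⟨mem_univ _, h⟩
        have h2 := (card_le_card h1).trans (card_union_le _ _)
        have h3 : ((#(if τ = τ' then univ \ JJ D b act τ ω else ∅) : ℕ) : ℝ) =
            (if τ = τ' then (χ + 1 - (#(JJ D b act τ ω) : ℝ)) else 0) := by
          split_ifs
          · have h5 := card_sdiff_add_card_eq_card (subset_univ (JJ D b act τ ω))
            rw [card_univ, Fintype.card_fin] at h5
            have h6 : ((#(univ \ JJ D b act τ ω) : ℕ) : ℝ) + (#(JJ D b act τ ω) : ℝ) = χ + 1 := by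
              exact_mod_cast h5
            linarith
          · simp
        have h4 : ((#(act.filter (fun a => ω a = τ')) : ℕ) : ℝ) =
            ∑ a ∈ act, if ω a = τ' then (1 : ℝ) else 0 := by
          rw [card_filter]; push_cast; rfl
        rw [← h3, ← h4]
        exact_mod_cast h2
      have hsum : ∀ τ, ∑ ω, pr p ω * ((if τ = τ' then (χ + 1 - (#(JJ D b act τ ω) : ℝ)) else 0) +
            ∑ a ∈ act, if ω a = τ' then (1 : ℝ) else 0) =
            (if τ = τ' then (χ + 1 - R τ) else 0) + ∑ a ∈ act, p a τ' := by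
        intro τ
        simp only [mul_add, sum_add_distrib]
        congr 1
        · by_cases h : τ = τ'
          · simp only [if_pos h]
            rw [← sum_congr rfl fun ω _ => (mul_sub (pr p ω) ((χ : ℝ) + 1)
              (#(JJ D b act τ ω) : ℝ)).symm, sum_sub_distrib, ← sum_mul, hpr1, one_mul]
          · simp only [if_neg h, mul_zero, sum_const_zero]
        · simp only [mul_sum]
          rw [sum_comm]
          refine sum_congr rfl fun a _ => ?_
          rw [pr_one p hp1 a (fun y => if y = τ' then (1 : ℝ) else 0)]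
          simp
      have hbound : ∑ i : 𝒯 × (Fin (χ + 1) → 𝒯),
          (if i.1 ∈ A then x i.1 * pr p i.2 / X else 0) *
          ((#((univ : Finset (Fin (χ + 1))).filter (fun a => TT D b act i.1 i.2 a = τ')) : ℕ) : ℝ)
          ≤ (if τ' ∈ A then D.w τ' / X else 0) + ∑ a ∈ act, p a τ' := by
        rw [Fintype.sum_prod_type]
        calc _ ≤ ∑ τ, ∑ ω, (if τ ∈ A then x τ * pr p ω / X else 0) *
              ((if τ = τ' then (χ + 1 - (#(JJ D b act τ ω) : ℝ)) else 0) +
                ∑ a ∈ act, if ω a = τ' then (1 : ℝ) else 0) := by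
              refine sum_le_sum fun τ _ => sum_le_sum fun ω _ => ?_
              apply mul_le_mul_of_nonneg_left (hocc τ ω)
              split_ifs
              · exact div_nonneg (mul_nonneg (hx0 _) (hpr0 _)) hXpos.le
              · exact le_rfl
          _ = ∑ τ, (if τ ∈ A then x τ / X * ((if τ = τ' then (χ + 1 - R τ) else 0) +
                ∑ a ∈ act, p a τ') else 0) := by
              refine sum_congr rfl fun τ _ => ?_
              by_cases h : τ ∈ A
              · simp only [if_pos h]
                rw [← hsum τ, mul_sum]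
                refine sum_congr rfl fun ω _ => ?_
                ring
              · simp only [if_neg h, zero_mul, sum_const_zero]
          _ = ∑ τ ∈ A, x τ / X * ((if τ = τ' then (χ + 1 - R τ) else 0) +
                ∑ a ∈ act, p a τ') := by
              rw [← sum_filter]
              congr 1
              ext; simp
          _ = ∑ τ ∈ A, (if τ = τ' then D.w τ / X else 0) +
                (∑ τ ∈ A, x τ / X) * ∑ a ∈ act, p a τ' := by
              rw [sum_mul, ← sum_add_distrib]
              refine sum_congr rfl fun τ _ => ?_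
              rw [mul_add]
              congr 1
              split_ifs
              · simp only [hx]
                have := (hqR τ).ne'
                field_simp
              · rw [mul_zero]
          _ = _ := by
              rw [← sum_div, div_self hXpos.ne', one_mul]
              congr 1
              rw [sum_ite_eq' A τ' (fun τ => D.w τ / X)]
      refine hbound.trans ?_
      have hXinv : D.w τ' / X ≤ (χ + 1) * D.w τ' := by
        rw [div_le_iff₀ hXpos]
        have h1 : 1 ≤ (χ + 1) * X := by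
          rw [div_lt_iff₀ hq] at hcon
          linarith
        have := mul_le_mul_of_nonneg_left h1 (hD.w_nonneg τ')
        linarith
      by_cases hc : D.col τ' = b
      · have h1 : ∑ a ∈ act, p a τ' = 0 := by
          refine sum_eq_zero fun a ha => ?_
          have : τ' ∉ B a := fun h => hBcol a ha τ' h hc
          simp only [hp, if_pos ha, TileSys.p, if_neg this]
        rw [h1, add_zero]
        split_ifs
        · exact hXinv
        · exact mul_nonneg hq.le (hD.w_nonneg _)
      · have h1 : τ' ∉ A := fun h => hc (hAcol τ' h)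
        rw [if_neg h1, zero_add]
        by_cases hτ : ∃ a ∈ act, τ' ∈ B a
        · obtain ⟨a0, ha0, hB0⟩ := hτ
          rw [sum_eq_single_of_mem a0 ha0]
          · simp only [hp, if_pos ha0, TileSys.p, if_pos hB0]
            rw [div_le_iff₀ (hWpos a0 ha0)]
            have h2 := hBW a0 ha0
            rw [div_le_iff₀ hq] at h2
            have := mul_le_mul_of_nonneg_left h2 (hD.w_nonneg τ')
            linarith
          · intro a ha haa
            have : τ' ∉ B a := fun h =>
              (Finset.disjoint_left.mp (hBdisj a ha a0 ha0 haa) h) hB0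
            simp only [hp, if_pos ha, TileSys.p, if_neg this]
        · push Not at hτ
          rw [sum_eq_zero]
          · exact mul_nonneg hq.le (hD.w_nonneg _)
          · intro a ha
            simp only [hp, if_pos ha, TileSys.p, if_neg (hτ a ha)]
  -- Cauchy-Schwarz
  have hCS : D.wt A ^ 2 ≤ X * ∑ τ ∈ A, D.w τ * (χ + 1 - R τ) := by
    unfold TileSys.wt
    apply sum_sq_le_sum_mul_sum_of_sq_le_mul
    · intro τ _; exact hx0 τ
    · intro τ _; exact mul_nonneg (hD.w_nonneg _) (hqR τ).le
    · intro τ _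
      simp only [hx]
      have := (hqR τ).ne'
      apply le_of_eq
      field_simp
  have hsumw : ∑ τ ∈ A, D.w τ * (χ + 1 - R τ) = (χ + 1) * D.wt A - ∑ τ ∈ A, D.w τ * R τ := by
    unfold TileSys.wt
    rw [mul_sum, ← sum_sub_distrib]
    refine sum_congr rfl fun τ _ => ?_
    ring
  have hpos2 : 0 ≤ ∑ τ ∈ A, D.w τ * (χ + 1 - R τ) :=
    sum_nonneg fun τ _ => mul_nonneg (hD.w_nonneg _) (hqR τ).le
  have h1 : D.wt A ^ 2 ≤ 1 / (χ + 1) * ((χ + 1) * D.wt A - ∑ τ ∈ A, D.w τ * R τ) := by
    rw [← hsumw]
    exact hCS.trans (mul_le_mul_of_nonneg_right hXlt hpos2)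
  have h2 : (χ + 1) * D.wt A ^ 2 + ∑ τ ∈ A, D.w τ * R τ ≤ (χ + 1) * D.wt A := by
    have := mul_le_mul_of_nonneg_left h1 hq.le
    rw [← mul_assoc, mul_one_div_cancel hq.ne', one_mul] at this
    linarith
  have h3 : ∑ τ ∈ A, D.w τ * ∑ j ∈ act,
      (∑ τ', D.p (B j) τ' * (if D.rel b τ τ' then 1 else 0) - (χ + 1) * (η * (χ + 1))) ≤
      ∑ τ ∈ A, D.w τ * R τ :=
    sum_le_sum fun τ _ => mul_le_mul_of_nonneg_left (hRge τ) (hD.w_nonneg τ)
  have h4 : (χ + 1) * D.wt A + (∑ τ ∈ A, D.w τ * R τ) / D.wt A ≤ χ + 1 := by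
    have h5 : ((χ + 1) * D.wt A + (∑ τ ∈ A, D.w τ * R τ) / D.wt A) * D.wt A ≤
        (χ + 1) * D.wt A := by
      rw [add_mul, div_mul_cancel₀ _ hA.ne']
      linarith
    exact le_of_mul_le_mul_right h5 hA
  have h6 := div_le_div_of_nonneg_right h3 hA.le
  linarith

end

end Pool.Agent.J6H67.BW
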