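import Mathlib

/-!
# Finite product probabilities
-/

set_option autoImplicit false

open Finset

namespace Pool.Agent.J6H67.BW

theorem exists_pos_le_average {Ω : Type*} [Fintype Ω] (P : Ω → ℝ) (hP0 : ∀ ω, 0 ≤ P ω)
    (hP1 : ∑ ω, P ω = 1) (f : Ω → ℝ) (c : ℝ) (h : ∑ ω, P ω * f ω ≤ c) :
    ∃ ω, 0 < P ω ∧ f ω ≤ c := by
  by_contra hcon
  push Not at hcon
  have h2 : ∑ ω, P ω * c = c := by rw [← sum_mul, hP1, one_mul]
  obtain ⟨ω0, hω0⟩ : ∃ ω, 0 < P ω := by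
    by_contra hno
    push Not at hno
    have : ∑ ω, P ω ≤ 0 := sum_nonpos fun ω _ => hno ω
    linarith
  have h3 : ∑ ω, P ω * c < ∑ ω, P ω * f ω := by
    apply sum_lt_sum
    · intro ω _
      rcases (hP0 ω).eq_or_lt with h0 | h0
      · rw [← h0, zero_mul, zero_mul]
      · exact (mul_lt_mul_of_pos_left (hcon ω h0) h0).le
    · exact ⟨ω0, mem_univ _, mul_lt_mul_of_pos_left (hcon ω0 hω0) hω0⟩
  linarith

section

variable {𝒯 : Type*} [Fintype 𝒯] [DecidableEq 𝒯] {q : ℕ}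

/-- the weight of a vector of independent choices -/
noncomputable def pr (p : Fin q → 𝒯 → ℝ) (ω : Fin q → 𝒯) : ℝ := ∏ j, p j (ω j)

theorem pr_nonneg (p : Fin q → 𝒯 → ℝ) (hp : ∀ j τ, 0 ≤ p j τ) (ω : Fin q → 𝒯) : 0 ≤ pr p ω :=
  prod_nonneg fun j _ => hp j (ω j)

theorem pr_prod (p f : Fin q → 𝒯 → ℝ) :
    ∑ ω : Fin q → 𝒯, pr p ω * ∏ j, f j (ω j) = ∏ j, ∑ τ, p j τ * f j τ := by
  rw [Fintype.prod_sum]
  refine sum_congr rfl fun ω _ => ?_
  unfold pr
  rw [← prod_mul_distrib]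

theorem pr_sum (p : Fin q → 𝒯 → ℝ) (hp1 : ∀ j, ∑ τ, p j τ = 1) : ∑ ω, pr p ω = 1 := by
  have := pr_prod p (fun _ _ => 1)
  simp only [prod_const_one, mul_one, hp1] at this
  exact this

theorem pr_one (p : Fin q → 𝒯 → ℝ) (hp1 : ∀ j, ∑ τ, p j τ = 1) (j : Fin q) (g : 𝒯 → ℝ) :
    ∑ ω, pr p ω * g (ω j) = ∑ τ, p j τ * g τ := by
  have := pr_prod p (fun i τ => if i = j then g τ else 1)
  have h1 : ∀ ω : Fin q → 𝒯, ∏ i, (if i = j then g (ω i) else 1) = g (ω j) := by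
    intro ω
    rw [prod_ite_eq' univ j (fun i => g (ω i))]
    simp
  simp only [h1] at this
  rw [this]
  rw [← mul_prod_erase univ _ (mem_univ j)]
  rw [prod_eq_one (s := univ.erase j)]
  · simp
  · intro i hi
    rw [mem_erase] at hi
    simp only [if_neg hi.1, mul_one]
    exact hp1 i

theorem pr_two (p : Fin q → 𝒯 → ℝ) (hp1 : ∀ j, ∑ τ, p j τ = 1) (i j : Fin q) (hij : i ≠ j)
    (G : 𝒯 → 𝒯 → ℝ) :
    ∑ ω, pr p ω * G (ω i) (ω j) = ∑ x, p i x * ∑ y, p j y * G x y := by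
  have h0 : ∀ ω : Fin q → 𝒯, pr p ω * G (ω i) (ω j) =
      ∑ x, pr p ω * ((if ω i = x then 1 else 0) * G x (ω j)) := by
    intro ω
    rw [← mul_sum]
    simp
  rw [sum_congr rfl fun ω _ => h0 ω, sum_comm]
  refine sum_congr rfl fun x _ => ?_
  have := pr_prod p (fun k τ => if k = i then (if τ = x then 1 else 0) else
    (if k = j then G x τ else 1))
  have h1 : ∀ ω : Fin q → 𝒯, ∏ k, (if k = i then (if ω k = x then (1 : ℝ) else 0) else
    (if k = j then G x (ω k) else 1)) = (if ω i = x then 1 else 0) * G x (ω j) := by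
    intro ω
    rw [← mul_prod_erase univ _ (mem_univ i), ← mul_prod_erase (univ.erase i) _
      (mem_erase.mpr ⟨hij.symm, mem_univ j⟩)]
    rw [prod_eq_one (s := (univ.erase i).erase j)]
    · simp [hij.symm]
    · intro k hk
      rw [mem_erase, mem_erase] at hk
      rw [if_neg hk.2.1, if_neg hk.1]
  simp only [h1] at this
  rw [this]
  rw [← mul_prod_erase univ _ (mem_univ i), ← mul_prod_erase (univ.erase i) _
      (mem_erase.mpr ⟨hij.symm, mem_univ j⟩)]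
  rw [prod_eq_one (s := (univ.erase i).erase j)]
  · simp [hij.symm]
  · intro k hk
    rw [mem_erase, mem_erase] at hk
    simp only [if_neg hk.2.1, if_neg hk.1, mul_one]
    exact hp1 k

end

end Pool.Agent.J6H67.BW
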