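import Pool.Agent.J6H67.BW.Hom
import Pool.Agent.J6H67.BW.Prob

/-!
# Tile systems and certificates

A tile is a monochromatic clique of clusters.  Two tiles are related in a colour or bad.
A certificate is a fractional tiling by cliques of one colour which are connected.
-/

set_option autoImplicit false

open Finset

namespace Pool.Agent.J6H67.BW

section

open Classical

/-- tiles with weights, colours, relations in both colours, and bad pairs -/
structure TileSys (𝒯 : Type) where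
  w : 𝒯 → ℝ
  col : 𝒯 → Bool
  rel : Bool → 𝒯 → 𝒯 → Prop
  bad : 𝒯 → 𝒯 → Prop

variable {𝒯 : Type} [Fintype 𝒯] {χ : ℕ}

/-- the axioms of a tile system -/
structure TileSys.Good (D : TileSys 𝒯) (η : ℝ) : Prop where
  w_nonneg : ∀ τ, 0 ≤ D.w τ
  rel_symm : ∀ b τ τ', D.rel b τ τ' → D.rel b τ' τ
  bad_symm : ∀ τ τ', D.bad τ τ' → D.bad τ' τ
  bad_refl : ∀ τ, D.bad τ τ
  total : ∀ b τ τ', ¬ D.bad τ τ' → ¬ D.rel (!b) τ τ' → D.rel b τ τ'
  bad_le : ∀ x, ∑ τ ∈ univ.filter (fun τ => D.bad x τ), D.w τ ≤ η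

/-- adjacency of the clusters -/
def Radj (D : TileSys 𝒯) (b : Bool) (χ : ℕ) (s s' : 𝒯 × Fin (χ + 1)) : Prop :=
  (s.1 = s'.1 ∧ D.col s.1 = b ∧ s.2 ≠ s'.2) ∨ (s.1 ≠ s'.1 ∧ D.rel b s.1 s'.1)

omit [Fintype 𝒯] in
theorem Radj_symm' (D : TileSys 𝒯) (hsym : ∀ b τ τ', D.rel b τ τ' → D.rel b τ' τ)
    (b : Bool) (s s' : 𝒯 × Fin (χ + 1)) (h : Radj D b χ s s') : Radj D b χ s' s := by
  rcases h with ⟨h1, h2, h3⟩ | ⟨h1, h2⟩
  · exact Or.inl ⟨h1.symm, by rw [← h1]; exact h2, h3.symm⟩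
  · exact Or.inr ⟨h1.symm, hsym _ _ _ h2⟩

/-- two tiles are connected in a colour -/
def conn (D : TileSys 𝒯) (b : Bool) (χ : ℕ) (τ τ' : 𝒯) : Prop :=
  (stG (Radj D b χ) χ).Reachable (fun c => (τ, c.castSucc)) (fun c => (τ', c.castSucc))

omit [Fintype 𝒯] in
theorem conn_of_rel (D : TileSys 𝒯) (hsym : ∀ b τ τ', D.rel b τ τ' → D.rel b τ' τ) (b : Bool)
    (τ τ' : 𝒯) (h1 : D.col τ = b) (h2 : D.col τ' = b) (h3 : τ ≠ τ') (h4 : D.rel b τ τ') :
    conn D b χ τ τ' := by
  apply reach_of_lt _ (Radj_symm' D hsym b)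
  · intro i j hij
    exact Or.inl ⟨rfl, h1, fun h => hij (Fin.castSucc_injective _ h)⟩
  · intro i j hij
    exact Or.inl ⟨rfl, h2, fun h => hij (Fin.castSucc_injective _ h)⟩
  · intro i j hij
    exact Or.inr ⟨h3, h4⟩

omit [Fintype 𝒯] in
theorem reach_tile_rot (D : TileSys 𝒯) (hsym : ∀ b τ τ', D.rel b τ τ' → D.rel b τ' τ)
    (b : Bool) (τ : 𝒯) (h1 : D.col τ = b) (ρ : Fin (χ + 1)) :
    (stG (Radj D b χ) χ).Reachable (fun c : Fin χ => (τ, c.castSucc))
      (fun c : Fin χ => (τ, c.castSucc + ρ)) :=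
  reach_rot (Radj D b χ) (Radj_symm' D hsym b) (fun a => (τ, a))
    (fun a a' haa => Or.inl ⟨rfl, h1, haa⟩) ρ

/-- a fractional tiling by connected cliques of the colour `b` -/
def Cert (D : TileSys 𝒯) (b : Bool) (χ : ℕ) : Prop :=
  ∃ (I : Type) (_ : Fintype I) (T : I → Fin (χ + 1) → 𝒯) (v : I → ℝ),
    (∀ i, 0 ≤ v i) ∧ (∑ i, v i = 1) ∧
    (∀ i, v i ≠ 0 → ∀ a a', a ≠ a' →
      (T i a = T i a' ∧ D.col (T i a) = b) ∨ (T i a ≠ T i a' ∧ D.rel b (T i a) (T i a'))) ∧
    (∀ i j, v i ≠ 0 → v j ≠ 0 → ∀ ρ ρ' : Fin (χ + 1), (stG (Radj D b χ) χ).Reachable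
      (fun c => (T i c.castSucc, c.castSucc + ρ)) (fun c => (T j c.castSucc, c.castSucc + ρ'))) ∧
    (∀ τ, ∑ i, v i * ((#((univ : Finset (Fin (χ + 1))).filter (fun a => T i a = τ)) : ℕ) : ℝ)
      ≤ (χ + 1) * D.w τ)

/-- total weight of a set of tiles -/
noncomputable def TileSys.wt (D : TileSys 𝒯) (A : Finset 𝒯) : ℝ := ∑ τ ∈ A, D.w τ

/-- the weights of the tiles of a set as a probability -/
noncomputable def TileSys.p (D : TileSys 𝒯) (C : Finset 𝒯) (τ : 𝒯) : ℝ :=
  if τ ∈ C then D.w τ / D.wt C else 0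

theorem TileSys.p_sum (D : TileSys 𝒯) (C : Finset 𝒯) (h : 0 < D.wt C) : ∑ τ, D.p C τ = 1 := by
  unfold TileSys.p
  rw [← sum_filter, ← sum_div]
  have : (univ : Finset 𝒯).filter (fun τ => τ ∈ C) = C := by ext; simp
  rw [this]
  exact div_self h.ne'

omit [Fintype 𝒯] in
theorem TileSys.p_nonneg (D : TileSys 𝒯) (hw : ∀ τ, 0 ≤ D.w τ) (C : Finset 𝒯) (τ : 𝒯) :
    0 ≤ D.p C τ := by
  unfold TileSys.p TileSys.wt
  split_ifs
  · exact div_nonneg (hw _) (sum_nonneg fun τ _ => hw τ)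
  · exact le_rfl

theorem TileSys.p_bad (D : TileSys 𝒯) {η : ℝ} (hD : D.Good η) (C : Finset 𝒯)
    (h : 0 < D.wt C) (x : 𝒯) :
    ∑ τ, D.p C τ * (if D.bad x τ then 1 else 0) ≤ η / D.wt C := by
  have h1 : ∀ τ, D.p C τ * (if D.bad x τ then 1 else 0) ≤
      (if D.bad x τ then D.w τ else 0) / D.wt C := by
    intro τ
    unfold TileSys.p
    split_ifs
    · simp
    · simp
    · rw [zero_mul]; exact div_nonneg (hD.w_nonneg _) h.le
    · simp
  refine (sum_le_sum fun τ _ => h1 τ).trans ?_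
  rw [← sum_div, ← sum_filter]
  exact div_le_div_of_nonneg_right (hD.bad_le x) h.le

/-- transversal certificates -/
theorem certB (D : TileSys 𝒯) {η : ℝ} (hD : D.Good η) (b : Bool)
    (C : Fin (χ + 1) → Finset 𝒯) (θ : ℝ) (hη : 0 ≤ η)
    (hW : ∀ j, θ / (χ + 1) ≤ D.wt (C j)) (hsmall : 1 + 3 * (χ + 1) ^ 3 * η ≤ θ)
    (hrel : ∀ i j, i ≠ j → ∀ τ ∈ C i, ∀ τ' ∈ C j, ¬ D.bad τ τ' → D.rel b τ τ')
    (hdisj : ∀ i j, i ≠ j → Disjoint (C i) (C j)) : Cert D b χ := by
  have hq : (0 : ℝ) < (χ : ℝ) + 1 := by positivity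
  have hθ : 1 ≤ θ := by
    have : 0 ≤ 3 * ((χ : ℝ) + 1) ^ 3 * η := by positivity
    linarith
  have hWpos : ∀ j, 0 < D.wt (C j) := fun j => lt_of_lt_of_le (by positivity) (hW j)
  set p : Fin (χ + 1) → 𝒯 → ℝ := fun j => D.p (C j) with hp
  have hp0 : ∀ j τ, 0 ≤ p j τ := fun j τ => D.p_nonneg hD.w_nonneg _ _
  have hp1 : ∀ j, ∑ τ, p j τ = 1 := fun j => D.p_sum _ (hWpos j)
  have hpr0 := pr_nonneg p hp0
  have hpr1 := pr_sum p hp1
  have hmem : ∀ ω, pr p ω ≠ 0 → ∀ j, ω j ∈ C j := by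
    intro ω h j
    by_contra hj
    apply h
    unfold pr
    apply prod_eq_zero (mem_univ j)
    simp only [hp, TileSys.p, if_neg hj]
  -- bounds for bad pairs
  have hηW : ∀ j, η / D.wt (C j) ≤ η * (χ + 1) / θ := by
    intro j
    rw [div_le_div_iff₀ (hWpos j) (by linarith)]
    have := hW j
    rw [div_le_iff₀ hq] at this
    nlinarith
  have hE1 : ∀ (x : 𝒯) (j : Fin (χ + 1)), ∑ ω, pr p ω * (if D.bad x (ω j) then 1 else 0) ≤
      η * (χ + 1) / θ := by
    intro x j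
    rw [pr_one p hp1 j (fun τ => if D.bad x τ then 1 else 0)]
    exact (D.p_bad hD (C j) (hWpos j) x).trans (hηW j)
  have hE2 : ∀ i j : Fin (χ + 1), i ≠ j →
      ∑ ω, pr p ω * (if D.bad (ω i) (ω j) then 1 else 0) ≤ η * (χ + 1) / θ := by
    intro i j hij
    rw [pr_two p hp1 i j hij (fun x y => if D.bad x y then 1 else 0)]
    calc ∑ x, p i x * ∑ y, p j y * (if D.bad x y then 1 else 0)
        ≤ ∑ x, p i x * (η * (χ + 1) / θ) := by
          refine sum_le_sum fun x _ => mul_le_mul_of_nonneg_left ?_ (hp0 i x)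
          exact (D.p_bad hD (C j) (hWpos j) x).trans (hηW j)
      _ = η * (χ + 1) / θ := by rw [← sum_mul, hp1, one_mul]
  set badN : (Fin (χ + 1) → 𝒯) → (Fin (χ + 1) → 𝒯) → ℝ := fun ω ω' =>
    ∑ i, ∑ j, if i ≠ j ∧ D.bad (ω i) (ω' j) then 1 else 0 with hbadN
  have hbadN0 : ∀ ω ω', 0 ≤ badN ω ω' := by
    intro ω ω'
    refine sum_nonneg fun i _ => sum_nonneg fun j _ => ?_
    split_ifs <;> norm_num
  have hbadN1 : ∀ ω ω', badN ω ω' < 1 → ∀ i j, i ≠ j → ¬ D.bad (ω i) (ω' j) := by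
    intro ω ω' h i j hij hbad
    have h1 : (1 : ℝ) ≤ badN ω ω' := by
      calc (1 : ℝ) = if i ≠ j ∧ D.bad (ω i) (ω' j) then 1 else 0 := by rw [if_pos ⟨hij, hbad⟩]
        _ ≤ ∑ j, if i ≠ j ∧ D.bad (ω i) (ω' j) then 1 else 0 :=
          single_le_sum (f := fun j => if i ≠ j ∧ D.bad (ω i) (ω' j) then (1 : ℝ) else 0)
            (fun j _ => by split_ifs <;> norm_num) (mem_univ j)
        _ ≤ _ := single_le_sum (f := fun i => ∑ j, if i ≠ j ∧ D.bad (ω i) (ω' j) then (1 : ℝ)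
            else 0) (fun i _ => sum_nonneg fun j _ => by split_ifs <;> norm_num) (mem_univ i)
    linarith
  have hcard : ((#(univ : Finset (Fin (χ + 1))) : ℕ) : ℝ) = χ + 1 := by simp
  have hB1 : ∀ ω, ∑ ω'', pr p ω'' * badN ω ω'' ≤ (χ + 1) ^ 3 * η / θ := by
    intro ω
    have e1 : ∑ ω'', pr p ω'' * badN ω ω'' =
        ∑ i, ∑ j, ∑ ω'', pr p ω'' * (if i ≠ j ∧ D.bad (ω i) (ω'' j) then 1 else 0) := by
      simp only [hbadN, mul_sum]
      rw [sum_comm]
      refine sum_congr rfl fun i _ => ?_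
      rw [sum_comm]
    rw [e1]
    calc _ ≤ ∑ _i : Fin (χ + 1), ∑ _j : Fin (χ + 1), η * (χ + 1) / θ := by
          refine sum_le_sum fun i _ => sum_le_sum fun j _ => ?_
          refine le_trans (sum_le_sum fun ω'' _ => ?_) (hE1 (ω i) j)
          refine mul_le_mul_of_nonneg_left ?_ (hpr0 ω'')
          by_cases h : D.bad (ω i) (ω'' j)
          · rw [if_pos h]; split_ifs <;> norm_num
          · rw [if_neg h, if_neg (fun h' => h h'.2)]
      _ = (χ + 1) ^ 3 * η / θ := by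
          rw [sum_const, sum_const, nsmul_eq_mul, nsmul_eq_mul, hcard]; ring
  have hB2 : ∑ ω'', pr p ω'' * badN ω'' ω'' ≤ (χ + 1) ^ 3 * η / θ := by
    have e1 : ∑ ω'', pr p ω'' * badN ω'' ω'' =
        ∑ i, ∑ j, ∑ ω'', pr p ω'' * (if i ≠ j ∧ D.bad (ω'' i) (ω'' j) then 1 else 0) := by
      simp only [hbadN, mul_sum]
      rw [sum_comm]
      refine sum_congr rfl fun i _ => ?_
      rw [sum_comm]
    rw [e1]
    calc _ ≤ ∑ _i : Fin (χ + 1), ∑ _j : Fin (χ + 1), η * (χ + 1) / θ := by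
          refine sum_le_sum fun i _ => sum_le_sum fun j _ => ?_
          by_cases hij : i = j
          · have : ∀ ω'' : Fin (χ + 1) → 𝒯,
                pr p ω'' * (if i ≠ j ∧ D.bad (ω'' i) (ω'' j) then (1 : ℝ) else 0) = 0 := by
              intro ω''
              rw [if_neg (fun h => h.1 hij), mul_zero]
            rw [sum_congr rfl fun ω'' _ => this ω'', sum_const_zero]
            positivity
          · refine le_trans (sum_le_sum fun ω'' _ => ?_) (hE2 i j hij)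
            refine mul_le_mul_of_nonneg_left ?_ (hpr0 ω'')
            by_cases h : D.bad (ω'' i) (ω'' j)
            · rw [if_pos h]; split_ifs <;> norm_num
            · rw [if_neg h, if_neg (fun h' => h h'.2)]
      _ = (χ + 1) ^ 3 * η / θ := by
          rw [sum_const, sum_const, nsmul_eq_mul, nsmul_eq_mul, hcard]; ring
  have hsm : (χ + 1) ^ 3 * η / θ * 3 < 1 := by
    rw [div_mul_eq_mul_div, div_lt_one (by linarith)]
    linarith
  -- good vectors
  set GG : (Fin (χ + 1) → 𝒯) → Prop := fun ω => ∀ i j, i ≠ j → ¬ D.bad (ω i) (ω j) with hGG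
  have hPG : 1 - (χ + 1) ^ 3 * η / θ ≤ ∑ ω, if GG ω then pr p ω else 0 := by
    have h1 : ∀ ω, pr p ω - pr p ω * badN ω ω ≤ if GG ω then pr p ω else 0 := by
      intro ω
      split_ifs with h
      · have := mul_nonneg (hpr0 ω) (hbadN0 ω ω)
        linarith
      · have : 1 ≤ badN ω ω := by
          by_contra hlt
          push Not at hlt
          exact h (hbadN1 ω ω hlt)
        have := mul_le_mul_of_nonneg_left this (hpr0 ω)
        linarith
    have h2 := sum_le_sum fun ω (_ : ω ∈ univ) => h1 ω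
    rw [sum_sub_distrib, hpr1] at h2
    linarith
  set PG : ℝ := ∑ ω, if GG ω then pr p ω else 0 with hPGdef
  have hPGpos : 0 < PG := by linarith
  refine ⟨Fin (χ + 1) → 𝒯, inferInstance, fun ω => ω, fun ω => (if GG ω then pr p ω else 0) / PG,
    ?_, ?_, ?_, ?_, ?_⟩
  · intro ω
    apply div_nonneg _ hPGpos.le
    split_ifs
    · exact hpr0 ω
    · exact le_rfl
  · rw [← sum_div]
    exact div_self hPGpos.ne'
  · intro ω hω a a' haa
    dsimp only at hω ⊢
    have hg : GG ω := by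
      by_contra h
      rw [if_neg h, zero_div] at hω
      exact hω rfl
    rw [if_pos hg] at hω
    have hp' : pr p ω ≠ 0 := fun h => hω (by rw [h, zero_div])
    have hnb := hg a a' haa
    right
    refine ⟨fun h => ?_, hrel a a' haa _ (hmem ω hp' a) _ (hmem ω hp' a') hnb⟩
    rw [h] at hnb
    exact hnb (hD.bad_refl _)
  · intro ω ω' hω hω' ρ ρ'
    dsimp only at hω hω' ⊢
    have hg : GG ω := by
      by_contra h
      rw [if_neg h, zero_div] at hω
      exact hω rfl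
    rw [if_pos hg] at hω
    have hp' : pr p ω ≠ 0 := fun h => hω (by rw [h, zero_div])
    have hg' : GG ω' := by
      by_contra h
      rw [if_neg h, zero_div] at hω'
      exact hω' rfl
    rw [if_pos hg'] at hω'
    have hp'' : pr p ω' ≠ 0 := fun h => hω' (by rw [h, zero_div])
    obtain ⟨ω2, hω2pos, hω2⟩ := exists_pos_le_average (pr p) hpr0 hpr1
      (fun ω'' => badN ω ω'' + badN ω' ω'' + badN ω'' ω'') ((χ + 1) ^ 3 * η / θ * 3) (by
        have e : ∀ ω'', pr p ω'' * (badN ω ω'' + badN ω' ω'' + badN ω'' ω'') =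
          pr p ω'' * badN ω ω'' + pr p ω'' * badN ω' ω'' + pr p ω'' * badN ω'' ω'' := by
          intro ω''; ring
        rw [sum_congr rfl fun ω'' _ => e ω'', sum_add_distrib, sum_add_distrib]
        have := hB1 ω
        have := hB1 ω'
        linarith)
    have n1 := hbadN0 ω ω2
    have n2 := hbadN0 ω' ω2
    have n3 := hbadN0 ω2 ω2
    have g1 := hbadN1 ω ω2 (by linarith)
    have g2 := hbadN1 ω' ω2 (by linarith)
    have g3 := hbadN1 ω2 ω2 (by linarith)
    have hstate : ∀ (ω : Fin (χ + 1) → 𝒯) (ρ : Fin (χ + 1)), (∀ j, ω j ∈ C j) →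
        (∀ i j, i ≠ j → ¬ D.bad (ω i) (ω j)) →
        IsSt (Radj D b χ) (fun c : Fin χ => (ω c.castSucc, c.castSucc + ρ)) := by
      intro ω ρ hm hg i j hij
      have hij' : i.castSucc ≠ j.castSucc := fun h => hij (Fin.castSucc_injective _ h)
      have hnb := hg _ _ hij'
      right
      refine ⟨fun h => ?_, hrel _ _ hij' _ (hm _) _ (hm _) hnb⟩
      dsimp only at h
      rw [h] at hnb
      exact hnb (hD.bad_refl _)
    have hcross : ∀ (ω ω' : Fin (χ + 1) → 𝒯) (ρ ρ' : Fin (χ + 1)), (∀ j, ω j ∈ C j) →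
        (∀ j, ω' j ∈ C j) → (∀ i j, i ≠ j → ¬ D.bad (ω i) (ω j)) →
        (∀ i j, i ≠ j → ¬ D.bad (ω' i) (ω' j)) → (∀ i j, i ≠ j → ¬ D.bad (ω i) (ω' j)) →
        (stG (Radj D b χ) χ).Reachable (fun c : Fin χ => (ω c.castSucc, c.castSucc + ρ))
          (fun c : Fin χ => (ω' c.castSucc, c.castSucc + ρ')) := by
      intro ω ω' ρ ρ' hm hm' hg hg' hgg
      apply reach_of_lt _ (Radj_symm' D hD.rel_symm b) _ _ (hstate ω ρ hm hg)
        (hstate ω' ρ' hm' hg')
      intro c c' hcc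
      have hij' : c.castSucc ≠ c'.castSucc := fun h => hcc.ne (Fin.castSucc_injective _ h)
      have hnb := hgg _ _ hij'
      right
      refine ⟨fun h => ?_, hrel _ _ hij' _ (hm _) _ (hm' _) hnb⟩
      dsimp only at h
      rw [h] at hnb
      exact hnb (hD.bad_refl _)
    have hm2 := hmem ω2 hω2pos.ne'
    have r1 := hcross ω ω2 ρ 0 (hmem ω hp') hm2 hg g3 g1
    have r2 := hcross ω' ω2 ρ' 0 (hmem ω' hp'') hm2 hg' g3 g2
    exact r1.trans r2.symm
  · intro τ
    -- usage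
    have hle : ∀ ω, (if GG ω then pr p ω else 0) / PG *
        ((#((univ : Finset (Fin (χ + 1))).filter (fun a => ω a = τ)) : ℕ) : ℝ) ≤
        ∑ a, pr p ω * (if ω a = τ then 1 else 0) / PG := by
      intro ω
      rw [← sum_div, ← mul_sum]
      have : ((#((univ : Finset (Fin (χ + 1))).filter (fun a => ω a = τ)) : ℕ) : ℝ) =
          ∑ a, if ω a = τ then 1 else 0 := by
        rw [card_filter]; push_cast; rfl
      rw [this, div_mul_eq_mul_div]
      apply div_le_div_of_nonneg_right _ hPGpos.le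
      apply mul_le_mul_of_nonneg_right
      · split_ifs
        · exact le_rfl
        · exact hpr0 ω
      · exact sum_nonneg fun a _ => by split_ifs <;> norm_num
    refine (sum_le_sum fun ω _ => hle ω).trans ?_
    rw [sum_comm]
    have h1 : ∀ a : Fin (χ + 1), ∑ ω, pr p ω * (if ω a = τ then 1 else 0) / PG = p a τ / PG := by
      intro a
      rw [← sum_div, pr_one p hp1 a (fun x => if x = τ then 1 else 0)]
      simp
    rw [sum_congr rfl fun a _ => h1 a]
    by_cases hτ : ∃ a, τ ∈ C a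
    · obtain ⟨a0, ha0⟩ := hτ
      rw [sum_eq_single a0]
      · simp only [hp, TileSys.p, if_pos ha0]
        rw [div_div, div_le_iff₀ (mul_pos (hWpos a0) hPGpos)]
        have h2 : 1 ≤ (χ + 1) * (D.wt (C a0) * PG) := by
          have h3 := hW a0
          rw [div_le_iff₀ hq] at h3
          have h4 : θ * (1 - (χ + 1) ^ 3 * η / θ) = θ - (χ + 1) ^ 3 * η := by
            have : θ ≠ 0 := by linarith
            field_simp
          have h6 : 0 ≤ 1 - (χ + 1) ^ 3 * η / θ := by linarith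
          have h7 : 0 ≤ ((χ : ℝ) + 1) ^ 3 * η := by positivity
          calc (1 : ℝ) ≤ θ - (χ + 1) ^ 3 * η := by linarith
            _ = θ * (1 - (χ + 1) ^ 3 * η / θ) := h4.symm
            _ ≤ (D.wt (C a0) * (χ + 1)) * PG := by
                apply mul_le_mul h3 hPG h6
                exact mul_nonneg (hWpos a0).le hq.le
            _ = _ := by ring
        have h8 := mul_le_mul_of_nonneg_left h2 (hD.w_nonneg τ)
        linarith
      · intro a _ ha
        have : τ ∉ C a := fun h => (Finset.disjoint_left.mp (hdisj a a0 ha) h) ha0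
        simp only [hp, TileSys.p, if_neg this, zero_div]
      · intro h; exact absurd (mem_univ _) h
    · push Not at hτ
      rw [sum_eq_zero]
      · exact mul_nonneg hq.le (hD.w_nonneg _)
      · intro a _
        simp only [hp, TileSys.p, if_neg (hτ a), zero_div]

end

end Pool.Agent.J6H67.BW
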