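import Pool.Agent.J6H67.BW.CertA

/-!
# The core: every heavy tile system has a certificate
-/

set_option autoImplicit false

open Finset

namespace Pool.Agent.J6H67.BW

/-- light items can be grouped in classes which are not light -/
theorem merge_small {α : Type*} [DecidableEq α] (W : α → ℝ) (t : ℝ) (ht : 0 < t) (k : ℕ) :
    ∀ G : Finset α, (∀ g ∈ G, 0 ≤ W g ∧ W g < t) → 2 * t * k ≤ ∑ g ∈ G, W g →
      ∃ F : Fin k → Finset α, (∀ j, F j ⊆ G) ∧ (∀ i j, i ≠ j → Disjoint (F i) (F j)) ∧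
        ∀ j, t ≤ ∑ g ∈ F j, W g := by
  induction k with
  | zero =>
    intro G _ _
    exact ⟨fun j => j.elim0, fun j => j.elim0, fun j => j.elim0, fun j => j.elim0⟩
  | succ k ih =>
    intro G hG hsum
    -- a minimal subset which is not light
    have hne : (G.powerset.filter (fun F => t ≤ ∑ g ∈ F, W g)).Nonempty := by
      refine ⟨G, ?_⟩
      rw [mem_filter]
      refine ⟨mem_powerset.mpr (Subset.refl _), ?_⟩
      have : 2 * t * ((k + 1 : ℕ) : ℝ) = 2 * t * k + 2 * t := by push_cast; ring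
      have h2 : 0 ≤ 2 * t * (k : ℝ) := by positivity
      linarith
    obtain ⟨F0, hF0, hmin⟩ := exists_min_image _ (fun F : Finset α => #F) hne
    rw [mem_filter, mem_powerset] at hF0
    have hF0ne : F0.Nonempty := by
      by_contra h
      rw [not_nonempty_iff_eq_empty] at h
      rw [h] at hF0
      have h2 := hF0.2
      simp only [sum_empty] at h2
      linarith
    obtain ⟨g0, hg0⟩ := hF0ne
    have hF0lt : ∑ g ∈ F0, W g < 2 * t := by
      have h1 : ∑ g ∈ F0.erase g0, W g < t := by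
        by_contra hcon
        push Not at hcon
        have h2 := hmin (F0.erase g0) (by
          rw [mem_filter, mem_powerset]
          exact ⟨(erase_subset _ _).trans hF0.1, hcon⟩)
        rw [card_erase_of_mem hg0] at h2
        have := card_pos.mpr ⟨g0, hg0⟩
        omega
      have h3 := add_sum_erase F0 W hg0
      have h4 := (hG g0 (hF0.1 hg0)).2
      linarith
    obtain ⟨F, hF1, hF2, hF3⟩ := ih (G \ F0) (fun g hg => hG g (mem_sdiff.mp hg).1) (by
      have h1 := sum_sdiff (f := W) hF0.1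
      have : 2 * t * ((k + 1 : ℕ) : ℝ) = 2 * t * k + 2 * t := by push_cast; ring
      linarith)
    refine ⟨Fin.cons F0 F, ?_, ?_, ?_⟩
    · intro j
      refine Fin.cases ?_ ?_ j
      · simpa using hF0.1
      · intro i
        simpa using (hF1 i).trans sdiff_subset
    · intro i j
      refine Fin.cases ?_ ?_ i
      · refine Fin.cases ?_ ?_ j
        · intro h; exact absurd rfl h
        · intro j _
          simp only [Fin.cons_zero, Fin.cons_succ]
          exact (Finset.disjoint_of_subset_left (hF1 j) sdiff_disjoint).symm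
      · intro i
        refine Fin.cases ?_ ?_ j
        · intro _
          simp only [Fin.cons_zero, Fin.cons_succ]
          exact Finset.disjoint_of_subset_left (hF1 i) sdiff_disjoint
        · intro j hij
          simp only [Fin.cons_succ]
          exact hF2 i j (fun h => hij (by rw [h]))
    · intro j
      refine Fin.cases ?_ ?_ j
      · simpa using hF0.2
      · intro i
        simpa using hF3 i

section

open Classical

variable {𝒯 : Type} [Fintype 𝒯] {χ : ℕ}

/-- the component of a tile -/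
noncomputable def grp (D : TileSys 𝒯) (b : Bool) (χ : ℕ) (τ : 𝒯) : Finset 𝒯 :=
  univ.filter (fun τ' => D.col τ' = b ∧ conn D b χ τ τ')

/-- the components -/
noncomputable def grps (D : TileSys 𝒯) (b : Bool) (χ : ℕ) : Finset (Finset 𝒯) :=
  (univ.filter (fun τ => D.col τ = b)).image (grp D b χ)

theorem grps_col (D : TileSys 𝒯) (b : Bool) {g : Finset 𝒯} (hg : g ∈ grps D b χ) {τ : 𝒯}
    (hτ : τ ∈ g) : D.col τ = b := by
  unfold grps at hg
  rw [mem_image] at hg
  obtain ⟨τ0, _, rfl⟩ := hg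
  unfold grp at hτ
  rw [mem_filter] at hτ
  exact hτ.2.1

theorem grps_conn (D : TileSys 𝒯) (b : Bool) {g : Finset 𝒯} (hg : g ∈ grps D b χ) {τ τ' : 𝒯}
    (hτ : τ ∈ g) (hτ' : τ' ∈ g) : conn D b χ τ τ' := by
  unfold grps at hg
  rw [mem_image] at hg
  obtain ⟨τ0, _, rfl⟩ := hg
  unfold grp at hτ hτ'
  rw [mem_filter] at hτ hτ'
  exact (hτ.2.2).symm.trans hτ'.2.2

theorem grps_eq (D : TileSys 𝒯) (b : Bool) {g : Finset 𝒯} (hg : g ∈ grps D b χ) {τ : 𝒯}
    (hτ : τ ∈ g) : g = grp D b χ τ := by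
  unfold grps at hg
  rw [mem_image] at hg
  obtain ⟨τ0, _, rfl⟩ := hg
  unfold grp at hτ ⊢
  rw [mem_filter] at hτ
  ext x
  simp only [mem_filter, mem_univ, true_and]
  constructor
  · rintro ⟨h1, h2⟩
    exact ⟨h1, hτ.2.2.symm.trans h2⟩
  · rintro ⟨h1, h2⟩
    exact ⟨h1, hτ.2.2.trans h2⟩

theorem grps_not_conn (D : TileSys 𝒯) (b : Bool) {g g' : Finset 𝒯} (hg : g ∈ grps D b χ)
    (hg' : g' ∈ grps D b χ) (hne : g ≠ g') {τ τ' : 𝒯} (hτ : τ ∈ g) (hτ' : τ' ∈ g') :
    ¬ conn D b χ τ τ' := by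
  intro h
  apply hne
  have h1 := grps_eq D b hg hτ
  have hτ'2 : τ' ∈ g := by
    rw [h1]
    unfold grp
    rw [mem_filter]
    exact ⟨mem_univ _, grps_col D b hg' hτ', h⟩
  rw [grps_eq D b hg hτ'2, grps_eq D b hg' hτ']

theorem grps_disj (D : TileSys 𝒯) (b : Bool) {g g' : Finset 𝒯} (hg : g ∈ grps D b χ)
    (hg' : g' ∈ grps D b χ) (hne : g ≠ g') : Disjoint g g' := by
  rw [Finset.disjoint_left]
  intro τ h1 h2
  exact hne ((grps_eq D b hg h1).trans (grps_eq D b hg' h2).symm)

theorem grps_rel (D : TileSys 𝒯) {η : ℝ} (hD : D.Good η) (b : Bool) {g g' : Finset 𝒯}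
    (hg : g ∈ grps D (!b) χ) (hg' : g' ∈ grps D (!b) χ) (hne : g ≠ g') {τ τ' : 𝒯} (hτ : τ ∈ g)
    (hτ' : τ' ∈ g') (hbad : ¬ D.bad τ τ') : D.rel b τ τ' := by
  apply hD.total b τ τ' hbad
  intro hrel
  apply grps_not_conn D (!b) hg hg' hne hτ hτ'
  apply conn_of_rel D hD.rel_symm (!b) τ τ' (grps_col D _ hg hτ) (grps_col D _ hg' hτ') _ hrel
  intro h
  rw [h] at hbad
  exact hbad (hD.bad_refl _)

theorem grps_sum (D : TileSys 𝒯) (b : Bool) :
    ∑ τ ∈ univ.filter (fun τ => D.col τ = b), D.w τ = ∑ g ∈ grps D b χ, D.wt g := by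
  rw [← sum_fiberwise_of_maps_to (s := univ.filter (fun τ => D.col τ = b)) (t := grps D b χ)
    (g := grp D b χ) (fun τ hτ => mem_image_of_mem _ hτ)]
  refine sum_congr rfl fun g hg => ?_
  unfold TileSys.wt
  apply sum_congr _ (fun _ _ => rfl)
  ext τ
  simp only [mem_filter, mem_univ, true_and]
  constructor
  · rintro ⟨h1, h2⟩
    rw [← h2]
    unfold grp
    rw [mem_filter]
    exact ⟨mem_univ _, h1, SimpleGraph.Reachable.refl _⟩
  · intro h
    exact ⟨grps_col D b hg h, (grps_eq D b hg h).symm⟩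

/-- many groups of one colour give a certificate of the other colour -/
theorem cert_of_families (D : TileSys 𝒯) {η : ℝ} (hD : D.Good η) (hη : 0 ≤ η) (b : Bool)
    (θ : ℝ) (hsmall : 1 + 3 * (χ + 1) ^ 3 * η ≤ θ)
    (F : Fin (χ + 1) → Finset (Finset 𝒯)) (hF : ∀ j, F j ⊆ grps D (!b) χ)
    (hFd : ∀ i j, i ≠ j → Disjoint (F i) (F j))
    (hFW : ∀ j, θ / (χ + 1) ≤ ∑ g ∈ F j, D.wt g) : Cert D b χ := by
  apply certB D hD b (fun j => (F j).biUnion id) θ hη _ hsmall
  · intro i j hij τ hτ τ' hτ' hbad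
    rw [mem_biUnion] at hτ hτ'
    obtain ⟨g, hg, hτ⟩ := hτ
    obtain ⟨g', hg', hτ'⟩ := hτ'
    have hne : g ≠ g' := by
      intro h
      rw [h] at hg
      exact (Finset.disjoint_left.mp (hFd i j hij) hg) hg'
    exact grps_rel D hD b (hF i hg) (hF j hg') hne hτ hτ' hbad
  · intro i j hij
    rw [Finset.disjoint_left]
    intro τ hτ hτ'
    rw [mem_biUnion] at hτ hτ'
    obtain ⟨g, hg, hτ⟩ := hτ
    obtain ⟨g', hg', hτ'⟩ := hτ'
    have hne : g ≠ g' := by
      intro h
      rw [h] at hg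
      exact (Finset.disjoint_left.mp (hFd i j hij) hg) hg'
    exact (Finset.disjoint_left.mp (grps_disj D _ (hF i hg) (hF j hg') hne) hτ) hτ'
  · intro j
    refine (hFW j).trans (le_of_eq ?_)
    unfold TileSys.wt
    rw [sum_biUnion]
    · rfl
    · intro g hg g' hg' hne
      exact grps_disj D _ (hF j hg) (hF j hg') hne

/-- density of a relation between two sets of tiles -/
noncomputable def rho (D : TileSys 𝒯) (b : Bool) (A B : Finset 𝒯) : ℝ :=
  ∑ τ, ∑ τ', D.p A τ * D.p B τ' * (if D.rel b τ τ' then 1 else 0)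

theorem rho_add (D : TileSys 𝒯) {η : ℝ} (hD : D.Good η) (hη : 0 ≤ η) (A B : Finset 𝒯)
    (hA : 0 < D.wt A) (hB : 1 / ((χ : ℝ) + 1) ≤ D.wt B) :
    1 - η * (χ + 1) ≤ rho D true A B + rho D false B A := by
  have hq : (0 : ℝ) < (χ : ℝ) + 1 := by positivity
  have hBpos : 0 < D.wt B := lt_of_lt_of_le (by positivity) hB
  have hpA := D.p_sum A hA
  have hpB := D.p_sum B hBpos
  have h1 : rho D false B A = ∑ τ, ∑ τ', D.p A τ * D.p B τ' *
      (if D.rel false τ τ' then 1 else 0) := by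
    unfold rho
    rw [sum_comm]
    refine sum_congr rfl fun τ _ => sum_congr rfl fun τ' _ => ?_
    have : D.rel false τ' τ ↔ D.rel false τ τ' := ⟨hD.rel_symm _ _ _, hD.rel_symm _ _ _⟩
    simp only [this]
    ring
  have h2 : ∑ τ, ∑ τ', D.p A τ * D.p B τ' * (if D.bad τ τ' then 1 else 0) ≤ η * (χ + 1) := by
    calc ∑ τ, ∑ τ', D.p A τ * D.p B τ' * (if D.bad τ τ' then 1 else 0)
        = ∑ τ, D.p A τ * ∑ τ', D.p B τ' * (if D.bad τ τ' then 1 else 0) := by
          refine sum_congr rfl fun τ _ => ?_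
          rw [mul_sum]
          refine sum_congr rfl fun τ' _ => ?_
          ring
      _ ≤ ∑ τ, D.p A τ * (η * (χ + 1)) := by
          refine sum_le_sum fun τ _ => mul_le_mul_of_nonneg_left ?_ (D.p_nonneg hD.w_nonneg _ _)
          refine (D.p_bad hD B hBpos τ).trans ?_
          rw [div_le_iff₀ hBpos]
          rw [div_le_iff₀ hq] at hB
          nlinarith
      _ = η * (χ + 1) := by rw [← sum_mul, hpA, one_mul]
  have h3 : (1 : ℝ) ≤ rho D true A B + rho D false B A +
      ∑ τ, ∑ τ', D.p A τ * D.p B τ' * (if D.bad τ τ' then 1 else 0) := by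
    rw [h1]
    unfold rho
    rw [← sum_add_distrib, ← sum_add_distrib]
    calc (1 : ℝ) = ∑ τ, ∑ τ', D.p A τ * D.p B τ' := by
          rw [sum_congr rfl fun τ _ => (mul_sum _ _ _).symm]
          rw [← sum_mul, hpA, hpB, one_mul]
      _ ≤ _ := by
          refine sum_le_sum fun τ _ => ?_
          rw [← sum_add_distrib, ← sum_add_distrib]
          refine sum_le_sum fun τ' _ => ?_
          have hnn : 0 ≤ D.p A τ * D.p B τ' :=
            mul_nonneg (D.p_nonneg hD.w_nonneg _ _) (D.p_nonneg hD.w_nonneg _ _)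
          by_cases hb : D.bad τ τ'
          · rw [if_pos hb]
            have e1 : 0 ≤ D.p A τ * D.p B τ' * (if D.rel true τ τ' then 1 else 0) :=
              mul_nonneg hnn (by split_ifs <;> norm_num)
            have e2 : 0 ≤ D.p A τ * D.p B τ' * (if D.rel false τ τ' then 1 else 0) :=
              mul_nonneg hnn (by split_ifs <;> norm_num)
            linarith
          · by_cases hr : D.rel false τ τ'
            · rw [if_pos hr, if_neg hb]
              have e1 : 0 ≤ D.p A τ * D.p B τ' * (if D.rel true τ τ' then 1 else 0) :=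
                mul_nonneg hnn (by split_ifs <;> norm_num)
              linarith
            · have hr' : D.rel true τ τ' := hD.total true τ τ' hb (by simpa using hr)
              rw [if_pos hr', if_neg hb, if_neg hr]
              linarith
  linarith

/-- the main inequality for one large component -/
theorem main_ineq (D : TileSys 𝒯) {η : ℝ} (hD : D.Good η) (hη : 0 ≤ η) (b : Bool)
    (𝒢 : Finset (Finset 𝒯)) (h𝒢 : 𝒢 ⊆ grps D (!b) χ)
    (hcard : #𝒢 ≤ χ) (hW : ∀ g ∈ 𝒢, 1 / ((χ : ℝ) + 1) ≤ D.wt g)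
    (A : Finset 𝒯) (hA : A ∈ grps D b χ) (hAW : 0 < D.wt A) (hno : ¬ Cert D b χ) :
    (χ + 1) * D.wt A + ∑ g ∈ 𝒢, (rho D b A g - (χ + 1) * (η * (χ + 1))) ≤ χ + 1 := by
  set m := #𝒢 with hm
  set e : {x // x ∈ 𝒢} ≃ Fin m := 𝒢.equivFin with he
  have hmχ : m ≤ χ + 1 := by omega
  set B : Fin (χ + 1) → Finset 𝒯 := fun j => if h : (j : ℕ) < m then (e.symm ⟨j, h⟩ : Finset 𝒯)
    else ∅ with hB
  set act : Finset (Fin (χ + 1)) := (univ : Finset (Fin m)).map (Fin.castLEEmb hmχ) with hact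
  have hactmem : ∀ j, j ∈ act ↔ (j : ℕ) < m := by
    intro j
    rw [hact, mem_map]
    constructor
    · rintro ⟨i, _, rfl⟩
      exact i.2
    · intro h
      exact ⟨⟨j, h⟩, mem_univ _, Fin.ext rfl⟩
  have hBmem : ∀ j ∈ act, B j ∈ 𝒢 := by
    intro j hj
    rw [hactmem] at hj
    simp only [hB, dif_pos hj]
    exact (e.symm ⟨j, hj⟩).2
  have hBinj : ∀ i ∈ act, ∀ j ∈ act, i ≠ j → B i ≠ B j := by
    intro i hi j hj hij h
    rw [hactmem] at hi hj
    simp only [hB, dif_pos hi, dif_pos hj] at h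
    have h2 := e.symm.injective (Subtype.ext h)
    exact hij (Fin.ext (by simpa using h2))
  have key := certA D hD hη b A (fun τ hτ => grps_col D b hA hτ)
    (fun τ hτ τ' hτ' => grps_conn D b hA hτ hτ') act (by
      rw [hact, card_map, card_univ, Fintype.card_fin]; exact hcard) B (by
      intro j hj τ hτ
      have := grps_col D (!b) (h𝒢 (hBmem j hj)) hτ
      rw [this]
      cases b <;> simp) (by
      intro j hj
      exact hW _ (hBmem j hj)) (by
      intro i hi j hj hij τ hτ τ' hτ' hbad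
      exact grps_rel D hD b (h𝒢 (hBmem i hi)) (h𝒢 (hBmem j hj)) (hBinj i hi j hj hij) hτ hτ' hbad)
    (by
      intro i hi j hj hij
      exact grps_disj D (!b) (h𝒢 (hBmem i hi)) (h𝒢 (hBmem j hj)) (hBinj i hi j hj hij)) hAW hno
  have hsum : ∀ f : Finset 𝒯 → ℝ, ∑ j ∈ act, f (B j) = ∑ g ∈ 𝒢, f g := by
    intro f
    rw [hact, sum_map]
    have h1 : ∀ i : Fin m, f (B (Fin.castLEEmb hmχ i)) = f (e.symm i : Finset 𝒯) := by
      intro i
      have : ((Fin.castLEEmb hmχ i : Fin (χ + 1)) : ℕ) < m := i.2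
      simp only [hB, dif_pos this]
      rfl
    rw [sum_congr rfl fun i _ => h1 i]
    rw [Equiv.sum_comp e.symm (fun x : {x // x ∈ 𝒢} => f (x : Finset 𝒯))]
    exact sum_coe_sort 𝒢 f
  have hconv : (∑ τ ∈ A, D.w τ * ∑ j ∈ act,
      (∑ τ', D.p (B j) τ' * (if D.rel b τ τ' then 1 else 0) - (χ + 1) * (η * (χ + 1)))) / D.wt A
      = ∑ g ∈ 𝒢, (rho D b A g - (χ + 1) * (η * (χ + 1))) := by
    rw [← hsum]
    have h1 : ∀ j, rho D b A (B j) = (∑ τ ∈ A, D.w τ * ∑ τ', D.p (B j) τ' *
        (if D.rel b τ τ' then 1 else 0)) / D.wt A := by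
      intro j
      unfold rho
      rw [sum_div]
      have h2 : ∀ τ, ∑ τ', D.p A τ * D.p (B j) τ' * (if D.rel b τ τ' then (1 : ℝ) else 0) =
          if τ ∈ A then D.w τ * (∑ τ', D.p (B j) τ' * (if D.rel b τ τ' then 1 else 0)) / D.wt A
          else 0 := by
        intro τ
        split_ifs with h
        · rw [mul_sum, sum_div]
          refine sum_congr rfl fun τ' _ => ?_
          simp only [TileSys.p, if_pos h]
          ring
        · simp only [TileSys.p, if_neg h, zero_mul, sum_const_zero]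
      rw [sum_congr rfl fun τ _ => h2 τ, ← sum_filter]
      apply sum_congr _ (fun _ _ => rfl)
      ext; simp
    have h3 : ∀ j, rho D b A (B j) - (χ + 1) * (η * (χ + 1)) =
        (∑ τ ∈ A, D.w τ * (∑ τ', D.p (B j) τ' * (if D.rel b τ τ' then 1 else 0)
          - (χ + 1) * (η * (χ + 1)))) / D.wt A := by
      intro j
      rw [h1 j]
      have : ∑ τ ∈ A, D.w τ * (∑ τ', D.p (B j) τ' * (if D.rel b τ τ' then 1 else 0)
          - (χ + 1) * (η * (χ + 1))) = ∑ τ ∈ A, D.w τ * ∑ τ', D.p (B j) τ' *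
          (if D.rel b τ τ' then 1 else 0) - D.wt A * ((χ + 1) * (η * (χ + 1))) := by
        unfold TileSys.wt
        rw [sum_mul, ← sum_sub_distrib]
        refine sum_congr rfl fun τ _ => ?_
        ring
      rw [this, sub_div, mul_div_cancel_left₀ _ hAW.ne']
    rw [sum_congr rfl fun j _ => h3 j, ← sum_div]
    congr 1
    rw [sum_comm]
    refine sum_congr rfl fun τ _ => ?_
    rw [mul_sum]
  rw [hconv] at key
  exact key

/-- **Core theorem**: every heavy tile system has a certificate. -/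
theorem core (D : TileSys 𝒯) {η : ℝ} (hD : D.Good η) (hη : 0 ≤ η)
    (hη' : 30 * ((χ : ℝ) + 1) ^ 3 * η ≤ 1)
    (htot : (χ : ℝ) + 1 + 4 + 1 / 2 ≤ ∑ τ, D.w τ) : ∃ b, Cert D b χ := by
  by_contra hcon
  push Not at hcon
  have hq : (0 : ℝ) < (χ : ℝ) + 1 := by positivity
  set θ : ℝ := 1 + 3 * (χ + 1) ^ 3 * η with hθ
  have hθ1 : 1 ≤ θ := by
    have : 0 ≤ 3 * ((χ : ℝ) + 1) ^ 3 * η := by positivity
    linarith
  set Big : Bool → Finset (Finset 𝒯) := fun b =>
    (grps D b χ).filter (fun g => θ / (χ + 1) ≤ D.wt g) with hBig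
  set Sm : Bool → Finset (Finset 𝒯) := fun b =>
    (grps D b χ).filter (fun g => ¬ θ / (χ + 1) ≤ D.wt g) with hSm
  have hwt0 : ∀ g : Finset 𝒯, 0 ≤ D.wt g := fun g => sum_nonneg fun τ _ => hD.w_nonneg τ
  -- light components
  have hSmle : ∀ b, ∑ g ∈ Sm (!b), D.wt g ≤ 2 * θ := by
    intro b
    by_contra hgt
    push Not at hgt
    obtain ⟨F, hF1, hF2, hF3⟩ := merge_small D.wt (θ / (χ + 1)) (by positivity) (χ + 1)
      (Sm (!b)) (by
        intro g hg
        simp only [hSm, mem_filter, not_le] at hg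
        exact ⟨hwt0 g, hg.2⟩) (by
        have : 2 * (θ / (χ + 1)) * ((χ + 1 : ℕ) : ℝ) = 2 * θ := by
          push_cast; field_simp
        linarith)
    exact hcon b (cert_of_families D hD hη b θ le_rfl F
      (fun j => (hF1 j).trans (filter_subset _ _)) hF2 hF3)
  -- heavy components
  have hBigcard : ∀ b, #(Big (!b)) ≤ χ := by
    intro b
    by_contra hgt
    push Not at hgt
    obtain ⟨G, hG1, hG2⟩ := exists_subset_card_eq (s := Big (!b)) (n := χ + 1) (by omega)
    set e : {x // x ∈ G} ≃ Fin (χ + 1) := G.equivFinOfCardEq hG2 with he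
    refine hcon b (cert_of_families D hD hη b θ le_rfl (fun j => {(e.symm j : Finset 𝒯)}) ?_ ?_ ?_)
    · intro j
      rw [singleton_subset_iff]
      exact (filter_subset _ _) (hG1 (e.symm j).2)
    · intro i j hij
      rw [disjoint_singleton]
      intro h
      exact hij (e.symm.injective (Subtype.ext h))
    · intro j
      rw [sum_singleton]
      have := hG1 (e.symm j).2
      simp only [hBig, mem_filter] at this
      exact this.2
  have hBigcard' : ∀ b, #(Big b) ≤ χ := by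
    intro b
    have := hBigcard (!b)
    rwa [Bool.not_not] at this
  have hSmle' : ∀ b, ∑ g ∈ Sm b, D.wt g ≤ 2 * θ := by
    intro b
    have := hSmle (!b)
    rwa [Bool.not_not] at this
  have hBigW : ∀ b, ∀ g ∈ Big b, 1 / ((χ : ℝ) + 1) ≤ D.wt g := by
    intro b g hg
    simp only [hBig, mem_filter] at hg
    refine le_trans ?_ hg.2
    exact div_le_div_of_nonneg_right hθ1 hq.le
  have hBigpos : ∀ b, ∀ g ∈ Big b, 0 < D.wt g := fun b g hg =>
    lt_of_lt_of_le (by positivity) (hBigW b g hg)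
  have hineq : ∀ b, (χ + 1) * ∑ A ∈ Big b, D.wt A +
      ∑ A ∈ Big b, ∑ g ∈ Big (!b), (rho D b A g - (χ + 1) * (η * (χ + 1))) ≤
      (χ + 1) * (#(Big b) : ℝ) := by
    intro b
    rw [mul_sum, ← sum_add_distrib]
    calc _ ≤ ∑ _A ∈ Big b, ((χ : ℝ) + 1) := by
          refine sum_le_sum fun A hA => ?_
          exact main_ineq D hD hη b (Big (!b)) (filter_subset _ _) (hBigcard b)
            (hBigW (!b)) A (filter_subset _ _ hA) (hBigpos b A hA) (hcon b)
      _ = _ := by rw [sum_const, nsmul_eq_mul]; ring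
  have ht := hineq true
  have hf := hineq false
  simp only [Bool.not_true, Bool.not_false] at ht hf
  rw [sum_comm] at hf
  have hpair : (#(Big true) : ℝ) * (#(Big false) : ℝ) *
      (1 - η * (χ + 1) - 2 * ((χ + 1) * (η * (χ + 1)))) ≤
      ∑ A ∈ Big true, ∑ g ∈ Big false, (rho D true A g - (χ + 1) * (η * (χ + 1))) +
      ∑ A ∈ Big true, ∑ g ∈ Big false, (rho D false g A - (χ + 1) * (η * (χ + 1))) := by
    rw [← sum_add_distrib]
    calc _ = ∑ _A ∈ Big true, ∑ _g ∈ Big false,
          (1 - η * (χ + 1) - 2 * ((χ + 1) * (η * (χ + 1)))) := by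
          rw [sum_const, sum_const, nsmul_eq_mul, nsmul_eq_mul]; ring
      _ ≤ _ := by
          refine sum_le_sum fun A hA => ?_
          rw [← sum_add_distrib]
          refine sum_le_sum fun g hg => ?_
          have := rho_add (χ := χ) D hD hη A g (hBigpos true A hA) (hBigW false g hg)
          linarith
  have ha : (#(Big true) : ℝ) ≤ χ := by exact_mod_cast hBigcard' true
  have hb : (#(Big false) : ℝ) ≤ χ := by exact_mod_cast hBigcard' false
  have ha0 : (0 : ℝ) ≤ (#(Big true) : ℝ) := Nat.cast_nonneg _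
  have hb0 : (0 : ℝ) ≤ (#(Big false) : ℝ) := Nat.cast_nonneg _
  -- total weight
  have htotal : ∑ τ, D.w τ = (∑ g ∈ Big true, D.wt g + ∑ g ∈ Sm true, D.wt g) +
      (∑ g ∈ Big false, D.wt g + ∑ g ∈ Sm false, D.wt g) := by
    have h1 : ∀ b, ∑ g ∈ Big b, D.wt g + ∑ g ∈ Sm b, D.wt g = ∑ g ∈ grps D b χ, D.wt g :=
      fun b => sum_filter_add_sum_filter_not _ _ _
    rw [h1, h1, ← grps_sum, ← grps_sum]
    rw [← sum_filter_add_sum_filter_not univ (fun τ => D.col τ = true)]
    congr 1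
    apply sum_congr _ (fun _ _ => rfl)
    ext τ
    simp
  have hs1 := hSmle' true
  have hs2 := hSmle' false
  set a : ℝ := (#(Big true) : ℝ) with hadef
  set c : ℝ := (#(Big false) : ℝ) with hcdef
  set P : ℝ := ∑ g ∈ Big true, D.wt g with hP
  set Q : ℝ := ∑ g ∈ Big false, D.wt g with hQ
  set q : ℝ := (χ : ℝ) + 1 with hqdef
  have h1 : q * (P + Q) ≤ q * (a + c) - a * c * (1 - η * q - 2 * (q * (η * q))) := by
    linarith
  have h2 : q * (a + c) - a * c ≤ q * q := by
    have : 0 ≤ (q - a) * (q - c) := mul_nonneg (by linarith) (by linarith)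
    nlinarith
  have hac : a * c ≤ q * q := by
    apply mul_le_mul (by linarith) (by linarith) hb0 hq.le
  have hq1 : 1 ≤ q := by
    have : (0 : ℝ) ≤ χ := Nat.cast_nonneg _
    linarith
  have h3 : a * c * (η * q + 2 * (q * (η * q))) ≤ q * q * (3 * (q * (η * q))) := by
    apply mul_le_mul hac _ (by positivity) (by positivity)
    have : η * q ≤ q * (η * q) := by
      have : 0 ≤ η * q := by positivity
      nlinarith
    linarith
  have h4 : q * (P + Q) ≤ q * (q + 3 * q ^ 3 * η) := by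
    nlinarith
  have h5 : P + Q ≤ q + 3 * q ^ 3 * η := le_of_mul_le_mul_left h4 hq
  rw [htotal] at htot
  have h6 : θ = 1 + 3 * q ^ 3 * η := hθ
  nlinarith

end

end Pool.Agent.J6H67.BW
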