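import Pool.Agent.J6H67.BW.Assemble

/-!
# Tools for the first level of the regularity partition
-/

set_option autoImplicit false

open Finset

namespace Pool.Agent.J6H67.BW

section

open Classical

theorem typ_map {V V' : Type*} (f : V' ↪ V) (G : SimpleGraph V) (G' : SimpleGraph V')
    (hG : ∀ x y, G'.Adj x y ↔ G.Adj (f x) (f y)) (A B : Finset V') (ε d : ℝ)
    (h : Typ G' ε d A B) : Typ G ε d (A.map f) (B.map f) := by
  intro Y hY hYc
  obtain ⟨Y', hY', rfl⟩ := Finset.subset_map_iff.mp hY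
  rw [card_map, card_map] at hYc
  have h1 := h Y' hY' hYc
  rw [card_map, card_map]
  refine le_trans ?_ h1
  have h2 : (A.map f).filter (fun v => ((#((Y'.map f).filter (fun w => G.Adj v w)) : ℕ) : ℝ)
      < d * (#Y' : ℝ)) = (A.filter (fun v => ((#(Y'.filter (fun w => G'.Adj v w)) : ℕ) : ℝ)
      < d * (#Y' : ℝ))).map f := by
    rw [filter_map]
    congr 1
    apply filter_congr
    intro v _
    simp only [Function.comp]
    rw [filter_map, card_map]
    have : Y'.filter ((fun w => G.Adj (f v) w) ∘ f) = Y'.filter (fun w => G'.Adj v w) := by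
      apply filter_congr
      intro w _
      simp only [Function.comp]
      rw [hG]
    rw [this]
  rw [h2, card_map]

theorem gc_comap {V V' : Type*} (f : V' ↪ V) (G : SimpleGraph V) (b : Bool) (x y : V') :
    (Gc (G.comap f) b).Adj x y ↔ (Gc G b).Adj (f x) (f y) := by
  cases b with
  | true => simp [Gc]
  | false =>
    simp only [Gc, Bool.false_eq_true, if_false, SimpleGraph.compl_adj, SimpleGraph.comap_adj]
    constructor
    · rintro ⟨h1, h2⟩
      exact ⟨fun h => h1 (f.injective h), h2⟩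
    · rintro ⟨h1, h2⟩
      exact ⟨fun h => h1 (by rw [h]), h2⟩

/-- the tile lemma inside a set of vertices -/
theorem tile_subset (q : ℕ) (hq : 0 < q) (ε2 η2 : ℝ) (hε2 : 0 < ε2) (hη2 : 0 < η2)
    (hη21 : η2 ≤ 1) :
    ∃ (M₀ Bd : ℕ), 0 < Bd ∧ ∀ (V : Type) (G : SimpleGraph V) (W : Finset V), M₀ ≤ #W →
      ∃ (r m : ℕ) (U : Fin r → Fin q → Finset V) (col : Fin r → Bool),
        #W ≤ Bd * m ∧ r * q ≤ Bd ∧ (∀ i a, m ≤ #(U i a)) ∧ (∀ i a, U i a ⊆ W) ∧
        (∀ i a j a', (i, a) ≠ (j, a') → Disjoint (U i a) (U j a')) ∧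
        (∀ i a a', a ≠ a' → Typ (Gc G (col i)) ε2 (1 / 4) (U i a) (U i a')) ∧
        (1 - η2) * (#W : ℝ) ≤ (r : ℝ) * q * m ∧ r * q * m ≤ #W := by
  obtain ⟨M₀, Bd, hBd, key⟩ := tile_lemma q hq ε2 η2 hε2 hη2 hη21
  refine ⟨M₀, Bd, hBd, ?_⟩
  intro V G W hW
  set f : {x // x ∈ W} ↪ V := Function.Embedding.subtype _ with hf
  have hcardW : Fintype.card {x // x ∈ W} = #W := Fintype.card_coe W
  obtain ⟨r, m, U, col, h1, h2, h3, h4, h5, h6⟩ := key {x // x ∈ W} (G.comap f)
    (by rw [hcardW]; exact hW)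
  rw [hcardW] at h1 h6
  have hsub : ∀ i a, (U i a).map f ⊆ W := by
    intro i a x hx
    rw [mem_map] at hx
    obtain ⟨y, _, rfl⟩ := hx
    exact y.2
  have hdisj : ∀ i a j a', (i, a) ≠ (j, a') → Disjoint ((U i a).map f) ((U j a').map f) := by
    intro i a j a' hne
    rw [disjoint_map]
    exact h4 i a j a' hne
  refine ⟨r, m, fun i a => (U i a).map f, col, h1, h2, ?_, hsub, hdisj, ?_, h6, ?_⟩
  · intro i a
    rw [card_map]
    exact h3 i a
  · intro i a a' haa
    exact typ_map f _ _ (gc_comap f G (col i)) _ _ _ _ (h5 i a a' haa)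
  · have e1 : #((univ : Finset (Fin r × Fin q)).biUnion (fun x => (U x.1 x.2).map f)) ≤ #W := by
      apply card_le_card
      intro x hx
      rw [mem_biUnion] at hx
      obtain ⟨y, _, hx⟩ := hx
      exact hsub _ _ hx
    rw [card_biUnion] at e1
    · refine le_trans ?_ e1
      calc r * q * m = ∑ _x : Fin r × Fin q, m := by
            rw [sum_const, card_univ, Fintype.card_prod, Fintype.card_fin, Fintype.card_fin,
              smul_eq_mul]
        _ ≤ _ := by
            refine sum_le_sum fun x _ => ?_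
            rw [card_map]
            exact h3 x.1 x.2
    · intro x _ y _ hxy
      exact hdisj _ _ _ _ hxy

theorem bad_parts_le {V : Type*} [Fintype V] [DecidableEq V] (G : SimpleGraph V)
    (P : Finpartition (univ : Finset V)) (ε ζ : ℝ) (hζpos : 0 < ζ) (hεpos : 0 < ε)
    (hε : ε ≤ ζ ^ 2) (hP : P.IsUniform G ε) (hk : 0 < #P.parts) :
    ((#(P.parts.filter (fun z => ¬ #(P.parts.filter
      (fun y => z ≠ y ∧ ¬ G.IsUniform ε z y)) ≤ ⌊ζ * (#P.parts : ℝ)⌋₊)) : ℕ) : ℝ)
      ≤ ζ * (#P.parts : ℝ) := by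
  set k : ℕ := #P.parts with hkdef
  have hkR : (0 : ℝ) < (k : ℝ) := by exact_mod_cast hk
  set D : ℕ := ⌊ζ * (k : ℝ)⌋₊ with hD
  have hDlt : ζ * k < (D : ℝ) + 1 := Nat.lt_floor_add_one _
  set bad : Finset (Finset V) := P.parts.filter (fun z => ¬ #(P.parts.filter
      (fun y => z ≠ y ∧ ¬ G.IsUniform ε z y)) ≤ D) with hbad
  have h1 : #(bad) * (D + 1) ≤ #(P.nonUniforms G ε) := by
    have h2 : #(bad.sigma (fun z => P.parts.filter (fun y => z ≠ y ∧ ¬ G.IsUniform ε z y))) ≤
        #(P.nonUniforms G ε) := by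
      apply card_le_card_of_injOn (fun x => (x.1, x.2))
      · rintro ⟨z, y⟩ hx
        have hx' : (⟨z, y⟩ : (_ : Finset V) × Finset V) ∈
            bad.sigma (fun z => P.parts.filter (fun y => z ≠ y ∧ ¬ G.IsUniform ε z y)) := by
          exact_mod_cast hx
        rw [mem_sigma] at hx'
        simp only [hbad, mem_filter] at hx'
        have : (z, y) ∈ P.nonUniforms G ε := by
          rw [Finpartition.mk_mem_nonUniforms]
          exact ⟨hx'.1.1, hx'.2.1, hx'.2.2.1, hx'.2.2.2⟩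
        exact_mod_cast this
      · rintro ⟨z, y⟩ _ ⟨z', y'⟩ _ h
        simp only [Prod.mk.injEq] at h
        rw [h.1, h.2]
    rw [card_sigma] at h2
    refine le_trans ?_ h2
    rw [← smul_eq_mul, ← sum_const]
    refine sum_le_sum fun z hz => ?_
    simp only [hbad, mem_filter] at hz
    omega
  have h3 : (#(P.nonUniforms G ε) : ℝ) ≤ k * k * ε := by
    refine hP.trans ?_
    have : ((#P.parts * (#P.parts - 1) : ℕ) : ℝ) ≤ (k : ℝ) * k := by
      rw [← hkdef]
      have : k * (k - 1) ≤ k * k := Nat.mul_le_mul_left _ (Nat.sub_le _ _)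
      exact_mod_cast this
    exact mul_le_mul_of_nonneg_right this hεpos.le
  have h4 : (#(bad) : ℝ) * (ζ * k) ≤ (ζ * k) * (ζ * k) := by
    calc (#(bad) : ℝ) * (ζ * k) ≤ (#(bad) : ℝ) * (D + 1) :=
          mul_le_mul_of_nonneg_left hDlt.le (Nat.cast_nonneg _)
      _ ≤ k * k * ε := le_trans (by exact_mod_cast h1) h3
      _ ≤ k * k * ζ ^ 2 := mul_le_mul_of_nonneg_left hε (by positivity)
      _ = (ζ * k) * (ζ * k) := by ring
  exact le_of_mul_le_mul_right h4 (by positivity)

end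

end Pool.Agent.J6H67.BW
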