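import Mathlib

/-!
# Greedy embedding of graphs of small bandwidth

`greedy_embed`: a graph of small bandwidth and bounded degree, mapped homomorphically to a
reduced graph whose edges are dense typical pairs, embeds if no cluster is overfull.
-/

set_option autoImplicit false

open Finset

namespace Pool.Agent.J6H67.BW

open Classical in
/-- All but few vertices of `A` have many neighbours in each large subset of `B`. -/
def Typ {V : Type*} (G : SimpleGraph V) (ε d : ℝ) (A B : Finset V) : Prop :=
  ∀ Y ⊆ B, ε * (#B : ℝ) ≤ (#Y : ℝ) →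
    ((#(A.filter (fun v => ((#(Y.filter (fun w => G.Adj v w)) : ℕ) : ℝ) < d * (#Y : ℝ))) : ℕ) : ℝ)
      ≤ ε * (#A : ℝ)

section

open Classical

variable {V : Type*} {S : Type*} {n : ℕ}

/-- candidates for the vertex `y` when the vertices below `t` have been embedded by `f` -/
noncomputable def Cand (G : SimpleGraph V) (H : SimpleGraph (Fin n)) (b : ℕ) (U : S → Finset V)
    (φ : Fin n → S) (f : Fin n → V) (t : ℕ) (y : Fin n) : Finset V :=
  (U (φ y)).filter (fun v => (∀ x : Fin n, (x : ℕ) < t → (x : ℕ) + b < y → f x ≠ v) ∧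
    (∀ x : Fin n, (x : ℕ) < t → H.Adj x y → G.Adj (f x) v))

/-- number of the embedded neighbours -/
noncomputable def kk (H : SimpleGraph (Fin n)) (t : ℕ) (y : Fin n) : ℕ :=
  #((univ : Finset (Fin n)).filter (fun x : Fin n => (x : ℕ) < t ∧ H.Adj x y))

theorem kk_le (H : SimpleGraph (Fin n)) (Δ : ℕ)
    (hΔ : ∀ x, #((univ : Finset (Fin n)).filter (fun y => H.Adj x y)) ≤ Δ) (t : ℕ) (y : Fin n) :
    kk H t y ≤ Δ := by
  refine le_trans ?_ (hΔ y)
  apply card_le_card
  intro x hx
  simp only [mem_filter, mem_univ, true_and] at hx ⊢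
  exact hx.2.symm

theorem cand_zero (G : SimpleGraph V) (H : SimpleGraph (Fin n)) (b : ℕ) (U : S → Finset V)
    (hdisj : ∀ s s', s ≠ s' → Disjoint (U s) (U s')) (φ : Fin n → S) (ε' : ℝ)
    (hload : ∀ s, ((#((univ : Finset (Fin n)).filter (fun x : Fin n => φ x = s)) : ℕ) : ℝ)
      ≤ (1 - ε') * (#(U s) : ℝ))
    (f : Fin n → V) (t : ℕ) (hf : ∀ x : Fin n, (x : ℕ) < t → f x ∈ U (φ x)) (y : Fin n)
    (hk : kk H t y = 0) :
    ε' * (#(U (φ y)) : ℝ) ≤ (#(Cand G H b U φ f t y) : ℝ) := by
  have hsub : (U (φ y)) \ (((univ : Finset (Fin n)).filter (fun x : Fin n => φ x = φ y)).image f)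
      ⊆ Cand G H b U φ f t y := by
    intro v hv
    rw [mem_sdiff] at hv
    unfold Cand
    rw [mem_filter]
    refine ⟨hv.1, ?_, ?_⟩
    · intro x hx _ hfx
      apply hv.2
      rw [mem_image]
      refine ⟨x, ?_, hfx⟩
      simp only [mem_filter, mem_univ, true_and]
      by_contra hne
      have h1 := hf x hx
      rw [hfx] at h1
      exact (Finset.disjoint_left.mp (hdisj _ _ hne) h1) hv.1
    · intro x hx hadj
      exfalso
      unfold kk at hk
      rw [card_eq_zero, filter_eq_empty_iff] at hk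
      exact hk (mem_univ x) ⟨hx, hadj⟩
  have h1 := card_le_card hsub
  have h2 : #(U (φ y)) ≤ #((U (φ y)) \ (((univ : Finset (Fin n)).filter
      (fun x : Fin n => φ x = φ y)).image f)) +
      #((univ : Finset (Fin n)).filter (fun x : Fin n => φ x = φ y)) := by
    have h3 := le_card_sdiff (((univ : Finset (Fin n)).filter
      (fun x : Fin n => φ x = φ y)).image f) (U (φ y))
    have h4 : #(((univ : Finset (Fin n)).filter (fun x : Fin n => φ x = φ y)).image f)
      ≤ #((univ : Finset (Fin n)).filter (fun x : Fin n => φ x = φ y)) := card_image_le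
    omega
  have h5 := hload (φ y)
  have h6 : ((#(U (φ y)) : ℕ) : ℝ) ≤ ((#(Cand G H b U φ f t y) : ℕ) : ℝ) +
      ((#((univ : Finset (Fin n)).filter (fun x : Fin n => φ x = φ y)) : ℕ) : ℝ) := by
    exact_mod_cast h2.trans (Nat.add_le_add_right h1 _)
  linarith

/-- the invariant of the greedy embedding -/
structure Inv (G : SimpleGraph V) (H : SimpleGraph (Fin n)) (b : ℕ) (U : S → Finset V)
    (φ : Fin n → S) (d ε' : ℝ) (t : ℕ) (f : Fin n → V) : Prop where
  mem : ∀ x : Fin n, (x : ℕ) < t → f x ∈ U (φ x)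
  inj : ∀ x y : Fin n, (x : ℕ) < t → (y : ℕ) < t → f x = f y → x = y
  adj : ∀ x y : Fin n, (x : ℕ) < t → (y : ℕ) < t → H.Adj x y → G.Adj (f x) (f y)
  cand : ∀ y : Fin n, t ≤ (y : ℕ) →
    d ^ (kk H t y) * ε' * (#(U (φ y)) : ℝ) ≤ (#(Cand G H b U φ f t y) : ℝ)

theorem greedy_step (G : SimpleGraph V) (H : SimpleGraph (Fin n)) (b Δ : ℕ)
    (hb : ∀ x y, H.Adj x y → (y : ℕ) ≤ (x : ℕ) + b)
    (hΔ : ∀ x, #((univ : Finset (Fin n)).filter (fun y => H.Adj x y)) ≤ Δ)
    (U : S → Finset V)
    (hdisj : ∀ s s', s ≠ s' → Disjoint (U s) (U s')) (φ : Fin n → S)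
    (d ε ε' : ℝ) (hd0 : 0 < d) (hd1 : d ≤ 1) (hε' : 0 < ε') (hε0 : 0 ≤ ε) (hε : ε ≤ d ^ Δ * ε')
    (htyp : ∀ x y, H.Adj x y → Typ G ε d (U (φ x)) (U (φ y)))
    (hload : ∀ s, ((#((univ : Finset (Fin n)).filter (fun x : Fin n => φ x = s)) : ℕ) : ℝ)
      ≤ (1 - ε') * (#(U s) : ℝ))
    (hsize : ∀ x : Fin n, (b : ℝ) + Δ * (ε * (#(U (φ x)) : ℝ)) < d ^ Δ * ε' * (#(U (φ x)) : ℝ))
    (t : ℕ) (ht : t < n) (f : Fin n → V) (hf : Inv G H b U φ d ε' t f) :
    ∃ f' : Fin n → V, Inv G H b U φ d ε' (t + 1) f' := by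
  set t' : Fin n := ⟨t, ht⟩ with ht'
  have htt : (t' : ℕ) = t := rfl
  have hpow : ∀ y, d ^ Δ * ε' * (#(U (φ y)) : ℝ) ≤ d ^ (kk H t y) * ε' * (#(U (φ y)) : ℝ) := by
    intro y
    have := pow_le_pow_of_le_one hd0.le hd1 (kk_le H Δ hΔ t y)
    gcongr
  have hcard := hf.cand t' (le_refl _)
  -- the bad vertices
  set Nb : Finset (Fin n) := (univ : Finset (Fin n)).filter
    (fun y : Fin n => H.Adj t' y ∧ t < (y : ℕ)) with hNb
  set Bad : Fin n → Finset V := fun y => (U (φ t')).filter
    (fun v => ((#((Cand G H b U φ f t y).filter (fun w => G.Adj v w)) : ℕ) : ℝ)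
      < d * (#(Cand G H b U φ f t y) : ℝ)) with hBad
  set Used : Finset V := ((univ : Finset (Fin n)).filter
    (fun x : Fin n => (x : ℕ) < t ∧ t ≤ (x : ℕ) + b)).image f with hUsed
  have hused : #Used ≤ b := by
    refine card_image_le.trans ?_
    have : #((univ : Finset (Fin n)).filter (fun x : Fin n => (x : ℕ) < t ∧ t ≤ (x : ℕ) + b))
        ≤ #(Finset.Ico (t - b) t) := by
      apply card_le_card_of_injOn (fun x : Fin n => (x : ℕ))
      · intro x hx
        have hx' : (x : ℕ) < t ∧ t ≤ (x : ℕ) + b := by simpa using hx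
        have : (x : ℕ) ∈ Finset.Ico (t - b) t := by
          rw [Finset.mem_Ico]; omega
        exact_mod_cast this
      · intro x _ y _ hxy
        exact Fin.ext hxy
    rw [Nat.card_Ico] at this
    omega
  have hNbc : #Nb ≤ Δ := by
    refine le_trans (card_le_card ?_) (hΔ t')
    intro y hy
    simp only [hNb, mem_filter, mem_univ, true_and] at hy ⊢
    exact hy.1
  have hbadc : ∀ y ∈ Nb, ((#(Bad y) : ℕ) : ℝ) ≤ ε * (#(U (φ t')) : ℝ) := by
    intro y hy
    simp only [hNb, mem_filter, mem_univ, true_and] at hy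
    apply htyp t' y hy.1
    · exact filter_subset _ _
    · have h1 := hf.cand y (by omega)
      have h2 := hpow y
      have h3 : ε * (#(U (φ y)) : ℝ) ≤ d ^ Δ * ε' * (#(U (φ y)) : ℝ) := by gcongr
      linarith
  have hbadu : ((#(Nb.biUnion Bad) : ℕ) : ℝ) ≤ Δ * (ε * (#(U (φ t')) : ℝ)) := by
    have h1 : ((#(Nb.biUnion Bad) : ℕ) : ℝ) ≤ ∑ y ∈ Nb, ((#(Bad y) : ℕ) : ℝ) := by
      exact_mod_cast card_biUnion_le
    have h2 : ∑ y ∈ Nb, ((#(Bad y) : ℕ) : ℝ) ≤ ∑ y ∈ Nb, ε * (#(U (φ t')) : ℝ) :=
      sum_le_sum hbadc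
    rw [sum_const, nsmul_eq_mul] at h2
    have h3 : ((#Nb : ℕ) : ℝ) ≤ (Δ : ℝ) := by exact_mod_cast hNbc
    calc ((#(Nb.biUnion Bad) : ℕ) : ℝ) ≤ (#Nb : ℝ) * (ε * (#(U (φ t')) : ℝ)) := h1.trans h2
      _ ≤ Δ * (ε * (#(U (φ t')) : ℝ)) := by gcongr
  -- choose the image of `t'`
  obtain ⟨v, hvC, hvU, hvB⟩ : ∃ v ∈ Cand G H b U φ f t t', v ∉ Used ∧ v ∉ Nb.biUnion Bad := by
    by_contra hcon
    push Not at hcon
    have hsub : Cand G H b U φ f t t' ⊆ Used ∪ Nb.biUnion Bad := by
      intro v hv
      rw [mem_union]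
      by_cases h : v ∈ Used
      · exact Or.inl h
      · exact Or.inr (hcon v hv h)
    have h1 := (card_le_card hsub).trans (card_union_le _ _)
    have h2 : ((#(Cand G H b U φ f t t') : ℕ) : ℝ) ≤ (b : ℝ) + ((#(Nb.biUnion Bad) : ℕ) : ℝ) := by
      have : #(Cand G H b U φ f t t') ≤ b + #(Nb.biUnion Bad) := by omega
      exact_mod_cast this
    have h3 := hsize t'
    have h4 := hpow t'

    linarith
  have hvC' := hvC
  unfold Cand at hvC'
  rw [mem_filter] at hvC'
  obtain ⟨hvU1, hvC1, hvC2⟩ := hvC'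
  have hvne : ∀ x : Fin n, (x : ℕ) < t → f x ≠ v := by
    intro x hx
    by_cases h : (x : ℕ) + b < t
    · exact hvC1 x hx h
    · intro hfx
      apply hvU
      rw [hUsed, mem_image]
      exact ⟨x, by simp only [mem_filter, mem_univ, true_and]; omega, hfx⟩
  refine ⟨Function.update f t' v, ?_⟩
  have hupd : ∀ x : Fin n, (x : ℕ) < t → Function.update f t' v x = f x := by
    intro x hx
    apply Function.update_of_ne
    intro h
    rw [h] at hx
    exact absurd hx (lt_irrefl _)
  have hupd' : Function.update f t' v t' = v := Function.update_self _ _ _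
  have hcase : ∀ x : Fin n, (x : ℕ) < t + 1 → (x : ℕ) < t ∨ x = t' := by
    intro x hx
    rcases Nat.lt_succ_iff_lt_or_eq.mp hx with h | h
    · exact Or.inl h
    · exact Or.inr (Fin.ext h)
  have hmem : ∀ x : Fin n, (x : ℕ) < t + 1 → Function.update f t' v x ∈ U (φ x) := by
    intro x hx
    rcases hcase x hx with h | h
    · rw [hupd x h]; exact hf.mem x h
    · subst h; rw [hupd']; exact hvU1
  refine ⟨hmem, ?_, ?_, ?_⟩
  · intro x y hx hy hxy
    rcases hcase x hx with h | h <;> rcases hcase y hy with h' | h'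
    · rw [hupd x h, hupd y h'] at hxy
      exact hf.inj x y h h' hxy
    · rw [hupd x h, h', hupd'] at hxy
      exact absurd hxy (hvne x h)
    · rw [h, hupd', hupd y h'] at hxy
      exact absurd hxy.symm (hvne y h')
    · rw [h, h']
  · intro x y hx hy hxy
    rcases hcase x hx with h | h <;> rcases hcase y hy with h' | h'
    · rw [hupd x h, hupd y h']
      exact hf.adj x y h h' hxy
    · rw [hupd x h, h', hupd']
      rw [h'] at hxy
      exact hvC2 x h hxy
    · rw [h, hupd', hupd y h']
      rw [h] at hxy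
      exact (hvC2 y h' hxy.symm).symm
    · rw [h, h'] at hxy
      exact absurd hxy (H.loopless.irrefl _)
  · intro y hy
    by_cases hk0 : kk H (t + 1) y = 0
    · rw [hk0, pow_zero, one_mul]
      exact cand_zero G H b U hdisj φ ε' hload _ (t + 1) hmem y hk0
    · by_cases hadj : H.Adj t' y
      · -- a neighbour of `t'`
        have hyb : (y : ℕ) ≤ t + b := hb t' y hadj
        have hyN : y ∈ Nb := by
          simp only [hNb, mem_filter, mem_univ, true_and]
          exact ⟨hadj, by omega⟩
        have hvBy : v ∉ Bad y := fun h => hvB (mem_biUnion.mpr ⟨y, hyN, h⟩)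
        have hkk : kk H (t + 1) y = kk H t y + 1 := by
          unfold kk
          have : (univ : Finset (Fin n)).filter (fun x : Fin n => (x : ℕ) < t + 1 ∧ H.Adj x y)
              = insert t' ((univ : Finset (Fin n)).filter
                (fun x : Fin n => (x : ℕ) < t ∧ H.Adj x y)) := by
            ext x
            simp only [mem_filter, mem_univ, true_and, mem_insert]
            constructor
            · rintro ⟨h1, h2⟩
              rcases hcase x h1 with h | h
              · exact Or.inr ⟨h, h2⟩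
              · exact Or.inl h
            · rintro (h | h)
              · rw [h]; exact ⟨by rw [htt]; omega, hadj⟩
              · exact ⟨by omega, h.2⟩
          rw [this, card_insert_of_notMem]
          simp only [mem_filter, mem_univ, true_and, htt]
          intro h; omega
        have hC : (Cand G H b U φ f t y).filter (fun w => G.Adj v w) ⊆
            Cand G H b U φ (Function.update f t' v) (t + 1) y := by
          intro w hw
          unfold Cand at hw ⊢
          rw [mem_filter, mem_filter] at hw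
          rw [mem_filter]
          refine ⟨hw.1.1, ?_, ?_⟩
          · intro x hx hxb
            rcases hcase x hx with h | h
            · rw [hupd x h]; exact hw.1.2.1 x h hxb
            · exfalso
              rw [h, htt] at hxb
              omega
          · intro x hx hxy
            rcases hcase x hx with h | h
            · rw [hupd x h]; exact hw.1.2.2 x h hxy
            · rw [h, hupd']; exact hw.2
        have h1 : d * (#(Cand G H b U φ f t y) : ℝ) ≤
            ((#((Cand G H b U φ f t y).filter (fun w => G.Adj v w)) : ℕ) : ℝ) := by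
          by_contra hlt
          push Not at hlt
          apply hvBy
          simp only [hBad, mem_filter]
          exact ⟨hvU1, hlt⟩
        have h2 : ((#((Cand G H b U φ f t y).filter (fun w => G.Adj v w)) : ℕ) : ℝ) ≤
            ((#(Cand G H b U φ (Function.update f t' v) (t + 1) y) : ℕ) : ℝ) := by
          exact_mod_cast card_le_card hC
        have h3 := hf.cand y (by omega)
        rw [hkk, pow_succ]
        calc d ^ kk H t y * d * ε' * (#(U (φ y)) : ℝ)
            = d * (d ^ kk H t y * ε' * (#(U (φ y)) : ℝ)) := by ring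
          _ ≤ d * (#(Cand G H b U φ f t y) : ℝ) := by gcongr
          _ ≤ _ := h1.trans h2
      · -- not a neighbour, but it has an embedded neighbour
        have hkk : kk H (t + 1) y = kk H t y := by
          unfold kk
          congr 1
          ext x
          simp only [mem_filter, mem_univ, true_and]
          constructor
          · rintro ⟨h1, h2⟩
            rcases hcase x h1 with h | h
            · exact ⟨h, h2⟩
            · rw [h] at h2; exact absurd h2 hadj
          · rintro ⟨h1, h2⟩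
            exact ⟨by omega, h2⟩
        obtain ⟨x0, hx0⟩ : ∃ x0 : Fin n, (x0 : ℕ) < t ∧ H.Adj x0 y := by
          rw [hkk] at hk0
          unfold kk at hk0
          obtain ⟨x0, hx0⟩ := Finset.card_pos.mp (Nat.pos_of_ne_zero hk0)
          simp only [mem_filter, mem_univ, true_and] at hx0
          exact ⟨x0, hx0⟩
        have hyb := hb x0 y hx0.2
        have hC : Cand G H b U φ f t y ⊆
            Cand G H b U φ (Function.update f t' v) (t + 1) y := by
          intro w hw
          unfold Cand at hw ⊢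
          rw [mem_filter] at hw
          rw [mem_filter]
          refine ⟨hw.1, ?_, ?_⟩
          · intro x hx hxb
            rcases hcase x hx with h | h
            · rw [hupd x h]; exact hw.2.1 x h hxb
            · exfalso
              rw [h, htt] at hxb
              omega
          · intro x hx hxy
            rcases hcase x hx with h | h
            · rw [hupd x h]; exact hw.2.2 x h hxy
            · rw [h] at hxy; exact absurd hxy hadj
        have h2 : ((#(Cand G H b U φ f t y) : ℕ) : ℝ) ≤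
            ((#(Cand G H b U φ (Function.update f t' v) (t + 1) y) : ℕ) : ℝ) := by
          exact_mod_cast card_le_card hC
        have h3 := hf.cand y (by omega)
        rw [hkk]
        exact h3.trans h2

/-- **Greedy embedding**: a graph of small bandwidth and bounded degree which is mapped
homomorphically to dense typical pairs, without overfull clusters, embeds. -/
theorem greedy_embed (G : SimpleGraph V) (H : SimpleGraph (Fin n)) (b Δ : ℕ)
    (hb : ∀ x y, H.Adj x y → (y : ℕ) ≤ (x : ℕ) + b)
    (hΔ : ∀ x, #((univ : Finset (Fin n)).filter (fun y => H.Adj x y)) ≤ Δ)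
    (U : S → Finset V)
    (hdisj : ∀ s s', s ≠ s' → Disjoint (U s) (U s')) (φ : Fin n → S)
    (d ε ε' : ℝ) (hd0 : 0 < d) (hd1 : d ≤ 1) (hε' : 0 < ε') (hε0 : 0 ≤ ε) (hε : ε ≤ d ^ Δ * ε')
    (htyp : ∀ x y, H.Adj x y → Typ G ε d (U (φ x)) (U (φ y)))
    (hload : ∀ s, ((#((univ : Finset (Fin n)).filter (fun x : Fin n => φ x = s)) : ℕ) : ℝ)
      ≤ (1 - ε') * (#(U s) : ℝ))
    (hsize : ∀ x : Fin n, (b : ℝ) + Δ * (ε * (#(U (φ x)) : ℝ)) < d ^ Δ * ε' * (#(U (φ x)) : ℝ)) :
    ∃ f : Fin n → V, Function.Injective f ∧ ∀ x y, H.Adj x y → G.Adj (f x) (f y) := by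
  have hex : ∃ f : Fin n → V, True := by
    rcases Nat.eq_zero_or_pos n with hn | hn
    · subst hn
      exact ⟨fun x => x.elim0, trivial⟩
    · have hs := hsize ⟨0, hn⟩
      have : (0 : ℝ) < d ^ Δ * ε' * (#(U (φ ⟨0, hn⟩)) : ℝ) := by
        refine lt_of_le_of_lt ?_ hs
        positivity
      have h2 : 0 < #(U (φ ⟨0, hn⟩)) := by
        rcases Nat.eq_zero_or_pos (#(U (φ ⟨0, hn⟩))) with h | h
        · rw [h] at this; simp at this
        · exact h
      obtain ⟨v, _⟩ := Finset.card_pos.mp h2
      exact ⟨fun _ => v, trivial⟩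
  obtain ⟨f0, _⟩ := hex
  have key : ∀ t : ℕ, t ≤ n → ∃ f : Fin n → V, Inv G H b U φ d ε' t f := by
    intro t
    induction t with
    | zero =>
      intro _
      refine ⟨f0, ?_, ?_, ?_, ?_⟩
      · intro x hx; omega
      · intro x y hx; omega
      · intro x y hx; omega
      · intro y _
        have hk : kk H 0 y = 0 := by
          unfold kk
          rw [card_eq_zero, filter_eq_empty_iff]
          intro x _ h
          exact absurd h.1 (Nat.not_lt_zero _)
        rw [hk, pow_zero, one_mul]
        exact cand_zero G H b U hdisj φ ε' hload f0 0 (fun x hx => by omega) y hk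
    | succ t ih =>
      intro ht
      obtain ⟨f, hf⟩ := ih (by omega)
      exact greedy_step G H b Δ hb hΔ U hdisj φ d ε ε' hd0 hd1 hε' hε0 hε htyp hload hsize t
        (by omega) f hf
  obtain ⟨f, hf⟩ := key n le_rfl
  exact ⟨f, fun x y hxy => hf.inj x y x.2 y.2 hxy, fun x y hxy => hf.adj x y x.2 y.2 hxy⟩

end

end Pool.Agent.J6H67.BW
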