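import Pool.Agent.J6H67.BW.States

/-!
# Homomorphisms of graphs of small bandwidth with balanced loads
-/

set_option autoImplicit false

open Finset

namespace Pool.Agent.J6H67.BW

section

theorem exists_le_average {Ω : Type*} [Fintype Ω] (P : Ω → ℝ) (hP0 : ∀ ω, 0 ≤ P ω)
    (hP1 : ∑ ω, P ω = 1) (f : Ω → ℝ) (c : ℝ) (h : ∑ ω, P ω * f ω ≤ c) : ∃ ω, f ω ≤ c := by
  by_contra hcon
  push Not at hcon
  have h1 : ∑ ω, P ω * c ≤ ∑ ω, P ω * f ω :=
    sum_le_sum fun ω _ => mul_le_mul_of_nonneg_left (hcon ω).le (hP0 ω)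
  have h2 : ∑ ω, P ω * c = c := by rw [← sum_mul, hP1, one_mul]
  -- some ω has positive weight
  obtain ⟨ω0, hω0⟩ : ∃ ω, 0 < P ω := by
    by_contra hno
    push Not at hno
    have : ∑ ω, P ω ≤ 0 := sum_nonpos fun ω _ => hno ω
    linarith
  have h3 : ∑ ω, P ω * c < ∑ ω, P ω * f ω := by
    apply sum_lt_sum (fun ω _ => mul_le_mul_of_nonneg_left (hcon ω).le (hP0 ω))
    exact ⟨ω0, mem_univ _, mul_lt_mul_of_pos_left (hcon ω0) hω0⟩
  linarith

/-- vector balancing -/
theorem balance {Ω S : Type*} [Fintype Ω] [Fintype S] (P : Ω → ℝ) (hP0 : ∀ ω, 0 ≤ P ω)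
    (hP1 : ∑ ω, P ω = 1) (X : ℕ → Ω → S → ℝ) (hX0 : ∀ t ω s, 0 ≤ X t ω s) (l : ℝ) (_ : 0 ≤ l)
    (hX : ∀ t ω, ∑ s, X t ω s ≤ l) (T : ℕ) :
    ∃ ω : ℕ → Ω, ∑ s, (∑ t ∈ range T, (X t (ω t) s - ∑ ω', P ω' * X t ω' s)) ^ 2 ≤ T * l ^ 2 := by
  classical
  obtain ⟨ω0, _⟩ : ∃ ω : Ω, True := by
    by_contra hno
    have : IsEmpty Ω := ⟨fun ω => hno ⟨ω, trivial⟩⟩
    simp at hP1
  induction T with
  | zero => exact ⟨fun _ => ω0, by simp⟩
  | succ T ih =>
    obtain ⟨ω, hω⟩ := ih
    set D : S → ℝ := fun s => ∑ t ∈ range T, (X t (ω t) s - ∑ ω', P ω' * X t ω' s) with hD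
    set μ : S → ℝ := fun s => ∑ ω', P ω' * X T ω' s with hμ
    obtain ⟨ω1, hω1⟩ := exists_le_average P hP0 hP1
      (fun ω' => ∑ s, (D s + (X T ω' s - μ s)) ^ 2) (∑ s, D s ^ 2 + l ^ 2) (by
        have hexp : ∀ ω', ∑ s, (D s + (X T ω' s - μ s)) ^ 2 =
            ∑ s, D s ^ 2 + ∑ s, (2 * D s - 2 * μ s) * X T ω' s - ∑ s, 2 * D s * μ s
              + ∑ s, μ s ^ 2 + ∑ s, X T ω' s ^ 2 := by
          intro ω'
          rw [← sum_add_distrib, ← sum_sub_distrib, ← sum_add_distrib, ← sum_add_distrib]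
          refine sum_congr rfl fun s _ => ?_
          ring
        have hmean : ∑ ω', P ω' * ∑ s, (2 * D s - 2 * μ s) * X T ω' s =
            ∑ s, (2 * D s - 2 * μ s) * μ s := by
          have e1 : ∑ ω', P ω' * ∑ s, (2 * D s - 2 * μ s) * X T ω' s =
              ∑ ω', ∑ s, (2 * D s - 2 * μ s) * (P ω' * X T ω' s) := by
            refine sum_congr rfl fun ω' _ => ?_
            rw [mul_sum]
            refine sum_congr rfl fun s _ => ?_
            ring
          rw [e1, sum_comm]
          refine sum_congr rfl fun s _ => ?_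
          rw [← mul_sum]
        have hsq : ∀ ω', ∑ s, X T ω' s ^ 2 ≤ l ^ 2 := by
          intro ω'
          have h1 : ∑ s, X T ω' s ^ 2 ≤ (∑ s, X T ω' s) ^ 2 :=
            calc ∑ s, X T ω' s ^ 2 = ∑ s, X T ω' s * X T ω' s := by
                  refine sum_congr rfl fun s _ => ?_
                  ring
              _ ≤ ∑ s, X T ω' s * ∑ s', X T ω' s' := by
                  refine sum_le_sum fun s _ => ?_
                  exact mul_le_mul_of_nonneg_left
                    (single_le_sum (fun s' _ => hX0 T ω' s') (mem_univ s)) (hX0 T ω' s)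
              _ = (∑ s, X T ω' s) ^ 2 := by rw [← sum_mul]; ring
          have h2 : (∑ s, X T ω' s) ^ 2 ≤ l ^ 2 := by
            apply pow_le_pow_left₀ (sum_nonneg fun s _ => hX0 T ω' s) (hX T ω')
          exact h1.trans h2
        calc ∑ ω', P ω' * ∑ s, (D s + (X T ω' s - μ s)) ^ 2
            = ∑ ω', (P ω' * (∑ s, D s ^ 2 - ∑ s, 2 * D s * μ s + ∑ s, μ s ^ 2)
              + P ω' * ∑ s, (2 * D s - 2 * μ s) * X T ω' s + P ω' * ∑ s, X T ω' s ^ 2) := by
              refine sum_congr rfl fun ω' _ => ?_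
              rw [hexp]; ring
          _ = (∑ s, D s ^ 2 - ∑ s, 2 * D s * μ s + ∑ s, μ s ^ 2)
              + ∑ s, (2 * D s - 2 * μ s) * μ s + ∑ ω', P ω' * ∑ s, X T ω' s ^ 2 := by
              rw [sum_add_distrib, sum_add_distrib, ← sum_mul, hP1, one_mul, hmean]
          _ ≤ (∑ s, D s ^ 2 - ∑ s, 2 * D s * μ s + ∑ s, μ s ^ 2)
              + ∑ s, (2 * D s - 2 * μ s) * μ s + l ^ 2 := by
              have : ∑ ω', P ω' * ∑ s, X T ω' s ^ 2 ≤ ∑ ω', P ω' * l ^ 2 :=
                sum_le_sum fun ω' _ => mul_le_mul_of_nonneg_left (hsq ω') (hP0 ω')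
              rw [← sum_mul, hP1, one_mul] at this
              linarith
          _ = ∑ s, D s ^ 2 - ∑ s, μ s ^ 2 + l ^ 2 := by
              have : ∑ s, (2 * D s - 2 * μ s) * μ s = ∑ s, 2 * D s * μ s - 2 * ∑ s, μ s ^ 2 := by
                rw [mul_sum, ← sum_sub_distrib]
                refine sum_congr rfl fun s _ => ?_
                ring
              rw [this]; ring
          _ ≤ ∑ s, D s ^ 2 + l ^ 2 := by
              have : 0 ≤ ∑ s, μ s ^ 2 := sum_nonneg fun s _ => sq_nonneg _
              linarith)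
    refine ⟨Function.update ω T ω1, ?_⟩
    have hsame : ∀ s, ∑ t ∈ range (T + 1),
        (X t (Function.update ω T ω1 t) s - ∑ ω', P ω' * X t ω' s) =
        D s + (X T ω1 s - μ s) := by
      intro s
      rw [sum_range_succ, Function.update_self]
      congr 1
      refine sum_congr rfl fun t ht => ?_
      rw [Function.update_of_ne (by rw [mem_range] at ht; omega)]
    simp_rw [hsame]
    refine hω1.trans ?_
    push_cast
    rw [add_mul, one_mul]
    exact add_le_add hω le_rfl

end

section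

variable {S : Type*} {χ : ℕ}

theorem hom_exists [Fintype S] [DecidableEq S] (R : S → S → Prop)
    (hR : ∀ s s', R s s' → R s' s) (n b : ℕ)
    (H : SimpleGraph (Fin n)) (hb : ∀ x y : Fin n, H.Adj x y → (y : ℕ) ≤ (x : ℕ) + b)
    (col : Fin n → Fin χ) (hcol : ∀ x y, H.Adj x y → col x ≠ col y)
    (K K' L : ℕ) (hL : Fintype.card S ^ χ ≤ L) (hK' : L < K') (hn : n ≤ K * (K' * (b + 1)))
    {I : Type*} [Fintype I] (κ : I → Fin (χ + 1) → S) (u : I → ℝ) (hu0 : ∀ i, 0 ≤ u i)
    (hu1 : ∑ i, u i = 1) (hclq : ∀ i, ∀ a a', a ≠ a' → R (κ i a) (κ i a'))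
    (hreach : ∀ i j, (stG R χ).Reachable (fun c : Fin χ => κ i c.castSucc)
      (fun c : Fin χ => κ j c.castSucc)) :
    ∃ φ : Fin n → S, (∀ x y, H.Adj x y → R (φ x) (φ y)) ∧
      ∀ s, ((#((univ : Finset (Fin n)).filter (fun x : Fin n => φ x = s)) : ℕ) : ℝ) ≤
        n * ((∑ i, u i * ((#((univ : Finset (Fin (χ + 1))).filter (fun a => κ i a = s)) : ℕ) : ℝ))
          / (χ + 1)) + Real.sqrt K * (K' * (b + 1)) + K * L * (b + 1) := by
  classical
  set l : ℕ := K' * (b + 1) with hl
  have hb1 : 0 < b + 1 := Nat.succ_pos _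
  have hK0 : 0 < K' := by omega
  have hl0 : 0 < l := Nat.mul_pos hK0 hb1
  set P : I × Fin (χ + 1) → ℝ := fun ω => u ω.1 / (χ + 1) with hP
  have hχ : (0 : ℝ) < (χ : ℝ) + 1 := by positivity
  have hP0 : ∀ ω, 0 ≤ P ω := fun ω => div_nonneg (hu0 _) hχ.le
  have hP1 : ∑ ω, P ω = 1 := by
    rw [Fintype.sum_prod_type]
    simp only [hP, sum_const, card_univ, Fintype.card_fin, nsmul_eq_mul]
    rw [← mul_sum, ← sum_div, hu1]
    push_cast
    field_simp
  set X : ℕ → I × Fin (χ + 1) → S → ℝ := fun t ω s =>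
    ((#((univ : Finset (Fin n)).filter (fun x : Fin n => (x : ℕ) / l = t ∧
      κ ω.1 ((col x).castSucc + ω.2) = s)) : ℕ) : ℝ) with hX
  have hblock : ∀ t : ℕ, #((univ : Finset (Fin n)).filter (fun x : Fin n => (x : ℕ) / l = t))
      ≤ l := by
    intro t
    have : #((univ : Finset (Fin n)).filter (fun x : Fin n => (x : ℕ) / l = t)) ≤
        #(Finset.Ico (t * l) ((t + 1) * l)) := by
      apply card_le_card_of_injOn (fun x : Fin n => (x : ℕ))
      · intro x hx
        have hx' : (x : ℕ) / l = t := by simpa using hx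
        have : (x : ℕ) ∈ Finset.Ico (t * l) ((t + 1) * l) := by
          rw [Finset.mem_Ico]
          rw [← hx']
          refine ⟨Nat.div_mul_le_self _ _, ?_⟩
          have h1 := Nat.div_add_mod (x : ℕ) l
          have h2 := Nat.mod_lt (x : ℕ) hl0
          rw [Nat.add_mul, Nat.one_mul, Nat.mul_comm]
          omega
        exact_mod_cast this
      · intro x _ y _ hxy
        exact Fin.ext hxy
    rw [Nat.card_Ico] at this
    refine this.trans ?_
    rw [Nat.add_mul, Nat.one_mul]; omega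
  have hXsum : ∀ t ω, ∑ s, X t ω s =
      ((#((univ : Finset (Fin n)).filter (fun x : Fin n => (x : ℕ) / l = t)) : ℕ) : ℝ) := by
    intro t ω
    rw [hX]
    dsimp only
    rw [← Nat.cast_sum]
    congr 1
    rw [card_eq_sum_card_fiberwise (f := fun x : Fin n => κ ω.1 ((col x).castSucc + ω.2))
      (t := univ) (fun _ _ => mem_univ _)]
    refine sum_congr rfl fun s _ => ?_
    rw [filter_filter]
  have hXl : ∀ t ω, ∑ s, X t ω s ≤ (l : ℝ) := by
    intro t ω
    rw [hXsum]
    exact_mod_cast hblock t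
  have hX0 : ∀ t ω s, 0 ≤ X t ω s := fun t ω s => Nat.cast_nonneg _
  obtain ⟨ω, hω⟩ := balance P hP0 hP1 X hX0 (l : ℝ) (Nat.cast_nonneg _) hXl K
  set σ : ℕ → Fin χ → S := fun t c => κ (ω t).1 (c.castSucc + (ω t).2) with hσ
  have hσst : ∀ t, IsSt R (σ t) := by
    intro t i j hij
    apply hclq
    intro h
    exact hij (Fin.castSucc_injective _ (add_right_cancel h))
  have hσreach : ∀ t t', (stG R χ).Reachable (σ t) (σ t') := by
    intro t t'
    have h1 := reach_rot R hR (κ (ω t).1) (hclq _) (ω t).2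
    have h2 := reach_rot R hR (κ (ω t').1) (hclq _) (ω t').2
    exact h1.symm.trans ((hreach (ω t).1 (ω t').1).trans h2)
  obtain ⟨g, hg1, hg2, hg3⟩ := exists_sequence R σ hσst hσreach L K' hL hK'
  have hhom : ∀ x y : Fin n, (x : ℕ) ≤ (y : ℕ) → H.Adj x y →
      R (g ((x : ℕ) / (b + 1)) (col x)) (g ((y : ℕ) / (b + 1)) (col y)) := by
    intro x y hxy hadj
    have h1 : (x : ℕ) / (b + 1) ≤ (y : ℕ) / (b + 1) := Nat.div_le_div_right hxy
    have h2 : (y : ℕ) / (b + 1) ≤ ((x : ℕ) + (b + 1)) / (b + 1) :=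
      Nat.div_le_div_right ((hb x y hadj).trans (by omega))
    rw [Nat.add_div_right _ hb1] at h2
    rcases Nat.lt_or_ge ((x : ℕ) / (b + 1)) ((y : ℕ) / (b + 1)) with h | h
    · have h3 : (y : ℕ) / (b + 1) = (x : ℕ) / (b + 1) + 1 := by omega
      rw [h3]
      exact hg2 _ _ _ (hcol x y hadj)
    · have h3 : (y : ℕ) / (b + 1) = (x : ℕ) / (b + 1) := by omega
      rw [h3]
      exact hg1 _ _ _ (hcol x y hadj)
  refine ⟨fun x => g ((x : ℕ) / (b + 1)) (col x), ?_, ?_⟩
  · intro x y hadj
    rcases Nat.le_total (x : ℕ) (y : ℕ) with h | h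
    · exact hhom x y h hadj
    · exact hR _ _ (hhom y x h hadj.symm)
  · intro s
    set Tr : Finset (Fin n) := (univ : Finset (Fin n)).filter
      (fun x : Fin n => ((x : ℕ) / (b + 1)) % K' < L) with hTr
    have hdiv : ∀ x : Fin n, ((x : ℕ) / (b + 1)) / K' = (x : ℕ) / l := by
      intro x
      rw [Nat.div_div_eq_div_mul, hl, Nat.mul_comm]
    have hTrc : #Tr ≤ K * L * (b + 1) := by
      have h1 : #Tr ≤ #((range K ×ˢ range L) ×ˢ range (b + 1)) := by
        apply card_le_card_of_injOn
          (fun x : Fin n => (((x : ℕ) / l, ((x : ℕ) / (b + 1)) % K'), (x : ℕ) % (b + 1)))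
        · intro x hx
          have hx' : ((x : ℕ) / (b + 1)) % K' < L := by
            have := hx
            simp only [hTr, coe_filter, mem_univ, true_and] at this
            exact this
          have h2 : (x : ℕ) / l < K := by
            rw [Nat.div_lt_iff_lt_mul hl0]
            exact lt_of_lt_of_le x.2 hn
          have h3 : (x : ℕ) % (b + 1) < b + 1 := Nat.mod_lt _ hb1
          simp only [coe_product, coe_range, Set.mem_prod, Set.mem_Iio]
          exact ⟨⟨h2, hx'⟩, h3⟩
        · intro x _ y _ hxy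
          simp only [Prod.mk.injEq] at hxy
          obtain ⟨⟨h1, h2⟩, h3⟩ := hxy
          rw [← hdiv x, ← hdiv y] at h1
          have h4 : (x : ℕ) / (b + 1) = (y : ℕ) / (b + 1) := by
            rw [← Nat.div_add_mod ((x : ℕ) / (b + 1)) K', h1, h2, Nat.div_add_mod]
          apply Fin.ext
          rw [← Nat.div_add_mod (x : ℕ) (b + 1), h4, h3, Nat.div_add_mod]
      rw [card_product, card_product, card_range, card_range, card_range] at h1
      exact h1
    -- the main part
    have hsub : (univ : Finset (Fin n)).filter (fun x : Fin n => g ((x : ℕ) / (b + 1)) (col x) = s)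
        ⊆ ((range K).biUnion fun t => (univ : Finset (Fin n)).filter (fun x : Fin n =>
          (x : ℕ) / l = t ∧ κ (ω t).1 ((col x).castSucc + (ω t).2) = s)) ∪ Tr := by
      intro x hx
      rw [mem_filter] at hx
      rw [mem_union]
      by_cases htr : ((x : ℕ) / (b + 1)) % K' < L
      · right
        rw [hTr, mem_filter]
        exact ⟨mem_univ _, htr⟩
      · left
        rw [mem_biUnion]
        refine ⟨(x : ℕ) / l, ?_, ?_⟩
        · rw [mem_range, Nat.div_lt_iff_lt_mul hl0]
          exact lt_of_lt_of_le x.2 hn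
        · rw [mem_filter]
          refine ⟨mem_univ _, rfl, ?_⟩
          have h1 := hg3 ((x : ℕ) / (b + 1)) (not_lt.mp htr)
          rw [hdiv] at h1
          have h2 := hx.2
          rw [h1] at h2
          exact h2
    have hmain : ((#((univ : Finset (Fin n)).filter
        (fun x : Fin n => g ((x : ℕ) / (b + 1)) (col x) = s)) : ℕ) : ℝ) ≤
        ∑ t ∈ range K, X t (ω t) s + K * L * (b + 1) := by
      have h1 := (card_le_card hsub).trans (card_union_le _ _)
      have h2 : #((range K).biUnion fun t => (univ : Finset (Fin n)).filter (fun x : Fin n =>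
          (x : ℕ) / l = t ∧ κ (ω t).1 ((col x).castSucc + (ω t).2) = s)) ≤
          ∑ t ∈ range K, #((univ : Finset (Fin n)).filter (fun x : Fin n =>
          (x : ℕ) / l = t ∧ κ (ω t).1 ((col x).castSucc + (ω t).2) = s)) := card_biUnion_le
      have h3 : #((univ : Finset (Fin n)).filter
        (fun x : Fin n => g ((x : ℕ) / (b + 1)) (col x) = s)) ≤
        ∑ t ∈ range K, #((univ : Finset (Fin n)).filter (fun x : Fin n =>
          (x : ℕ) / l = t ∧ κ (ω t).1 ((col x).castSucc + (ω t).2) = s)) + K * L * (b + 1) := by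
        omega
      calc ((#((univ : Finset (Fin n)).filter
          (fun x : Fin n => g ((x : ℕ) / (b + 1)) (col x) = s)) : ℕ) : ℝ)
          ≤ ((∑ t ∈ range K, #((univ : Finset (Fin n)).filter (fun x : Fin n =>
          (x : ℕ) / l = t ∧ κ (ω t).1 ((col x).castSucc + (ω t).2) = s))
            + K * L * (b + 1) : ℕ) : ℝ) := by exact_mod_cast h3
        _ = _ := by push_cast; rfl
    -- the fluctuation
    have hfluc : ∑ t ∈ range K, (X t (ω t) s - ∑ ω', P ω' * X t ω' s) ≤
        Real.sqrt K * (K' * (b + 1)) := by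
      have h1 : (∑ t ∈ range K, (X t (ω t) s - ∑ ω', P ω' * X t ω' s)) ^ 2 ≤ K * (l : ℝ) ^ 2 :=
        (single_le_sum (f := fun s => (∑ t ∈ range K,
          (X t (ω t) s - ∑ ω', P ω' * X t ω' s)) ^ 2) (fun s _ => sq_nonneg _)
          (mem_univ s)).trans hω
      have h2 := Real.abs_le_sqrt h1
      have h3 : Real.sqrt (K * (l : ℝ) ^ 2) = Real.sqrt K * (K' * (b + 1)) := by
        rw [Real.sqrt_mul (Nat.cast_nonneg _), Real.sqrt_sq (Nat.cast_nonneg _), hl]
        push_cast
        ring
      rw [h3] at h2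
      exact (le_abs_self _).trans h2
    -- the mean
    have hmean : ∑ t ∈ range K, ∑ ω', P ω' * X t ω' s ≤
        n * ((∑ i, u i * ((#((univ : Finset (Fin (χ + 1))).filter (fun a => κ i a = s)) : ℕ) : ℝ))
          / (χ + 1)) := by
      rw [sum_comm]
      have h1 : ∀ ω' : I × Fin (χ + 1), ∑ t ∈ range K, P ω' * X t ω' s ≤
          P ω' * ((#((univ : Finset (Fin n)).filter (fun x : Fin n =>
            κ ω'.1 ((col x).castSucc + ω'.2) = s)) : ℕ) : ℝ) := by
        intro ω'
        rw [← mul_sum]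
        refine mul_le_mul_of_nonneg_left ?_ (hP0 _)
        rw [hX]
        dsimp only
        rw [← Nat.cast_sum]
        have h2 : ∑ t ∈ range K, #((univ : Finset (Fin n)).filter (fun x : Fin n =>
            (x : ℕ) / l = t ∧ κ ω'.1 ((col x).castSucc + ω'.2) = s)) =
            #((range K).biUnion fun t => (univ : Finset (Fin n)).filter (fun x : Fin n =>
            (x : ℕ) / l = t ∧ κ ω'.1 ((col x).castSucc + ω'.2) = s)) := by
          rw [card_biUnion]
          intro t _ t' _ htt
          refine Finset.disjoint_left.mpr ?_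
          intro x hx hx'
          rw [mem_filter] at hx hx'
          exact htt (hx.2.1.symm.trans hx'.2.1)
        rw [h2]
        have h3 : ((range K).biUnion fun t => (univ : Finset (Fin n)).filter (fun x : Fin n =>
            (x : ℕ) / l = t ∧ κ ω'.1 ((col x).castSucc + ω'.2) = s)) ⊆
            (univ : Finset (Fin n)).filter (fun x : Fin n =>
            κ ω'.1 ((col x).castSucc + ω'.2) = s) := by
          intro x hx
          rw [mem_biUnion] at hx
          obtain ⟨t, _, hx⟩ := hx
          rw [mem_filter] at hx ⊢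
          exact ⟨hx.1, hx.2.2⟩
        exact_mod_cast card_le_card h3
      refine (sum_le_sum fun ω' _ => h1 ω').trans ?_
      rw [Fintype.sum_prod_type]
      have h4 : ∀ i, ∑ r : Fin (χ + 1), P (i, r) * ((#((univ : Finset (Fin n)).filter
          (fun x : Fin n => κ (i, r).1 ((col x).castSucc + (i, r).2) = s)) : ℕ) : ℝ) =
          n * (u i * ((#((univ : Finset (Fin (χ + 1))).filter (fun a => κ i a = s)) : ℕ) : ℝ)
            / (χ + 1)) := by
        intro i
        simp only [hP]
        rw [← mul_sum]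
        have h5 : ∑ r : Fin (χ + 1), ((#((univ : Finset (Fin n)).filter
          (fun x : Fin n => κ i ((col x).castSucc + r) = s)) : ℕ) : ℝ) =
          n * ((#((univ : Finset (Fin (χ + 1))).filter (fun a => κ i a = s)) : ℕ) : ℝ) := by
          simp_rw [card_filter]
          push_cast
          rw [sum_comm]
          have h6 : ∀ x : Fin n, ∑ r : Fin (χ + 1),
              (if κ i ((col x).castSucc + r) = s then (1 : ℝ) else 0) =
              ∑ a : Fin (χ + 1), (if κ i a = s then (1 : ℝ) else 0) := by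
            intro x
            exact Equiv.sum_comp (Equiv.addLeft (col x).castSucc)
              (fun a => if κ i a = s then (1 : ℝ) else 0)
          rw [sum_congr rfl fun x _ => h6 x, sum_const, card_univ, Fintype.card_fin, nsmul_eq_mul]
        rw [h5]
        ring
      rw [sum_congr rfl fun i _ => h4 i, ← mul_sum, sum_div]
    have hfin : ∑ t ∈ range K, X t (ω t) s = ∑ t ∈ range K,
        (X t (ω t) s - ∑ ω', P ω' * X t ω' s) + ∑ t ∈ range K, ∑ ω', P ω' * X t ω' s := by
      rw [← sum_add_distrib]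
      refine sum_congr rfl fun t _ => ?_
      ring
    have h9 := hmain
    rw [hfin] at h9
    refine h9.trans ?_
    have := hmean
    have := hfluc
    linarith

end

end Pool.Agent.J6H67.BW
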