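import Pool.Agent.J6H67.BW.System

/-!
# The main embedding theorem
-/

set_option autoImplicit false

open Finset

namespace Pool.Agent.J6H67.BW

section

open Classical

set_option maxHeartbeats 2000000 in
theorem main_embedding (Δ χ : ℕ) : ∃ (β : ℝ) (n₀ : ℕ), 0 < β ∧ ∀ n : ℕ, n₀ ≤ n →
    ∀ (H : SimpleGraph (Fin n)) (b : ℕ), (b : ℝ) ≤ β * n →
    (∀ x y : Fin n, H.Adj x y → (y : ℕ) ≤ (x : ℕ) + b) →
    (∀ x, #((univ : Finset (Fin n)).filter (fun y => H.Adj x y)) ≤ Δ) →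
    ∀ col : Fin n → Fin χ, (∀ x y, H.Adj x y → col x ≠ col y) →
    ∀ N : ℕ, N = (χ + 6) * n → ∀ G : SimpleGraph (Fin N),
      ∃ (b0 : Bool) (f : Fin n → Fin N), Function.Injective f ∧
        ∀ x y, H.Adj x y → (Gc G b0).Adj (f x) (f y) := by
  set c : ℝ := (χ : ℝ) + 6 with hc
  have hχ0 : (0 : ℝ) ≤ (χ : ℝ) := Nat.cast_nonneg _
  have hc6 : 6 ≤ c := by linarith
  have hcpos : 0 < c := by linarith
  set x : ℝ := 1 / (10 * c) with hx
  have hxpos : 0 < x := by positivity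
  have hxc : x * c = 1 / 10 := by rw [hx]; field_simp
  have hx60 : x ≤ 1 / 60 := by
    rw [hx]
    apply one_div_le_one_div_of_le (by norm_num)
    linarith
  set η : ℝ := 1 / (30 * ((χ : ℝ) + 1) ^ 3) with hη
  have hηpos : 0 < η := by positivity
  set ζ : ℝ := min x (η / (4 * c)) with hζ
  have hζpos : 0 < ζ := lt_min hxpos (by positivity)
  have hζx : ζ ≤ x := min_le_left _ _
  have hζη : 4 * ζ * c ≤ η := by
    have : ζ ≤ η / (4 * c) := min_le_right _ _
    rw [le_div_iff₀ (by positivity)] at this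
    linarith
  set d0 : ℝ := (1 / 4) ^ Δ * (x / 2) with hd0
  have hd0pos : 0 < d0 := by positivity
  set ε2 : ℝ := d0 / (2 * ((Δ : ℝ) + 1)) with hε2
  have hΔ0 : (0 : ℝ) ≤ (Δ : ℝ) := Nat.cast_nonneg _
  have hε2pos : 0 < ε2 := by positivity
  have hε2d : ε2 ≤ d0 := by
    rw [hε2, div_le_iff₀ (by positivity)]
    nlinarith
  have hΔε : (Δ : ℝ) * ε2 ≤ d0 / 2 := by
    have h1 : ((Δ : ℝ) + 1) * ε2 = d0 / 2 := by
      rw [hε2]
      have : (Δ : ℝ) + 1 ≠ 0 := by positivity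
      field_simp
    nlinarith
  obtain ⟨n₁, B, hB, TS⟩ := tile_system χ ε2 x ζ x hε2pos hxpos (by linarith) hζpos
    (by linarith) hxpos.le (by linarith)
  have hBR : (0 : ℝ) < (B : ℝ) := by exact_mod_cast hB
  set L : ℕ := B ^ χ with hL
  set K : ℕ := ⌈(8 * (B : ℝ) / x) ^ 2⌉₊ + 1 with hK
  have hK1 : 1 ≤ K := by omega
  have hK1R : (1 : ℝ) ≤ (K : ℝ) := by exact_mod_cast hK1
  have hKpos : (0 : ℝ) < (K : ℝ) := by linarith
  have hKsq : (8 * (B : ℝ) / x) ^ 2 ≤ (K : ℝ) := by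
    rw [hK]; push_cast
    have := Nat.le_ceil ((8 * (B : ℝ) / x) ^ 2)
    linarith
  have hsqrtK : 8 * (B : ℝ) / x ≤ Real.sqrt K := Real.le_sqrt_of_sq_le hKsq
  have hsqrtpos : 0 < Real.sqrt K := Real.sqrt_pos.mpr hKpos
  have hsqrtle : Real.sqrt K ≤ K := by
    rw [Real.sqrt_le_left hKpos.le]
    nlinarith
  set M : ℝ := (K : ℝ) * (2 * (L : ℝ) + 1) with hM
  have hMpos : 0 < M := by positivity
  set β : ℝ := min (x / (16 * B * M)) (d0 / (4 * B)) with hβ
  have hβpos : 0 < β := lt_min (by positivity) (by positivity)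
  refine ⟨β, max n₁ (⌈1 / β⌉₊ + 1), hβpos, ?_⟩
  intro n hn H b hbβ hb hΔH col hcol N hN G
  have hn1 : n₁ ≤ n := (le_max_left _ _).trans hn
  have hn2 : ⌈1 / β⌉₊ + 1 ≤ n := (le_max_right _ _).trans hn
  have hn0 : 0 < n := by omega
  have hnR : (0 : ℝ) < (n : ℝ) := by exact_mod_cast hn0
  have hβn : 1 ≤ β * n := by
    have h1 : 1 / β ≤ (n : ℝ) := (Nat.le_ceil _).trans (by
      have : ⌈1 / β⌉₊ ≤ n := by omega
      exact_mod_cast this)
    rw [div_le_iff₀ hβpos] at h1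
    linarith
  have hb1 : (b : ℝ) + 1 ≤ 2 * (β * n) := by linarith
  have hNn : (N : ℝ) / n = c := by
    rw [hN]; push_cast
    field_simp
    rw [hc]
  have hnN : n ≤ N := by
    rw [hN]
    calc n = 1 * n := (Nat.one_mul _).symm
      _ ≤ _ := Nat.mul_le_mul_right _ (by omega)
  obtain ⟨𝒯, _, D, U, mm, hD, h1, h2, h3, h4, h5, h6, h7⟩ := TS n N hn1 hnN hn0 G
  rw [hNn] at hD h7
  -- the core
  obtain ⟨b0, hcert⟩ := core (χ := χ) D hD (by positivity) (by
    have e1 : 30 * ((χ : ℝ) + 1) ^ 3 * (4 * ζ * c) ≤ 30 * ((χ : ℝ) + 1) ^ 3 * η :=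
      mul_le_mul_of_nonneg_left hζη (by positivity)
    refine e1.trans (le_of_eq ?_)
    rw [hη]; field_simp) (by
    refine le_trans ?_ h7
    have e1 : (1 - x) * (1 - x) * (1 - ζ) ≥ 1 - 3 * x := by
      have e2 : 1 - x ≤ 1 - ζ := by linarith
      have e3 : 0 ≤ (1 - x) * (1 - x) := mul_nonneg (by linarith) (by linarith)
      have e4 : (1 - x) * (1 - x) * (1 - x) ≤ (1 - x) * (1 - x) * (1 - ζ) :=
        mul_le_mul_of_nonneg_left e2 e3
      have e5 : (1 - x) * (1 - x) * (1 - x) - (1 - 3 * x) = x ^ 2 * (3 - x) := by ring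
      have e6 : 0 ≤ x ^ 2 * (3 - x) := mul_nonneg (by positivity) (by linarith)
      linarith
    have e7 : (1 - 3 * x) * (c - ζ) ≤ (1 - x) * (1 - x) * (1 - ζ) * (c - ζ) :=
      mul_le_mul_of_nonneg_right e1 (by linarith)
    have e8 : (1 - 3 * x) * (c - ζ) = c - ζ - 3 * (x * c) + 3 * x * ζ := by ring
    rw [hxc] at e8
    have e9 : 0 ≤ 3 * x * ζ := by positivity
    linarith)
  set K' : ℕ := n / (K * (b + 1)) + L + 1 with hK'
  have hLK' : L < K' := by
    rw [hK']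
    exact Nat.lt_succ_of_le (Nat.le_add_left _ _)
  have hKb : 0 < K * (b + 1) := Nat.mul_pos hK1 (Nat.succ_pos _)
  have hnK : n ≤ K * (K' * (b + 1)) := by
    have e1 := Nat.div_add_mod n (K * (b + 1))
    have e2 := Nat.mod_lt n hKb
    calc n ≤ K * (b + 1) * (n / (K * (b + 1)) + 1) := by
          rw [Nat.mul_add, Nat.mul_one]; omega
      _ ≤ K * (b + 1) * K' := Nat.mul_le_mul_left _ (by omega)
      _ = K * (K' * (b + 1)) := by ring
  have hK'R : (K' : ℝ) * ((b : ℝ) + 1) ≤ n / K + (L + 1) * (b + 1) := by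
    have e1 : ((n / (K * (b + 1)) : ℕ) : ℝ) ≤ (n : ℝ) / (K * (b + 1)) := by
      have := @Nat.cast_div_le ℝ _ _ _ n (K * (b + 1))
      push_cast at this
      exact this
    have e2 : (K' : ℝ) = ((n / (K * (b + 1)) : ℕ) : ℝ) + L + 1 := by
      rw [hK']; push_cast; ring
    have e3 : (0 : ℝ) < (b : ℝ) + 1 := by positivity
    rw [e2]
    have e4 : (n : ℝ) / (K * (b + 1)) * (b + 1) = n / K := by field_simp
    have e5 := mul_le_mul_of_nonneg_right e1 e3.le
    rw [e4] at e5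
    have e6 : (((n / (K * (b + 1)) : ℕ) : ℝ) + L + 1) * ((b : ℝ) + 1) =
        ((n / (K * (b + 1)) : ℕ) : ℝ) * ((b : ℝ) + 1) + (L + 1) * (b + 1) := by ring
    rw [e6]
    linarith
  have hmmn : ∀ τ, (n : ℝ) / B ≤ (mm τ : ℝ) := by
    intro τ
    rw [div_le_iff₀ hBR]
    have : (n : ℝ) ≤ (B : ℝ) * (mm τ : ℝ) := by exact_mod_cast h6 τ
    linarith
  have hb2 : M * ((b : ℝ) + 1) ≤ x * (n / B) / 8 := by
    have e1 : β ≤ x / (16 * B * M) := min_le_left _ _
    rw [le_div_iff₀ (by positivity)] at e1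
    have e2 : M * ((b : ℝ) + 1) ≤ M * (2 * (β * n)) := mul_le_mul_of_nonneg_left hb1 hMpos.le
    have e3 : M * (2 * (β * n)) = (β * (16 * B * M)) * (n / B) / 8 := by field_simp; ring
    rw [e3] at e2
    refine e2.trans ?_
    have e4 : 0 ≤ (n : ℝ) / B := by positivity
    have := mul_le_mul_of_nonneg_right e1 e4
    linarith
  have hb3 : (b : ℝ) < d0 / 2 * (n / B) := by
    have e1 : β ≤ d0 / (4 * B) := min_le_right _ _
    have e2 : 2 * (β * n) ≤ 2 * (d0 / (4 * B) * n) := by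
      have := mul_le_mul_of_nonneg_right e1 hnR.le
      linarith
    have e3 : 2 * (d0 / (4 * B) * n) = d0 / 2 * (n / B) := by field_simp; ring
    linarith
  obtain ⟨f, hf1, hf2⟩ := embed_of_cert (n := n) G D hD b0 hcert U h1 mm h2 x hxpos (by linarith)
    h3 ε2 hε2pos.le (h4 b0) b Δ K K' L (Nat.pow_le_pow_left h5 χ) hLK' hnK
    (by
      intro τ
      have e1 := mul_le_mul_of_nonneg_left hK'R hsqrtpos.le
      have e2 : Real.sqrt K * (n / K) ≤ x * (n / B) / 8 := by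
        have e3 : Real.sqrt K * ((n : ℝ) / K) = n / Real.sqrt K := by
          have : (K : ℝ) = Real.sqrt K * Real.sqrt K := (Real.mul_self_sqrt hKpos.le).symm
          field_simp
          rw [Real.sq_sqrt hKpos.le]
        rw [e3, div_le_iff₀ hsqrtpos]
        have e4 : x * (n / B) / 8 * (8 * (B : ℝ) / x) = n := by field_simp
        calc (n : ℝ) = x * (n / B) / 8 * (8 * (B : ℝ) / x) := e4.symm
          _ ≤ x * (n / B) / 8 * Real.sqrt K := mul_le_mul_of_nonneg_left hsqrtK (by positivity)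
      have e5 : Real.sqrt K * (((L : ℝ) + 1) * (b + 1)) + K * L * (b + 1) ≤ M * (b + 1) := by
        have e6 : Real.sqrt K * (((L : ℝ) + 1) * (b + 1)) ≤ K * (((L : ℝ) + 1) * (b + 1)) :=
          mul_le_mul_of_nonneg_right hsqrtle (by positivity)
        have e7 : M * ((b : ℝ) + 1) = K * (((L : ℝ) + 1) * (b + 1)) + K * L * (b + 1) := by
          rw [hM]; ring
        linarith
      have e8 := hmmn τ
      have e9 : x / 2 * ((n : ℝ) / B) ≤ x / 2 * (mm τ : ℝ) :=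
        mul_le_mul_of_nonneg_left e8 (by linarith)
      have e10 : 0 ≤ x * ((n : ℝ) / B) := by positivity
      rw [mul_add] at e1
      linarith)
    hε2d
    (by
      intro τ a
      have e1 : (mm τ : ℝ) ≤ (#(U τ a) : ℝ) := by exact_mod_cast h2 τ a
      have e2 := hmmn τ
      have e3 : (n : ℝ) / B ≤ (#(U τ a) : ℝ) := e2.trans e1
      have e4 : (Δ : ℝ) * (ε2 * (#(U τ a) : ℝ)) ≤ d0 / 2 * (#(U τ a) : ℝ) := by
        rw [← mul_assoc]
        exact mul_le_mul_of_nonneg_right hΔε (Nat.cast_nonneg _)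
      have e5 : d0 / 2 * ((n : ℝ) / B) ≤ d0 / 2 * (#(U τ a) : ℝ) :=
        mul_le_mul_of_nonneg_left e3 (by linarith)
      have e6 : (1 / 4 : ℝ) ^ Δ * (x / 2) * (#(U τ a) : ℝ) = d0 * (#(U τ a) : ℝ) := by rw [hd0]
      rw [e6]
      linarith)
    H hb hΔH col hcol
  exact ⟨b0, f, hf1, hf2⟩

end

end Pool.Agent.J6H67.BW
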