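import Pool.Agent.J6H67.BW.Greedy

/-!
# Typical pairs from uniform pairs
-/

set_option autoImplicit false

open Finset

namespace Pool.Agent.J6H67.BW

/-- the graph or its complement -/
def Gc {V : Type*} (G : SimpleGraph V) (b : Bool) : SimpleGraph V := if b then G else Gᶜ

section

open Classical

variable {V : Type*}

theorem card_interedges_sum (G : SimpleGraph V) (X Y : Finset V) :
    #(G.interedges X Y) = ∑ v ∈ X, #(Y.filter (fun w => G.Adj v w)) := by
  unfold SimpleGraph.interedges Rel.interedges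
  rw [card_filter, sum_product]
  refine sum_congr rfl fun v _ => ?_
  rw [card_filter]

/-- Uniform pairs of the right density are typical, also between large subsets. -/
theorem typ_of_uniform (G : SimpleGraph V) (b : Bool) (A B A' B' : Finset V) (ε ε2 : ℝ)
    (hε : 0 < ε) (hε4 : ε ≤ 1 / 8) (hu : G.IsUniform ε A B) (hAB : Disjoint A B)
    (hd : if b then (1 : ℝ) / 2 ≤ (G.edgeDensity A B : ℝ) else (G.edgeDensity A B : ℝ) ≤ 1 / 2)
    (hA' : A' ⊆ A) (hB' : B' ⊆ B) (hA0 : A.Nonempty) (hB0 : B.Nonempty)
    (hA : (#A : ℝ) * ε ≤ ε2 * (#A' : ℝ)) (hB : (#B : ℝ) * ε ≤ ε2 * (#B' : ℝ)) :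
    Typ (Gc G b) ε2 (1 / 4) A' B' := by
  intro Y hY hYc
  by_contra hcon
  push Not at hcon
  set X := A'.filter (fun v => ((#(Y.filter (fun w => (Gc G b).Adj v w)) : ℕ) : ℝ)
    < 1 / 4 * (#Y : ℝ)) with hX
  have hXA' : X ⊆ A' := filter_subset _ _
  have hAX : (#A : ℝ) * ε ≤ (#X : ℝ) := hA.trans hcon.le
  have hBY : (#B : ℝ) * ε ≤ (#Y : ℝ) := hB.trans hYc
  have hdev := hu (hXA'.trans hA') (hY.trans hB') hAX hBY
  have hApos : (0 : ℝ) < (#A : ℝ) := by exact_mod_cast hA0.card_pos
  have hBpos : (0 : ℝ) < (#B : ℝ) := by exact_mod_cast hB0.card_pos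
  have hXpos : (0 : ℝ) < (#X : ℝ) := lt_of_lt_of_le (mul_pos hApos hε) hAX
  have hYpos : (0 : ℝ) < (#Y : ℝ) := lt_of_lt_of_le (mul_pos hBpos hε) hBY
  have hdens : (G.edgeDensity X Y : ℝ) =
      (∑ v ∈ X, ((#(Y.filter (fun w => G.Adj v w)) : ℕ) : ℝ)) / ((#X : ℝ) * (#Y : ℝ)) := by
    rw [SimpleGraph.edgeDensity_def, card_interedges_sum]
    push_cast
    rfl
  cases b with
  | true =>
    simp only [if_true] at hd
    have hsum : ∑ v ∈ X, ((#(Y.filter (fun w => G.Adj v w)) : ℕ) : ℝ) ≤
        ∑ _v ∈ X, 1 / 4 * (#Y : ℝ) := by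
      refine sum_le_sum fun v hv => ?_
      have := (mem_filter.mp hv).2
      simp only [Gc, if_true] at this
      exact this.le
    rw [sum_const, nsmul_eq_mul] at hsum
    have h1 : (G.edgeDensity X Y : ℝ) ≤ 1 / 4 := by
      rw [hdens, div_le_iff₀ (mul_pos hXpos hYpos)]
      linarith
    rw [abs_lt] at hdev
    linarith [hdev.1]
  | false =>
    simp only [Bool.false_eq_true, if_false] at hd
    have hsum : ∑ _v ∈ X, 3 / 4 * (#Y : ℝ) ≤
        ∑ v ∈ X, ((#(Y.filter (fun w => G.Adj v w)) : ℕ) : ℝ) := by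
      refine sum_le_sum fun v hv => ?_
      have h1 := (mem_filter.mp hv).2
      simp only [Gc, Bool.false_eq_true, if_false] at h1
      have h2 : #(Y.filter (fun w => Gᶜ.Adj v w)) + #(Y.filter (fun w => G.Adj v w)) = #Y := by
        have h3 : Y.filter (fun w => Gᶜ.Adj v w) = Y.filter (fun w => ¬ G.Adj v w) := by
          apply filter_congr
          intro w hw
          rw [SimpleGraph.compl_adj]
          constructor
          · exact fun h => h.2
          · intro h
            refine ⟨fun hvw => ?_, h⟩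
            rw [← hvw] at hw
            exact (Finset.disjoint_left.mp hAB (hA' (hXA' hv))) (hB' (hY hw))
        rw [h3, add_comm]
        exact card_filter_add_card_filter_not _
      have h4 : ((#(Y.filter (fun w => Gᶜ.Adj v w)) : ℕ) : ℝ) +
          ((#(Y.filter (fun w => G.Adj v w)) : ℕ) : ℝ) = (#Y : ℝ) := by exact_mod_cast h2
      linarith
    rw [sum_const, nsmul_eq_mul] at hsum
    have h1 : 3 / 4 ≤ (G.edgeDensity X Y : ℝ) := by
      rw [hdens, le_div_iff₀ (mul_pos hXpos hYpos)]
      linarith
    rw [abs_lt] at hdev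
    linarith [hdev.2]

/-- a Ramsey statement for almost complete graphs with two colours -/
theorem ramsey_sparse {α : Type*} (irr red : α → α → Prop)
    (hred : ∀ x y, red x y → red y x) (hirr : ∀ x y, irr x y → irr y x) (D : ℕ) :
    ∀ (k a b : ℕ), a + b = k → ∀ Z : Finset α, (∀ z ∈ Z, #(Z.filter (fun y => irr z y)) ≤ D) →
      (D + 1) * (2 ^ (k + 1) - 1) ≤ #Z →
      (∃ C ⊆ Z, #C = a ∧ ∀ x ∈ C, ∀ y ∈ C, x ≠ y → ¬ irr x y ∧ red x y) ∨
      (∃ C ⊆ Z, #C = b ∧ ∀ x ∈ C, ∀ y ∈ C, x ≠ y → ¬ irr x y ∧ ¬ red x y) := by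
  intro k
  induction k with
  | zero =>
    intro a b hab Z _ _
    left
    refine ⟨∅, empty_subset _, ?_, ?_⟩
    · simp; omega
    · intro x hx; simp at hx
  | succ k ih =>
    intro a b hab Z hZ hcard
    rcases Nat.eq_zero_or_pos a with ha | ha
    · left
      refine ⟨∅, empty_subset _, ?_, ?_⟩
      · simp [ha]
      · intro x hx; simp at hx
    rcases Nat.eq_zero_or_pos b with hb | hb
    · right
      refine ⟨∅, empty_subset _, ?_, ?_⟩
      · simp [hb]
      · intro x hx; simp at hx
    have hpow : 2 ^ (k + 1 + 1) - 1 = 2 * (2 ^ (k + 1) - 1) + 1 := by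
      have : 1 ≤ 2 ^ (k + 1) := Nat.one_le_two_pow
      have h2 : 2 ^ (k + 1 + 1) = 2 * 2 ^ (k + 1) := by ring
      omega
    rw [hpow] at hcard
    have hcard' : 2 * ((D + 1) * (2 ^ (k + 1) - 1)) + (D + 1) ≤ #Z := by
      refine le_trans (le_of_eq ?_) hcard
      ring
    obtain ⟨z, hz⟩ : Z.Nonempty := by
      rw [← card_pos]; omega
    set Z' := (Z.erase z).filter (fun y => ¬ irr z y) with hZ'
    have hZ'card : #Z ≤ #Z' + (D + 1) := by
      have h1 : #(Z.erase z) = #Z - 1 := card_erase_of_mem hz
      have h2 : #((Z.erase z).filter (fun y => irr z y)) ≤ D :=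
        (card_le_card (filter_subset_filter _ (erase_subset _ _))).trans (hZ z hz)
      have h3 := card_filter_add_card_filter_not (s := Z.erase z) (fun y => irr z y)
      have h4 : 0 < #Z := card_pos.mpr ⟨z, hz⟩
      have h5 : #((Z.erase z).filter (fun y => ¬ irr z y)) = #Z' := rfl
      omega
    set Zr := Z'.filter (fun y => red z y) with hZr
    set Zb := Z'.filter (fun y => ¬ red z y) with hZb
    have hsplit : #Zr + #Zb = #Z' := card_filter_add_card_filter_not _
    have hsub : Z' ⊆ Z := (filter_subset _ _).trans (erase_subset _ _)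
    have hdeg : ∀ W ⊆ Z, ∀ y ∈ W, #(W.filter (fun x => irr y x)) ≤ D := by
      intro W hW y hy
      exact (card_le_card (filter_subset_filter _ hW)).trans (hZ y (hW hy))
    have hor : (D + 1) * (2 ^ (k + 1) - 1) ≤ #Zr ∨ (D + 1) * (2 ^ (k + 1) - 1) ≤ #Zb := by
      omega
    rcases hor with h | h
    · have hWZ : Zr ⊆ Z := (filter_subset _ _).trans hsub
      rcases ih (a - 1) b (by omega) Zr (hdeg Zr hWZ) h with ⟨C, hC, hCc, hCp⟩ | ⟨C, hC, hCc, hCp⟩
      · left
        have hzC : z ∉ C := by
          intro hzC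
          have := hC hzC
          rw [hZr, mem_filter, hZ', mem_filter, mem_erase] at this
          exact this.1.1.1 rfl
        refine ⟨insert z C, ?_, ?_, ?_⟩
        · exact insert_subset hz (hC.trans hWZ)
        · rw [card_insert_of_notMem hzC, hCc]; omega
        · have hzy : ∀ y ∈ C, ¬ irr z y ∧ red z y := by
            intro y hy
            have := hC hy
            rw [hZr, mem_filter, hZ', mem_filter, mem_erase] at this
            exact ⟨this.1.2, this.2⟩
          intro x hx y hy hxy
          rw [mem_insert] at hx hy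
          rcases hx with rfl | hx <;> rcases hy with rfl | hy
          · exact absurd rfl hxy
          · exact hzy y hy
          · exact ⟨fun h' => (hzy x hx).1 (hirr _ _ h'), hred _ _ (hzy x hx).2⟩
          · exact hCp x hx y hy hxy
      · right
        exact ⟨C, hC.trans hWZ, hCc, hCp⟩
    · have hWZ : Zb ⊆ Z := (filter_subset _ _).trans hsub
      rcases ih a (b - 1) (by omega) Zb (hdeg Zb hWZ) h with ⟨C, hC, hCc, hCp⟩ | ⟨C, hC, hCc, hCp⟩
      · left
        exact ⟨C, hC.trans hWZ, hCc, hCp⟩
      · right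
        have hzC : z ∉ C := by
          intro hzC
          have := hC hzC
          rw [hZb, mem_filter, hZ', mem_filter, mem_erase] at this
          exact this.1.1.1 rfl
        refine ⟨insert z C, ?_, ?_, ?_⟩
        · exact insert_subset hz (hC.trans hWZ)
        · rw [card_insert_of_notMem hzC, hCc]; omega
        · have hzy : ∀ y ∈ C, ¬ irr z y ∧ ¬ red z y := by
            intro y hy
            have := hC hy
            rw [hZb, mem_filter, hZ', mem_filter, mem_erase] at this
            exact ⟨this.1.2, this.2⟩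
          intro x hx y hy hxy
          rw [mem_insert] at hx hy
          rcases hx with rfl | hx <;> rcases hy with rfl | hy
          · exact absurd rfl hxy
          · exact hzy y hy
          · exact ⟨fun h' => (hzy x hx).1 (hirr _ _ h'), fun h' => (hzy x hx).2 (hred _ _ h')⟩
          · exact hCp x hx y hy hxy

/-- greedy choice of disjoint good sets -/
theorem greedy_family {α : Type*} (Q : Finset α → Prop) (q : ℕ) (hq : 0 < q) (T : ℕ) :
    ∀ (N : ℕ) (Z : Finset α), #Z = N →
      (∀ Y ⊆ Z, T ≤ #Y → ∃ C ⊆ Y, #C = q ∧ Q C) →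
      ∃ (r : ℕ) (F : Fin r → Finset α), (∀ i, F i ⊆ Z) ∧ (∀ i, #(F i) = q) ∧ (∀ i, Q (F i)) ∧
        (∀ i j, i ≠ j → Disjoint (F i) (F j)) ∧ #Z ≤ r * q + T := by
  intro N
  induction N using Nat.strong_induction_on with
  | _ N ih =>
    intro Z hZ hQ
    rcases Nat.lt_or_ge (#Z) T with h | h
    · exact ⟨0, fun i => i.elim0, fun i => i.elim0, fun i => i.elim0, fun i => i.elim0,
        fun i => i.elim0, by omega⟩
    · obtain ⟨C, hC, hCc, hCQ⟩ := hQ Z (Subset.refl _) h
      have hsd : #(Z \ C) = #Z - q := by rw [card_sdiff_of_subset hC, hCc]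
      have hCle := card_le_card hC
      obtain ⟨r, F, h1, h2, h3, h4, h5⟩ := ih (#(Z \ C)) (by omega) (Z \ C) rfl
        (fun Y hY => hQ Y (hY.trans sdiff_subset))
      refine ⟨r + 1, Fin.cons C F, ?_, ?_, ?_, ?_, ?_⟩
      · intro i
        refine Fin.cases ?_ ?_ i
        · simpa using hC
        · intro i; simpa using (h1 i).trans sdiff_subset
      · intro i
        refine Fin.cases ?_ ?_ i
        · simpa using hCc
        · intro i; simpa using h2 i
      · intro i
        refine Fin.cases ?_ ?_ i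
        · simpa using hCQ
        · intro i; simpa using h3 i
      · intro i j
        refine Fin.cases ?_ ?_ i
        · refine Fin.cases ?_ ?_ j
          · intro h; exact absurd rfl h
          · intro j _
            simp only [Fin.cons_zero, Fin.cons_succ]
            exact (Finset.disjoint_of_subset_left (h1 j) sdiff_disjoint).symm
        · intro i
          refine Fin.cases ?_ ?_ j
          · intro _
            simp only [Fin.cons_zero, Fin.cons_succ]
            exact Finset.disjoint_of_subset_left (h1 i) sdiff_disjoint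
          · intro j hij
            simp only [Fin.cons_succ]
            exact h4 i j (fun h => hij (by rw [h]))
      · rw [Nat.add_mul, Nat.one_mul]
        omega

end

end Pool.Agent.J6H67.BW
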