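import Mathlib

/-!
# States

A state is a map from the colours to the clusters with adjacent values.  Two states are
adjacent in the state graph if they differ at one colour.
-/

set_option autoImplicit false

open Finset

namespace Pool.Agent.J6H67.BW

section

variable {S : Type*} {χ : ℕ}

/-- the values of a state are pairwise adjacent -/
def IsSt (R : S → S → Prop) (σ : Fin χ → S) : Prop := ∀ i j, i ≠ j → R (σ i) (σ j)

/-- the state graph -/
def stG (R : S → S → Prop) (χ : ℕ) : SimpleGraph (Fin χ → S) where
  Adj σ σ' := σ ≠ σ' ∧ IsSt R σ ∧ IsSt R σ' ∧ ∃ c0, ∀ c, c ≠ c0 → σ c = σ' c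
  symm := ⟨by
    rintro σ σ' ⟨h1, h2, h3, c0, h4⟩
    exact ⟨h1.symm, h3, h2, c0, fun c hc => (h4 c hc).symm⟩⟩
  loopless := ⟨by
    rintro σ ⟨h1, _⟩
    exact h1 rfl⟩

theorem reach_of_lt (R : S → S → Prop) (hR : ∀ s s', R s s' → R s' s) (σ σ' : Fin χ → S)
    (hσ : IsSt R σ) (hσ' : IsSt R σ') (h : ∀ c c', c < c' → R (σ c) (σ' c')) :
    (stG R χ).Reachable σ σ' := by
  classical
  -- the mixtures
  have hmix : ∀ m : ℕ, IsSt R (fun c : Fin χ => if m ≤ (c : ℕ) then σ' c else σ c) := by
    intro m i j hij
    dsimp only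
    by_cases hi : m ≤ (i : ℕ) <;> by_cases hj : m ≤ (j : ℕ)
    · rw [if_pos hi, if_pos hj]; exact hσ' i j hij
    · rw [if_pos hi, if_neg hj]
      exact hR _ _ (h j i (by rw [Fin.lt_def]; omega))
    · rw [if_neg hi, if_pos hj]
      exact h i j (by rw [Fin.lt_def]; omega)
    · rw [if_neg hi, if_neg hj]; exact hσ i j hij
  have key : ∀ m : ℕ, m ≤ χ → (stG R χ).Reachable
      (fun c : Fin χ => if m ≤ (c : ℕ) then σ' c else σ c)
      (fun c : Fin χ => if 0 ≤ (c : ℕ) then σ' c else σ c) := by
    intro m
    induction m with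
    | zero => intro _; exact SimpleGraph.Reachable.refl _
    | succ m ih =>
      intro hm
      refine SimpleGraph.Reachable.trans ?_ (ih (by omega))
      by_cases heq : (fun c : Fin χ => if m + 1 ≤ (c : ℕ) then σ' c else σ c) =
          (fun c : Fin χ => if m ≤ (c : ℕ) then σ' c else σ c)
      · rw [heq]
      · apply SimpleGraph.Adj.reachable
        refine ⟨heq, hmix _, hmix _, ⟨m, by omega⟩, ?_⟩
        intro c hc
        have hc' : (c : ℕ) ≠ m := fun h' => hc (Fin.ext h')
        dsimp only
        by_cases h1 : m ≤ (c : ℕ)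
        · rw [if_pos (by omega), if_pos h1]
        · rw [if_neg (by omega), if_neg h1]
  have h1 := key χ le_rfl
  have h2 : (fun c : Fin χ => if χ ≤ (c : ℕ) then σ' c else σ c) = σ := by
    funext c
    rw [if_neg (by have := c.2; omega)]
  have h3 : (fun c : Fin χ => if 0 ≤ (c : ℕ) then σ' c else σ c) = σ' := by
    funext c
    rw [if_pos (Nat.zero_le _)]
  rw [h2, h3] at h1
  exact h1

/-- rotations of a clique with one more vertex than colours -/
theorem reach_rot (R : S → S → Prop) (hR : ∀ s s', R s s' → R s' s) (κ : Fin (χ + 1) → S)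
    (hκ : ∀ a a', a ≠ a' → R (κ a) (κ a')) (r : Fin (χ + 1)) :
    (stG R χ).Reachable (fun c : Fin χ => κ c.castSucc) (fun c : Fin χ => κ (c.castSucc + r)) := by
  have hstep : ∀ r : Fin (χ + 1), (stG R χ).Reachable (fun c : Fin χ => κ (c.castSucc + r))
      (fun c : Fin χ => κ (c.castSucc + (r + 1))) := by
    intro r
    apply reach_of_lt R hR
    · intro i j hij
      apply hκ
      intro h
      exact hij (Fin.castSucc_injective _ (add_right_cancel h))
    · intro i j hij
      apply hκ
      intro h
      exact hij (Fin.castSucc_injective _ (add_right_cancel h))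
    · intro c c' hcc
      apply hκ
      intro h
      have h1 : c.castSucc = c'.castSucc + 1 := by
        have : c.castSucc + r = c'.castSucc + 1 + r := by rw [h, add_assoc, add_comm r 1]
        exact add_right_cancel this
      rw [Fin.coeSucc_eq_succ] at h1
      have h2 := congrArg Fin.val h1
      rw [Fin.val_castSucc, Fin.val_succ] at h2
      rw [Fin.lt_def] at hcc
      omega
  induction r using Fin.induction with
  | zero => simpa using SimpleGraph.Reachable.refl _
  | succ i ih =>
    refine ih.trans ?_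
    have := hstep i.castSucc
    rwa [Fin.coeSucc_eq_succ] at this

/-- a bounded walk between reachable states -/
theorem exists_walk [Fintype S] [DecidableEq S] (R : S → S → Prop) (σ σ' : Fin χ → S)
    (h : (stG R χ).Reachable σ σ') :
    ∃ p : (stG R χ).Walk σ σ', p.length ≤ Fintype.card S ^ χ := by
  classical
  obtain ⟨p⟩ := h
  refine ⟨p.bypass, ?_⟩
  have h1 := (p.bypass_isPath).length_lt
  rw [Fintype.card_fun, Fintype.card_fin] at h1
  exact h1.le

/-- one long sequence of states through given targets -/
theorem exists_sequence [Fintype S] [DecidableEq S] (R : S → S → Prop)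
    (σ : ℕ → Fin χ → S) (hσ : ∀ t, IsSt R (σ t))
    (hreach : ∀ t t', (stG R χ).Reachable (σ t) (σ t')) (L K' : ℕ)
    (hL : Fintype.card S ^ χ ≤ L) (hK' : L < K') :
    ∃ g : ℕ → Fin χ → S, (∀ m, IsSt R (g m)) ∧
      (∀ m c c', c ≠ c' → R (g m c) (g (m + 1) c')) ∧
      (∀ m, L ≤ m % K' → g m = σ (m / K')) := by
  choose p hp using fun t : ℕ => exists_walk R _ _ (hreach (t - 1) t)
  have hK0 : 0 < K' := by omega
  -- states on walks
  have hst : ∀ t i, IsSt R ((p t).getVert i) := by
    intro t i
    by_cases hi : i < (p t).length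
    · exact ((p t).adj_getVert_succ hi).2.1
    · rw [(p t).getVert_of_length_le (by omega)]
      exact hσ t
  have hend : ∀ t i, L ≤ i → (p t).getVert i = σ t := by
    intro t i hi
    rw [(p t).getVert_of_length_le]
    exact (hp t).trans (hL.trans hi)
  have hcross : ∀ t i c c', c ≠ c' → R ((p t).getVert i c) ((p t).getVert (i + 1) c') := by
    intro t i c c' hcc
    by_cases hi : i < (p t).length
    · obtain ⟨_, h2, h3, c0, h4⟩ := (p t).adj_getVert_succ hi
      by_cases hc : c = c0
      · have : c' ≠ c0 := fun h => hcc (hc.trans h.symm)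
        rw [← h4 c' this]
        exact h2 c c' hcc
      · rw [h4 c hc]
        exact h3 c c' hcc
    · rw [(p t).getVert_of_length_le (by omega), (p t).getVert_of_length_le (by omega)]
      exact hσ t c c' hcc
  refine ⟨fun m => (p (m / K')).getVert (m % K'), fun m => hst _ _, ?_, fun m hm => hend _ _ hm⟩
  intro m c c' hcc
  dsimp only
  have hdm := Nat.div_add_mod m K'
  have hlt := Nat.mod_lt m hK0
  by_cases hm : m % K' + 1 < K'
  · have h1 : (m + 1) / K' = m / K' := by
      have : m + 1 = (m % K' + 1) + K' * (m / K') := by omega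
      rw [this, Nat.add_mul_div_left _ _ hK0, Nat.div_eq_of_lt hm, zero_add]
    have h2 : (m + 1) % K' = m % K' + 1 := by
      have : m + 1 = (m % K' + 1) + K' * (m / K') := by omega
      rw [this, Nat.add_mul_mod_self_left, Nat.mod_eq_of_lt hm]
    rw [h1, h2]
    exact hcross _ _ c c' hcc
  · have hmod : m % K' = K' - 1 := by omega
    have h3 : m + 1 = K' * (m / K' + 1) := by
      rw [Nat.mul_add, Nat.mul_one]; omega
    have h1 : (m + 1) % K' = 0 := by
      rw [h3]; exact Nat.mul_mod_right _ _
    have h2 : (m + 1) / K' = m / K' + 1 := by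
      rw [h3]; exact Nat.mul_div_cancel_left _ hK0
    rw [h1, h2]
    rw [hend (m / K') (m % K') (by omega)]
    rw [SimpleGraph.Walk.getVert_zero]
    simpa using hσ (m / K') c c' hcc

end

end Pool.Agent.J6H67.BW
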