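import Pool.Agent.J6H67.BW.First

/-!
# The tile system of a two-coloured complete graph
-/

set_option autoImplicit false

open Finset

namespace Pool.Agent.J6H67.BW

section

open Classical

theorem tile_system (χ : ℕ) (ε2 η2 ζ σ : ℝ) (hε2 : 0 < ε2) (hη2 : 0 < η2) (hη21 : η2 ≤ 1)
    (hζ : 0 < ζ) (hζ1 : ζ ≤ 1) (hσ0 : 0 ≤ σ) (hσ1 : σ ≤ 1) :
    ∃ (n₀ B : ℕ), 0 < B ∧ ∀ n N : ℕ, n₀ ≤ n → n ≤ N → 0 < n → ∀ G : SimpleGraph (Fin N),
      ∃ (𝒯 : Type) (_ : Fintype 𝒯) (D : TileSys 𝒯) (U : 𝒯 → Fin (χ + 1) → Finset (Fin N))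
        (mm : 𝒯 → ℕ),
        D.Good (4 * ζ * ((N : ℝ) / n)) ∧
        (∀ τ a τ' a', (τ, a) ≠ (τ', a') → Disjoint (U τ a) (U τ' a')) ∧
        (∀ τ a, mm τ ≤ #(U τ a)) ∧
        (∀ τ, (n : ℝ) * D.w τ ≤ (1 - σ) * ((χ + 1) * (mm τ : ℝ))) ∧
        (∀ b (s s' : 𝒯 × Fin (χ + 1)), Radj D b χ s s' →
          Typ (Gc G b) ε2 (1 / 4) (U s.1 s.2) (U s'.1 s'.2)) ∧
        Fintype.card (𝒯 × Fin (χ + 1)) ≤ B ∧ (∀ τ, n ≤ B * mm τ) ∧
        (1 - σ) * (1 - η2) * (1 - ζ) * ((N : ℝ) / n - ζ) ≤ ∑ τ, D.w τ := by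
  obtain ⟨M₀, Bd, hBd, TL⟩ := tile_subset (χ + 1) (Nat.succ_pos _) ε2 η2 hε2 hη2 hη21
  have hBdR : (0 : ℝ) < (Bd : ℝ) := by exact_mod_cast hBd
  set ε1 : ℝ := min (ζ ^ 2) (min (ε2 / Bd) (1 / 8)) with hε1
  have hε1pos : 0 < ε1 := lt_min (by positivity) (lt_min (by positivity) (by norm_num))
  have hε1a : ε1 ≤ ζ ^ 2 := min_le_left _ _
  have hε1b : ε1 ≤ ε2 / Bd := (min_le_right _ _).trans (min_le_left _ _)
  have hε1c : ε1 ≤ 1 / 8 := (min_le_right _ _).trans (min_le_right _ _)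
  set l1 : ℕ := ⌈1 / ζ⌉₊ + 1 with hl1
  have hl1p : 1 / ζ ≤ (l1 : ℝ) := by
    rw [hl1]; push_cast
    have := Nat.le_ceil (1 / ζ)
    linarith
  set B1 : ℕ := SzemerediRegularity.bound ε1 l1 with hB1
  have hB1pos : 0 < B1 := SzemerediRegularity.bound_pos _ _
  refine ⟨max (max l1 (B1 * (M₀ + 1))) (⌈(B1 : ℝ) / ζ⌉₊), 2 * B1 * Bd, by positivity, ?_⟩
  intro n N hn hnN hn0 G
  have hnl1 : l1 ≤ n := ((le_max_left _ _).trans (le_max_left _ _)).trans hn
  have hnB1 : B1 * (M₀ + 1) ≤ n := ((le_max_right _ _).trans (le_max_left _ _)).trans hn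
  have hnζ : (B1 : ℝ) / ζ ≤ (n : ℝ) := by
    have h1 : ⌈(B1 : ℝ) / ζ⌉₊ ≤ n := (le_max_right _ _).trans hn
    exact (Nat.le_ceil _).trans (by exact_mod_cast h1)
  have hnR : (0 : ℝ) < (n : ℝ) := by exact_mod_cast hn0
  have hNR : (n : ℝ) ≤ (N : ℝ) := by exact_mod_cast hnN
  obtain ⟨P, hP1, hP2, hP3, hP4⟩ := szemeredi_regularity G (l := l1) hε1pos
    (by rw [Fintype.card_fin]; omega)
  set t : ℕ := #P.parts with ht
  have htpos : 0 < t := by omega
  have htR : (0 : ℝ) < (t : ℝ) := by exact_mod_cast htpos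
  have htζ : 1 ≤ ζ * t := by
    have h1 : (l1 : ℝ) ≤ (t : ℝ) := by exact_mod_cast hP2
    have h2 := hl1p.trans h1
    rw [div_le_iff₀ hζ] at h2
    linarith
  have htB1 : (t : ℝ) ≤ B1 := by exact_mod_cast hP3
  have htn : (t : ℝ) ≤ ζ * n := by
    rw [div_le_iff₀ hζ] at hnζ
    linarith
  have htnN : t ≤ N := by
    have : t ≤ B1 * (M₀ + 1) := by
      calc t ≤ B1 := hP3
        _ = B1 * 1 := (Nat.mul_one _).symm
        _ ≤ _ := Nat.mul_le_mul_left _ (by omega)
    omega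
  have hpart1 : ∀ W ∈ P.parts, N / t ≤ #W := by
    intro W hW
    have := hP1.average_le_card_part hW
    rwa [card_univ, Fintype.card_fin] at this
  have hpart2 : ∀ W ∈ P.parts, #W ≤ N / t + 1 := by
    intro W hW
    have := hP1.card_part_le_average_add_one hW
    rwa [card_univ, Fintype.card_fin] at this
  have hpartM : ∀ W ∈ P.parts, M₀ ≤ #W := by
    intro W hW
    refine le_trans ?_ (hpart1 W hW)
    rw [Nat.le_div_iff_mul_le htpos]
    calc M₀ * t ≤ M₀ * B1 := Nat.mul_le_mul_left _ hP3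
      _ ≤ B1 * (M₀ + 1) := by rw [Nat.mul_comm, Nat.mul_add]; omega
      _ ≤ N := hnB1.trans hnN
  have hNt1 : 1 ≤ N / t := (Nat.one_le_div_iff htpos).mpr htnN
  have hNt2 : N < t * (N / t + 1) := by
    have h1 := Nat.div_add_mod N t
    have h2 := Nat.mod_lt N htpos
    rw [Nat.mul_add, Nat.mul_one]
    omega
  have hNt3 : ((N / t : ℕ) : ℝ) ≤ (N : ℝ) / t := Nat.cast_div_le
  -- the good parts
  set D1 : ℕ := ⌊ζ * (t : ℝ)⌋₊ with hD1
  have hD1le : (D1 : ℝ) ≤ ζ * t := Nat.floor_le (by positivity)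
  set irr : Finset (Fin N) → Finset (Fin N) → Prop := fun A B => A ≠ B ∧ ¬ G.IsUniform ε1 A B
    with hirr
  set good : Finset (Finset (Fin N)) := P.parts.filter
    (fun z => #(P.parts.filter (fun y => z ≠ y ∧ ¬ G.IsUniform ε1 z y)) ≤ D1) with hgood
  have hgoodP : good ⊆ P.parts := filter_subset _ _
  have hbadle := bad_parts_le G P ε1 ζ hζ hε1pos hε1a hP4 htpos
  have hgb : #(good) + #(P.parts.filter (fun z => ¬ #(P.parts.filter
      (fun y => z ≠ y ∧ ¬ G.IsUniform ε1 z y)) ≤ D1)) = t :=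
    card_filter_add_card_filter_not _
  have hgoodcard : (1 - ζ) * t ≤ (#(good) : ℝ) := by
    have h1 : (#(good) : ℝ) + ((#(P.parts.filter (fun z => ¬ #(P.parts.filter
      (fun y => z ≠ y ∧ ¬ G.IsUniform ε1 z y)) ≤ D1)) : ℕ) : ℝ) = t := by exact_mod_cast hgb
    linarith
  -- the tiles
  have TL' : ∀ W : {W // W ∈ good}, _ := fun W => TL (Fin N) G W.1 (hpartM W.1 (hgoodP W.2))
  choose r m U col h1 h2 h3 h4 h5 h6 h7 h8 using TL'
  set 𝒯 : Type := Σ W : {W // W ∈ good}, Fin (r W) with h𝒯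
  obtain ⟨D, hDw, hDcol, hDrel, hDbad⟩ : ∃ D : TileSys 𝒯,
      (∀ τ, D.w τ = (1 - σ) * ((χ + 1) * (m τ.1 : ℝ)) / n) ∧ (∀ τ, D.col τ = col τ.1 τ.2) ∧
      (∀ b τ τ', D.rel b τ τ' ↔ (τ.1 ≠ τ'.1 ∧ G.IsUniform ε1 τ.1.1 τ'.1.1 ∧
        (if b then (1 : ℝ) / 2 ≤ (G.edgeDensity τ.1.1 τ'.1.1 : ℝ)
          else (G.edgeDensity τ.1.1 τ'.1.1 : ℝ) ≤ 1 / 2))) ∧
      (∀ τ τ', D.bad τ τ' ↔ (τ.1 = τ'.1 ∨ ¬ G.IsUniform ε1 τ.1.1 τ'.1.1)) :=
    ⟨{ w := fun τ => (1 - σ) * ((χ + 1) * (m τ.1 : ℝ)) / n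
       col := fun τ => col τ.1 τ.2
       rel := fun b τ τ' => τ.1 ≠ τ'.1 ∧ G.IsUniform ε1 τ.1.1 τ'.1.1 ∧
        (if b then (1 : ℝ) / 2 ≤ (G.edgeDensity τ.1.1 τ'.1.1 : ℝ)
          else (G.edgeDensity τ.1.1 τ'.1.1 : ℝ) ≤ 1 / 2)
       bad := fun τ τ' => τ.1 = τ'.1 ∨ ¬ G.IsUniform ε1 τ.1.1 τ'.1.1 },
      fun _ => rfl, fun _ => rfl, fun _ _ _ => Iff.rfl, fun _ _ => Iff.rfl⟩
  refine ⟨𝒯, inferInstance, D, fun τ a => U τ.1 τ.2 a, fun τ => m τ.1, ?_, ?_, ?_, ?_, ?_, ?_,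
    ?_, ?_⟩
  · -- the axioms
    refine ⟨?_, ?_, ?_, ?_, ?_, ?_⟩
    · intro τ
      rw [hDw]
      apply div_nonneg _ hnR.le
      apply mul_nonneg (by linarith)
      positivity
    · intro b τ τ' g
      rw [hDrel] at g ⊢
      obtain ⟨g1, g2, g3⟩ := g
      refine ⟨g1.symm, g2.symm, ?_⟩
      rw [SimpleGraph.edgeDensity_comm]
      exact g3
    · intro τ τ' g
      rw [hDbad] at g ⊢
      rcases g with g | g
      · exact Or.inl g.symm
      · exact Or.inr (fun h => g h.symm)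
    · intro τ
      rw [hDbad]
      exact Or.inl rfl
    · intro b τ τ' g1 g2
      rw [hDbad, not_or, not_not] at g1
      rw [hDrel] at g2 ⊢
      refine ⟨g1.1, g1.2, ?_⟩
      by_contra g3
      apply g2
      refine ⟨g1.1, g1.2, ?_⟩
      cases b with
      | true =>
        simp only [if_true, not_le] at g3
        simp only [Bool.not_true, Bool.false_eq_true, if_false]
        exact g3.le
      | false =>
        simp only [Bool.false_eq_true, if_false, not_le] at g3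
        simp only [Bool.not_false, if_true]
        exact g3.le
    · intro x
      rw [sum_filter, Fintype.sum_sigma]
      -- bound for one part
      have e1 : ∀ W : {W // W ∈ good}, ∑ i : Fin (r W),
          (if D.bad x ⟨W, i⟩ then D.w ⟨W, i⟩ else 0) ≤
          (if x.1.1 = W.1 ∨ ¬ G.IsUniform ε1 x.1.1 W.1 then (#W.1 : ℝ) / n else 0) := by
        intro W
        by_cases hb : x.1.1 = W.1 ∨ ¬ G.IsUniform ε1 x.1.1 W.1
        · rw [if_pos hb]
          calc ∑ i : Fin (r W), (if D.bad x ⟨W, i⟩ then D.w ⟨W, i⟩ else 0)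
              ≤ ∑ _i : Fin (r W), ((χ + 1) * (m W : ℝ)) / n := by
                refine sum_le_sum fun i _ => ?_
                split_ifs
                · rw [hDw]
                  dsimp only
                  apply div_le_div_of_nonneg_right _ hnR.le
                  have : 0 ≤ (χ + 1) * (m W : ℝ) := by positivity
                  nlinarith
                · positivity
            _ = ((r W : ℝ) * (χ + 1) * m W) / n := by
                rw [sum_const, card_univ, Fintype.card_fin, nsmul_eq_mul]; ring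
            _ ≤ (#W.1 : ℝ) / n := by
                apply div_le_div_of_nonneg_right _ hnR.le
                have := h8 W
                have h9 : ((r W * (χ + 1) * m W : ℕ) : ℝ) ≤ (#W.1 : ℝ) := by exact_mod_cast this
                push_cast at h9
                exact h9
        · rw [if_neg hb]
          apply le_of_eq
          refine sum_eq_zero fun i _ => ?_
          rw [if_neg]
          intro h'
          apply hb
          rw [hDbad] at h'
          rcases h' with h' | h'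
          · exact Or.inl (by rw [h'])
          · exact Or.inr h'
      refine (sum_le_sum fun W _ => e1 W).trans ?_
      have e2 : ∑ W : {W // W ∈ good}, (if x.1.1 = W.1 ∨ ¬ G.IsUniform ε1 x.1.1 W.1 then
          (#W.1 : ℝ) / n else 0) = ∑ W ∈ good, (if x.1.1 = W ∨ ¬ G.IsUniform ε1 x.1.1 W then
          (#W : ℝ) / n else 0) :=
        sum_coe_sort good (fun W => if x.1.1 = W ∨ ¬ G.IsUniform ε1 x.1.1 W then
          (#W : ℝ) / n else 0)
      rw [e2, ← sum_filter]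
      have e3 : good.filter (fun W => x.1.1 = W ∨ ¬ G.IsUniform ε1 x.1.1 W) ⊆
          insert x.1.1 (P.parts.filter (fun y => x.1.1 ≠ y ∧ ¬ G.IsUniform ε1 x.1.1 y)) := by
        intro W hW
        rw [mem_filter] at hW
        rw [mem_insert, mem_filter]
        by_cases hxW : x.1.1 = W
        · exact Or.inl hxW.symm
        · rcases hW.2 with h' | h'
          · exact absurd h' hxW
          · exact Or.inr ⟨hgoodP hW.1, hxW, h'⟩
      have e4 : #(P.parts.filter (fun y => x.1.1 ≠ y ∧ ¬ G.IsUniform ε1 x.1.1 y)) ≤ D1 := by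
        have := x.1.2
        simp only [hgood, mem_filter] at this
        exact this.2
      have e5 : (#(good.filter (fun W => x.1.1 = W ∨ ¬ G.IsUniform ε1 x.1.1 W)) : ℝ) ≤
          2 * (ζ * t) := by
        have h9 := (card_le_card e3).trans (card_insert_le _ _)
        have h10 : #(good.filter (fun W => x.1.1 = W ∨ ¬ G.IsUniform ε1 x.1.1 W)) ≤ D1 + 1 := by
          omega
        have h11 : (#(good.filter (fun W => x.1.1 = W ∨ ¬ G.IsUniform ε1 x.1.1 W)) : ℝ) ≤
          (D1 : ℝ) + 1 := by exact_mod_cast h10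
        linarith
      have e6 : ∀ W ∈ good, (#W : ℝ) / n ≤ 2 * ((N : ℝ) / t) / n := by
        intro W hW
        apply div_le_div_of_nonneg_right _ hnR.le
        have h9 : (#W : ℝ) ≤ ((N / t : ℕ) : ℝ) + 1 := by exact_mod_cast hpart2 W (hgoodP hW)
        have h10 : (1 : ℝ) ≤ ((N / t : ℕ) : ℝ) := by exact_mod_cast hNt1
        linarith
      calc ∑ W ∈ good.filter (fun W => x.1.1 = W ∨ ¬ G.IsUniform ε1 x.1.1 W), (#W : ℝ) / n
          ≤ ∑ _W ∈ good.filter (fun W => x.1.1 = W ∨ ¬ G.IsUniform ε1 x.1.1 W),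
              2 * ((N : ℝ) / t) / n :=
            sum_le_sum fun W hW => e6 W (filter_subset _ _ hW)
        _ = (#(good.filter (fun W => x.1.1 = W ∨ ¬ G.IsUniform ε1 x.1.1 W)) : ℝ) *
              (2 * ((N : ℝ) / t) / n) := by rw [sum_const, nsmul_eq_mul]
        _ ≤ (2 * (ζ * t)) * (2 * ((N : ℝ) / t) / n) :=
            mul_le_mul_of_nonneg_right e5 (by positivity)
        _ = 4 * ζ * ((N : ℝ) / n) := by field_simp; ring
  · -- disjointness
    rintro ⟨W, i⟩ a ⟨W', i'⟩ a' hne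
    by_cases hW : W = W'
    · subst hW
      apply h5 W i a i' a'
      intro h
      apply hne
      rw [Prod.mk.injEq] at h ⊢
      exact ⟨by rw [h.1], h.2⟩
    · have hd : Disjoint W.1 W'.1 :=
        P.disjoint (hgoodP W.2) (hgoodP W'.2) (fun h => hW (Subtype.ext h))
      exact Finset.disjoint_of_subset_left (h4 W i a)
        (Finset.disjoint_of_subset_right (h4 W' i' a') hd)
  · rintro ⟨W, i⟩ a
    exact h3 W i a
  · rintro ⟨W, i⟩
    rw [hDw]
    rw [mul_div_cancel₀ _ hnR.ne']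
  · -- typical pairs
    rintro b ⟨⟨W, i⟩, a⟩ ⟨⟨W', i'⟩, a'⟩ hR
    rcases hR with ⟨g1, g2, g3⟩ | ⟨g1, g2⟩
    · dsimp only at g1 g2 g3 ⊢
      cases g1
      rw [hDcol] at g2
      rw [← g2]
      exact h6 W i a a' g3
    · rw [hDrel] at g2
      obtain ⟨g2, g3, g4⟩ := g2
      dsimp only at g1 g2 g3 g4 ⊢
      have hne0 : ∀ W : {W // W ∈ good}, W.1.Nonempty := fun W =>
        P.nonempty_of_mem_parts (hgoodP W.2)
      have hsz : ∀ (W : {W // W ∈ good}) (i : Fin (r W)) (a : Fin (χ + 1)),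
          (#W.1 : ℝ) * ε1 ≤ ε2 * (#(U W i a) : ℝ) := by
        intro W i a
        have g5 : (#W.1 : ℝ) ≤ Bd * (m W : ℝ) := by exact_mod_cast h1 W
        have g6 : (m W : ℝ) ≤ (#(U W i a) : ℝ) := by exact_mod_cast h3 W i a
        calc (#W.1 : ℝ) * ε1 ≤ (Bd * (m W : ℝ)) * (ε2 / Bd) :=
              mul_le_mul g5 hε1b hε1pos.le (by positivity)
          _ = ε2 * (m W : ℝ) := by field_simp
          _ ≤ _ := mul_le_mul_of_nonneg_left g6 hε2.le
      exact typ_of_uniform G b W.1 W'.1 (U W i a) (U W' i' a') ε1 ε2 hε1pos hε1c g3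
        (P.disjoint (hgoodP W.2) (hgoodP W'.2) (fun h => g2 (Subtype.ext h))) g4
        (h4 W i a) (h4 W' i' a') (hne0 W) (hne0 W') (hsz W i a) (hsz W' i' a')
  · -- the number of clusters
    rw [Fintype.card_prod, Fintype.card_fin, Fintype.card_sigma, sum_mul]
    simp only [Fintype.card_fin]
    calc ∑ W : {W // W ∈ good}, r W * (χ + 1) ≤ ∑ _W : {W // W ∈ good}, Bd :=
          sum_le_sum fun W _ => h2 W
      _ = #(good) * Bd := by
          rw [sum_const, card_univ, Fintype.card_coe, smul_eq_mul]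
      _ ≤ B1 * Bd := Nat.mul_le_mul_right _ ((card_le_card hgoodP).trans hP3)
      _ ≤ 2 * B1 * Bd := by
          rw [Nat.mul_assoc]; omega
  · rintro ⟨W, i⟩
    dsimp only
    have g1 : N / t ≤ Bd * m W := (hpart1 W.1 (hgoodP W.2)).trans (h1 W)
    have g2 : N < B1 * (2 * (Bd * m W)) := by
      refine lt_of_lt_of_le hNt2 ?_
      apply Nat.mul_le_mul hP3
      omega
    calc n ≤ N := hnN
      _ ≤ B1 * (2 * (Bd * m W)) := g2.le
      _ = 2 * B1 * Bd * m W := by ring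
  · -- the total weight
    rw [Fintype.sum_sigma]
    have e1 : ∀ W : {W // W ∈ good}, (1 - σ) * (1 - η2) * ((N : ℝ) / t - 1) / n ≤
        ∑ i : Fin (r W), D.w ⟨W, i⟩ := by
      intro W
      simp only [hDw]
      rw [sum_const, card_univ, Fintype.card_fin, nsmul_eq_mul]
      rw [mul_div_assoc']
      apply div_le_div_of_nonneg_right _ hnR.le
      have g1 : (N : ℝ) / t - 1 ≤ (#W.1 : ℝ) := by
        have g2 : ((N / t : ℕ) : ℝ) ≤ (#W.1 : ℝ) := by exact_mod_cast hpart1 W.1 (hgoodP W.2)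
        have g3 : (N : ℝ) / t ≤ ((N / t : ℕ) : ℝ) + 1 := by
          rw [div_le_iff₀ htR]
          have g4 : (N : ℝ) ≤ (t : ℝ) * (((N / t : ℕ) : ℝ) + 1) := by exact_mod_cast hNt2.le
          linarith
        linarith
      have g5 := h7 W
      push_cast at g5
      calc (1 - σ) * (1 - η2) * ((N : ℝ) / t - 1)
          = (1 - σ) * ((1 - η2) * ((N : ℝ) / t - 1)) := by ring
        _ ≤ (1 - σ) * ((1 - η2) * (#W.1 : ℝ)) := by
            apply mul_le_mul_of_nonneg_left _ (by linarith)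
            exact mul_le_mul_of_nonneg_left g1 (by linarith)
        _ ≤ (1 - σ) * ((r W : ℝ) * (χ + 1) * m W) :=
            mul_le_mul_of_nonneg_left g5 (by linarith)
        _ = _ := by ring
    refine le_trans ?_ (sum_le_sum fun W _ => e1 W)
    rw [sum_const, card_univ, Fintype.card_coe, nsmul_eq_mul]
    have g6 : 0 ≤ (N : ℝ) / t - 1 := by
      rw [sub_nonneg, le_div_iff₀ htR, one_mul]
      exact_mod_cast htnN
    have g7 : 0 ≤ (1 - σ) * (1 - η2) * ((N : ℝ) / t - 1) / n := by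
      apply div_nonneg _ hnR.le
      apply mul_nonneg _ g6
      exact mul_nonneg (by linarith) (by linarith)
    calc (1 - σ) * (1 - η2) * (1 - ζ) * ((N : ℝ) / n - ζ)
        ≤ (1 - σ) * (1 - η2) * (1 - ζ) * (((N : ℝ) - t) / n) := by
          apply mul_le_mul_of_nonneg_left
          · rw [sub_div]
            have : (t : ℝ) / n ≤ ζ := by rw [div_le_iff₀ hnR]; exact htn
            linarith
          · exact mul_nonneg (mul_nonneg (by linarith) (by linarith)) (by linarith)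
      _ = ((1 - ζ) * t) * ((1 - σ) * (1 - η2) * ((N : ℝ) / t - 1) / n) := by
          field_simp
      _ ≤ _ := mul_le_mul_of_nonneg_right hgoodcard g7

end

end Pool.Agent.J6H67.BW
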